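import Pool.Agent.TH954.DescentMain
import Pool.Agent.TH841.NF.ShaN

/-!
# Selmer classes of two-power order over a field with trivial 2-Selmer group
-/

set_option autoImplicit false
set_option linter.all false

open IsDedekindDomain NumberField WeierstrassCurve

namespace Pool.Agent.R425.D

open Pool.Agent.TH954

open scoped Classical

section

variable {K : Type} [Field K] {E : WeierstrassCurve K}

/-- two embeddings of the algebraic closure of `K` differ by an automorphism -/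
lemma emb_conj {L : Type} [Field L] [Algebra K L] (ι ι' : AlgebraicClosure K →ₐ[K] AlgebraicClosure L) :
    ∃ ρ : AlgebraicClosure K ≃ₐ[K] AlgebraicClosure K, ∀ z, ι' z = ι (ρ z) := by
  let : Algebra (AlgebraicClosure K) (AlgebraicClosure L) := ι.toRingHom.toAlgebra
  have : IsScalarTower K (AlgebraicClosure K) (AlgebraicClosure L) :=
    IsScalarTower.of_algebraMap_eq' ι.comp_algebraMap.symm
  refine ⟨Normal.algHomEquivAut K (AlgebraicClosure L) (AlgebraicClosure K) ι', fun z => ?_⟩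
  have h := (Normal.algHomEquivAut K (AlgebraicClosure L) (AlgebraicClosure K)).left_inv ι'
  exact (congrArg (fun g => g z) h).symm

/-- the local condition does not depend on the embedding -/
lemma triv_all {L : Type} [Field L] [Algebra K L]
    {ξ : (AlgebraicClosure K ≃ₐ[K] AlgebraicClosure K) → AlgPt E K} (hξ : IsCocycle E ξ)
    (h : TrivialOver E ξ L) (ι' : AlgebraicClosure K →ₐ[K] AlgebraicClosure L) :
    ∃ Q : AlgPt E L, ∀ σ τ, Compat ι' σ τ → pm E ι' (ξ τ) = act E σ Q - Q := by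
  obtain ⟨ι, Q, hQ⟩ := h
  obtain ⟨ρ, hρ⟩ := emb_conj ι ι'
  have hι : ∀ P : AlgPt E K, pm E ι' P = pm E ι (act E ρ P) := by
    intro P
    unfold act
    rw [pm_pm]
    congr 2
    apply AlgHom.ext
    intro z
    exact hρ z
  refine ⟨Q + pm E ι (ξ ρ), fun σ τ hστ => ?_⟩
  have hc : Compat ι σ (ρ * τ * ρ⁻¹) := by
    intro z
    have h1 := hστ (ρ⁻¹ z)
    rw [hρ, hρ] at h1
    have h2 : ρ (ρ⁻¹ z) = z := by
      change (ρ * ρ⁻¹) z = z
      rw [mul_inv_cancel]
      rfl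
    rw [h2] at h1
    exact h1
  have h3 := hQ σ _ hc
  have e1 : ξ (ρ * τ) = ξ ρ + act E ρ (ξ τ) := hξ.1 ρ τ
  have e2 : ξ (ρ * τ) = ξ (ρ * τ * ρ⁻¹) + act E (ρ * τ * ρ⁻¹) (ξ ρ) := by
    have := hξ.1 (ρ * τ * ρ⁻¹) ρ
    rwa [inv_mul_cancel_right] at this
  have e3 : act E ρ (ξ τ) = ξ (ρ * τ * ρ⁻¹) + act E (ρ * τ * ρ⁻¹) (ξ ρ) - ξ ρ := by
    rw [← e2, e1]
    abel
  rw [hι, e3, map_sub, map_add, h3, ← act_pm ι hc, act_add]
  abel

open Pool.Agent.TH841.SH.D (Coch IsCoc IsCob LocTriv)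

lemma coc_of {ξ : (AlgebraicClosure K ≃ₐ[K] AlgebraicClosure K) → AlgPt E K}
    (hξ : IsCocycle E ξ) : IsCoc E ξ := by
  refine ⟨?_, fun σ τ => hξ.1 σ τ⟩
  obtain ⟨F, hF, h⟩ := hξ.2
  refine (IsLocallyConstant.iff_exists_open _).2 fun σ => ?_
  refine ⟨(fun τ => σ⁻¹ * τ) ⁻¹' (F.fixingSubgroup : Set _),
    (IntermediateField.fixingSubgroup_isOpen F).preimage (continuous_const_mul _), ?_, ?_⟩
  · show σ⁻¹ * σ ∈ F.fixingSubgroup
    rw [inv_mul_cancel]
    exact F.fixingSubgroup.one_mem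
  · intro τ hτ
    refine (h σ τ fun x hx => ?_).symm
    have h1 : (σ⁻¹ * τ) x = x := (IntermediateField.mem_fixingSubgroup_iff F _).1 hτ x hx
    have h2 : σ ((σ⁻¹ * τ) x) = τ x := by
      change (σ * (σ⁻¹ * τ)) x = τ x
      rw [mul_inv_cancel_left]
    rw [← h2, h1]

lemma loc_of {L : Type} [Field L] [Algebra K L]
    {ξ : (AlgebraicClosure K ≃ₐ[K] AlgebraicClosure K) → AlgPt E K} (hξ : IsCocycle E ξ)
    (h : TrivialOver E ξ L) : LocTriv E L ξ := by
  intro ι
  obtain ⟨Q, hQ⟩ := triv_all hξ h ι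
  exact ⟨Q, fun τ σ hτσ => hQ τ σ (fun z => (hτσ z).symm)⟩

end

section

variable {K : Type} [Field K] [NumberField K] {E : WeierstrassCurve K}

/-- in a finite group without elements of order two every element is divisible by two-powers -/
lemma div_two {G : Type} [AddCommGroup G] [Finite G] (h : ∀ P : G, 2 • P = 0 → P = 0) (k : ℕ) :
    ∀ P : G, ∃ Q : G, 2 ^ k • Q = P := by
  have h1 : Function.Injective (fun P : G => 2 • P) := by
    intro P Q hPQ
    have h2 : 2 • (P - Q) = 0 := by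
      rw [smul_sub]
      exact sub_eq_zero.2 hPQ
    exact sub_eq_zero.1 (h _ h2)
  have h2 : Function.Surjective (fun P : G => 2 • P) := Finite.surjective_of_injective h1
  induction k with
  | zero => intro P; exact ⟨P, by rw [pow_zero, one_nsmul]⟩
  | succ k ih =>
    intro P
    obtain ⟨Q, hQ⟩ := ih P
    obtain ⟨R, hR⟩ := h2 Q
    refine ⟨R, ?_⟩
    rw [pow_succ, mul_smul]
    have hR' : 2 • R = Q := hR
    rw [hR', hQ]

/-- **Selmer classes of two-power order are trivial.** -/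
theorem cocycle_trivial (hsha : ∀ s : Pool.Agent.TH841.NF.D.Sha E, 2 • s = 0 → s = 0)
    (hfin : Finite E.toAffine.Point) (h2tor : ∀ P : E.toAffine.Point, 2 • P = 0 → P = 0) (k : ℕ)
    (ξ : (AlgebraicClosure K ≃ₐ[K] AlgebraicClosure K) → AlgPt E K) (hξ : IsCocycle E ξ)
    (hk : ∀ σ, 2 ^ k • ξ σ = 0)
    (hv : ∀ v : HeightOneSpectrum (𝓞 K), TrivialOver E ξ (v.adicCompletion K))
    (hw : ∀ w : InfinitePlace K, TrivialOver E ξ w.Completion) :
    ∃ T : AlgPt E K, 2 ^ k • T = 0 ∧ ∀ σ, ξ σ = act E σ T - T := by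
  have hshak : ∀ (j : ℕ) (x : Pool.Agent.TH841.NF.D.Sha E), 2 ^ j • x = 0 → x = 0 := by
    intro j
    induction j with
    | zero => intro x hx; rw [pow_zero, one_nsmul] at hx; exact hx
    | succ j ih =>
      intro x hx
      rw [pow_succ, mul_nsmul] at hx
      exact ih x (hsha _ hx)
  have hcoc : Pool.Agent.TH841.NF.D.IsShaCoc E ξ :=
    ⟨coc_of hξ, fun v => loc_of hξ (hv v), fun w => loc_of hξ (hw w)⟩
  let x : Pool.Agent.TH841.NF.D.shaCoc E := ⟨ξ, hcoc⟩
  have hx0 : 2 ^ k • x = 0 := by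
    apply Subtype.ext
    funext σ
    exact hk σ
  let q : Pool.Agent.TH841.NF.D.shaCoc E →+ Pool.Agent.TH841.NF.D.Sha E :=
    QuotientAddGroup.mk' ((Pool.Agent.TH841.SH.D.cob E).addSubgroupOf
      (Pool.Agent.TH841.NF.D.shaCoc E))
  have hq : q x = 0 := by
    refine hshak k _ ?_
    rw [← map_nsmul, hx0, map_zero]
  have hq' : x ∈ (Pool.Agent.TH841.SH.D.cob E).addSubgroupOf (Pool.Agent.TH841.NF.D.shaCoc E) :=
    (QuotientAddGroup.eq_zero_iff x).1 hq
  have hcob : Pool.Agent.TH841.SH.D.IsCob E ξ := hq'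
  obtain ⟨R, hR'⟩ : ∃ R : AlgPt E K, ∀ σ, ξ σ = act E σ R - R := hcob
  obtain ⟨y, hy⟩ : ∃ y : (E.baseChange K).toAffine.Point, incl E K y = 2 ^ k • R := by
    refine exists_of_fixed (L := K) (2 ^ k • R) fun σ => ?_
    have e1 : act E σ R = R + ξ σ := by
      rw [hR' σ]
      abel
    rw [act_nsmul, e1, ns_add, hk, add_zero]
  obtain ⟨y', hy'⟩ : ∃ y' : E.toAffine.Point, 2 ^ k • y' = (y : E.toAffine.Point) :=
    div_two h2tor k y
  refine ⟨R - incl E K y', ?_, fun σ => ?_⟩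
  · have e2 : 2 ^ k • incl E K y' = incl E K y :=
      (incl_nsmul (E := E) (L := K) (2 ^ k) y').symm.trans (congrArg (incl E K) hy')
    rw [ns_sub, e2, hy, sub_self]
  · have e5 : act E σ (incl E K y') = incl E K y' := act_incl (E := E) (L := K) σ y'
    rw [act_sub, e5, hR' σ]
    abel

end

end Pool.Agent.R425.D
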