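import Pool.Agent.R425.D.TwX

/-!
# An example: curves of genus five
-/

set_option autoImplicit false
set_option linter.all false

open IsDedekindDomain NumberField WeierstrassCurve MvPolynomial

namespace Pool.Agent.R425.D

open Pool.Agent.TH954
open Pool.Agent.Y702.G (base pts)

open scoped Classical

section me

variable {n : ℕ}

/-- multihomogeneous and even in the `y`-coordinates -/
def ME (d : Fin n → ℕ) (f : MvPolynomial (Fin n × Fin 3) ℚ) : Prop :=
  ∀ m ∈ f.support, (∀ i, ∑ j, m (i, j) = d i) ∧ ∀ i, Even (m (i, 1))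

lemma ME.mul {d e : Fin n → ℕ} {f g : MvPolynomial (Fin n × Fin 3) ℚ} (hf : ME d f) (hg : ME e g) :
    ME (d + e) (f * g) := by
  intro m hm
  obtain ⟨a, ha, b, hb, rfl⟩ := Finset.mem_add.1 (MvPolynomial.support_mul f g hm)
  refine ⟨fun i => ?_, fun i => ?_⟩
  · simp only [Finsupp.add_apply, Finset.sum_add_distrib, (hf a ha).1, (hg b hb).1, Pi.add_apply]
  · rw [Finsupp.add_apply]
    exact ((hf a ha).2 i).add ((hg b hb).2 i)

lemma ME.add {d : Fin n → ℕ} {f g : MvPolynomial (Fin n × Fin 3) ℚ} (hf : ME d f) (hg : ME d g) :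
    ME d (f + g) := by
  intro m hm
  rcases Finset.mem_union.1 (MvPolynomial.support_add hm) with h | h
  · exact hf m h
  · exact hg m h

lemma ME.const (c : ℚ) : ME (0 : Fin n → ℕ) (C c) := by
  intro m hm
  have h1 : m = 0 := by
    by_contra h
    rw [mem_support_iff, coeff_C, if_neg (fun h' => h h'.symm)] at hm
    exact hm rfl
  subst h1
  exact ⟨fun i => by simp, fun i => by simp⟩

lemma ME.neg {d : Fin n → ℕ} {f : MvPolynomial (Fin n × Fin 3) ℚ} (hf : ME d f) : ME d (-f) := by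
  intro m hm
  rw [MvPolynomial.support_neg] at hm
  exact hf m hm

lemma ME.sub {d : Fin n → ℕ} {f g : MvPolynomial (Fin n × Fin 3) ℚ} (hf : ME d f) (hg : ME d g) :
    ME d (f - g) := by
  rw [sub_eq_add_neg]
  exact hf.add hg.neg

lemma ME.cmul {d : Fin n → ℕ} {f : MvPolynomial (Fin n × Fin 3) ℚ} (c : ℚ) (hf : ME d f) :
    ME d (C c * f) := by
  have := (ME.const c).mul hf
  rwa [zero_add] at this

lemma ME.mono (i : Fin n) (j : Fin 3) (k : ℕ) (h : j ≠ 1 ∨ Even k) :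
    ME (Pi.single i k : Fin n → ℕ) (X (i, j) ^ k) := by
  intro m hm
  rw [X_pow_eq_monomial] at hm
  have hm' : m = Finsupp.single (i, j) k := by
    have := MvPolynomial.support_monomial_subset hm
    rwa [Finset.mem_singleton] at this
  subst hm'
  refine ⟨fun i' => ?_, fun i' => ?_⟩
  · by_cases hi : i' = i
    · subst hi
      rw [Finset.sum_eq_single j]
      · simp
      · intro b _ hb
        rw [Finsupp.single_apply, if_neg]
        intro h'
        exact hb (Prod.ext_iff.1 h').2.symm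
      · intro h'
        exact absurd (Finset.mem_univ _) h'
    · rw [Pi.single_apply, if_neg hi]
      refine Finset.sum_eq_zero fun b _ => ?_
      rw [Finsupp.single_apply, if_neg]
      intro h'
      exact hi (Prod.ext_iff.1 h').1.symm
  · rw [Finsupp.single_apply]
    split_ifs with h'
    · rcases h with h | h
      · exact absurd (Prod.ext_iff.1 h').2 h
      · exact h
    · exact Even.zero

lemma ME.both {d : Fin n → ℕ} {f : MvPolynomial (Fin n × Fin 3) ℚ} (hf : ME d f) :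
    EvenY f ∧ ∃ d, MultiHom d f :=
  ⟨fun m hm => (hf m hm).2, d, fun m hm => (hf m hm).1⟩

end me

section ex

/-- `Y ^ 2 - a X Z - b Z ^ 2` for the curve `X_0(11)` -/
noncomputable def qq (i : Fin 2) : MvPolynomial (Fin 2 × Fin 3) ℚ :=
  X (i, 1) ^ 2 + C 13392 * (X (i, 0) ^ 1 * X (i, 2) ^ 1) + C 1080432 * X (i, 2) ^ 2

lemma me_qq (i : Fin 2) : ME (Pi.single i 2) (qq i) := by
  unfold qq
  refine ((ME.mono i 1 2 (Or.inr even_two)).add ?_).add ?_
  · refine ME.cmul _ ?_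
    have h := (ME.mono i 0 1 (Or.inl (by decide))).mul (ME.mono i 2 1 (Or.inl (by decide)))
    rwa [← Pi.single_add] at h
  · exact ME.cmul _ (ME.mono i 2 2 (Or.inl (by decide)))

/-- the equations of the curve `x_1 x_2 = 21039` on the square of `X_0(11)` -/
noncomputable def exS : Set (MvPolynomial (Fin 2 × Fin 3) ℚ) :=
  {X (0, 0) ^ 1 * X (1, 0) ^ 1 - C 21039 * (X (0, 2) ^ 1 * X (1, 2) ^ 1),
    qq 0 * X (1, 0) ^ 1 - C 21039 * (X (0, 0) ^ 2 * X (1, 2) ^ 1),
    X (0, 0) ^ 1 * qq 1 - C 21039 * (X (0, 2) ^ 1 * X (1, 0) ^ 2),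
    qq 0 * qq 1 - C 21039 * (X (0, 0) ^ 2 * X (1, 0) ^ 2)}

lemma exS_me : ∀ f ∈ exS, EvenY f ∧ ∃ d, MultiHom d f := by
  have a := fun (i : Fin 2) (k : ℕ) => ME.mono i 0 k (Or.inl (by decide))
  have b := fun (i : Fin 2) (k : ℕ) => ME.mono i 2 k (Or.inl (by decide))
  rintro f (rfl | rfl | rfl | rfl)
  · exact (((a 0 1).mul (a 1 1)).sub (((b 0 1).mul (b 1 1)).cmul _)).both
  · exact (((me_qq 0).mul (a 1 1)).sub (((a 0 2).mul (b 1 1)).cmul _)).both
  · exact (((a 0 1).mul (me_qq 1)).sub (((b 0 1).mul (a 1 2)).cmul _)).both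
  · exact (((me_qq 0).mul (me_qq 1)).sub (((a 0 2).mul (a 1 2)).cmul _)).both

theorem ex_free : OddFree (fun _ : Fin 2 => E11s) exS := by
  intro P hP
  by_contra hcon
  push Not at hcon
  choose m hm1 hm2 using hcon
  have hq : ∀ i, P i = 0 ∨ ∃ c : ℤ, (c = 168 ∨ c = 564) ∧ crd (P i) 0 = (c : ℚ_[2]) ∧
      crd (P i) 2 = 1 := fun i => oddPts11 (P i) (m i) (hm1 i) (hm2 i)
  have h1 := hP (map (algebraMap ℚ ℚ_[2]) _) ⟨_, Or.inl rfl, rfl⟩
  have h2 := hP (map (algebraMap ℚ ℚ_[2]) _) ⟨_, Or.inr (Or.inl rfl), rfl⟩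
  have h3 := hP (map (algebraMap ℚ ℚ_[2]) _) ⟨_, Or.inr (Or.inr (Or.inl rfl)), rfl⟩
  have h4 := hP (map (algebraMap ℚ ℚ_[2]) _) ⟨_, Or.inr (Or.inr (Or.inr rfl)), rfl⟩
  simp only [qq, map_sub, map_add, map_mul, map_pow, MvPolynomial.map_X, MvPolynomial.map_C, eval_X,
    eval_C, pow_one] at h1 h2 h3 h4
  rcases hq 0 with h0 | ⟨c, hc, hc0, hc2⟩ <;> rcases hq 1 with h0' | ⟨c', hc', hc0', hc2'⟩
  · rw [h0, h0'] at h4
    simp [crd_zero] at h4
  · rw [h0, hc0', hc2'] at h2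
    simp [crd_zero] at h2
    rcases hc' with rfl | rfl <;> norm_num at h2
  · rw [h0', hc0, hc2] at h3
    simp [crd_zero] at h3
    rcases hc with rfl | rfl <;> norm_num at h3
  · rw [hc0, hc0', hc2, hc2'] at h1
    rcases hc with rfl | rfl <;> rcases hc' with rfl | rfl <;> norm_num at h1

end ex

end Pool.Agent.R425.D
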