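import Pool.Agent.R425.D.Sec
import Pool.Agent.R425.D.TwZ

/-!
# Sections over two-extensions and of twisted fibre products
-/

set_option autoImplicit false
set_option linter.all false

open IsDedekindDomain NumberField WeierstrassCurve MvPolynomial

namespace Pool.Agent.R425.D

open Pool.Agent.TH954 Pool.Agent.TH942 Pool.Agent.W620.SC
open Pool.Agent.Y702.G (base pts)

open scoped Classical

/-- No point over the 2-adic numbers has components of orders dividing two times an odd number. -/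
def TwoOddFree {n : ℕ} (W : Fin n → WeierstrassCurve ℤ) (S : Set (MvPolynomial (Fin n × Fin 3) ℚ)) :
    Prop :=
  ∀ P : (i : Fin n) → (base (W i) ℚ_[2]).toAffine.Point,
    (∀ f ∈ eqs ℚ_[2] S, eval (fun p => crd (P p.1) p.2) f = 0) →
      ∃ i, ∀ m : ℕ, Odd m → (2 * m) • P i ≠ 0

/-- All points of orders dividing two times an odd number over the 2-adic numbers are rational. -/
def TwoOddRat (W : WeierstrassCurve ℤ) : Prop :=
  ∀ (P : (base W ℚ_[2]).toAffine.Point) (m : ℕ), Odd m → (2 * m) • P = 0 →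
    ∃ y : (base W ℚ).toAffine.Point, ∀ j, crd P j = algebraMap ℚ ℚ_[2] (crd y j)

lemma two_odd_of_div {W : WeierstrassCurve ℤ} (hW : W.a₁ = 0 ∧ W.a₂ = 0 ∧ W.a₃ = 0) (hΔ : W.Δ ≠ 0)
    (P : (base W ℚ_[2]).toAffine.Point) (h : ∀ k : ℕ, ∃ z, 2 • P = 2 ^ k • z) :
    ∃ m : ℕ, Odd m ∧ (2 * m) • P = 0 := by
  obtain ⟨m, hm, h1⟩ := odd_of_div (si_base W hW.1 hW.2.1 hW.2.2)
    (disc_base W hW.1 hW.2.1 hW.2.2 hΔ) norm_two' (2 • P) h
  refine ⟨m, hm, ?_⟩
  rw [mul_comm, mul_smul]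
  exact h1

section ex

/-- no 2-torsion over the 2-adic numbers -/
lemma two11 (P : (base E11s ℚ_[2]).toAffine.Point) (h : 2 • P = 0) : P = 0 := by
  match P, h with
  | .zero, _ => rfl
  | .some X Y n, h =>
    exfalso
    have h1 : (Affine.Point.some X Y n : (base E11s ℚ_[2]).toAffine.Point) =
        - Affine.Point.some X Y n := by
      rw [two_nsmul] at h
      exact eq_neg_of_add_eq_zero_left h
    rw [Affine.Point.neg_some, Affine.Point.some.injEq] at h1
    have h2 : Y = -Y - (base E11s ℚ_[2]).a₁ * X - (base E11s ℚ_[2]).a₃ := h1.2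
    rw [si11.h1, si11.h3] at h2
    have hY : Y = 0 := by
      have h3 : 2 * Y = 0 := by linear_combination h2
      exact (mul_eq_zero.1 h3).resolve_left two_ne_zero
    have heq := si11.toShort.eqn n
    rw [a4_11, a6_11, hY] at heq
    have h5 : X ^ 3 = -((-13392 : ℚ_[2]) * X + (-1080432)) := by linear_combination -heq
    have h6 := congrArg norm h5
    rw [norm_neg, norm_pow] at h6
    rcases lt_or_ge ‖X‖ 1 with hX | hX
    · have h7 : ‖(-13392 : ℚ_[2]) * X + (-1080432)‖ = 1 / 16 := by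
        have h8 : ‖(-13392 : ℚ_[2]) * X‖ < ‖(-1080432 : ℚ_[2])‖ := by
          rw [norm_mul, na11, nb11]
          linarith
        rw [add_comm]
        rw [IsUltrametricDist.norm_add_eq_max_of_norm_ne_norm h8.ne', max_eq_left h8.le, nb11]
      rw [h7] at h6
      have h9 := half hX
      rcases h9.lt_or_eq with h10 | h10
      · have h11 := quarter h10
        have h12 : ‖X‖ ^ 3 ≤ (1 / 4) ^ 3 := pow_le_pow_left₀ (norm_nonneg _) h11 3
        rw [h6] at h12
        norm_num at h12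
      · rw [h10] at h6
        norm_num at h6
    · have h7 : ‖(-13392 : ℚ_[2]) * X + (-1080432)‖ ≤ ‖X‖ / 16 := by
        refine (IsUltrametricDist.norm_add_le_max _ _).trans (max_le ?_ ?_)
        · rw [norm_mul, na11]
          linarith
        · rw [nb11]
          linarith
      rw [← h6] at h7
      have h8 : ‖X‖ ≤ ‖X‖ ^ 3 := by
        have : ‖X‖ ^ 1 ≤ ‖X‖ ^ 3 := pow_le_pow_right₀ hX (by norm_num)
        simpa using this
      linarith

theorem twoOddRat11 : TwoOddRat E11s := by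
  intro P m hm h
  refine oddRat11 P m hm (two11 _ ?_)
  rw [← mul_smul]
  exact h

/-- without 2-torsion the two conditions agree -/
lemma twoOddFree_of {n : ℕ} {W : Fin n → WeierstrassCurve ℤ}
    (h2 : ∀ i, ∀ P : (base (W i) ℚ_[2]).toAffine.Point, 2 • P = 0 → P = 0)
    {S : Set (MvPolynomial (Fin n × Fin 3) ℚ)} (h : OddFree W S) : TwoOddFree W S := by
  intro P hP
  obtain ⟨i, hi⟩ := h P hP
  refine ⟨i, fun m hm h3 => hi m hm (h2 i _ ?_)⟩
  rw [← mul_smul]
  exact h3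

theorem ex_free2 : TwoOddFree (fun _ : Fin 2 => E11s) exS :=
  twoOddFree_of (fun _ => two11) ex_free

end ex

section main

variable {n : ℕ} {W : Fin n → WeierstrassCurve ℤ}

/-- **Sections of twisted fibre products.** -/
theorem thmS2 (hW : ∀ i, (W i).a₁ = 0 ∧ (W i).a₂ = 0 ∧ (W i).a₃ = 0) (hΔ : ∀ i, (W i).Δ ≠ 0)
    (hT : ∀ i, Triv (W i)) (S : Set (MvPolynomial (Fin n × Fin 3) ℚ))
    (hS : ∀ f ∈ S, EvenY f ∧ ∃ d, MultiHom d f) (hno : TwoOddFree W S)
    (T : Fin n → Finset ℕ) (hA : ∀ i, Allowed (W i) (T i))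
    {F Ω M B : Type} [Field F] [Field Ω] [Field M] [Field B] [Algebra ℚ F] [Algebra F Ω]
    [Algebra ℚ Ω] [IsScalarTower ℚ F Ω] [Algebra F M] [Algebra ℚ M] [IsScalarTower ℚ F M]
    [Algebra ℚ B] [IsAlgClosure F Ω] [IsAlgClosure ℚ B]
    (U : Set (ValuationSubring F)) (hU : ∀ O ∈ U, ∀ c : ℚ, algebraMap ℚ F c ∈ O)
    (e : M →ₐ[F] Ω) (he : unramified F Ω U ≤ e.fieldRange)
    (P : (i : Fin n) →
      ((base (tws (W i) (Pool.Agent.Y18.BSD.disc (T i))) ℚ).baseChange F).toAffine.Point)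
    (hP : OnX {g | ∃ f ∈ S, g = twp (fun i => Pool.Agent.Y18.BSD.disc (T i)) f}
      (fun i => crd (P i))) :
    ¬ ∃ s : GalSection ℚ F M B, ∀ v : HeightOneSpectrum (𝓞 ℚ),
      s.GeometricOver (v.adicCompletion ℚ) (AlgebraicClosure (v.adicCompletion ℚ)) := by
  rintro ⟨s, hs⟩
  choose pl hpl using hs
  have hG := fun i => tws_good (hW i) (hΔ i) (hT i) (hA i)
  set D : Fin n → ℤ := fun i => Pool.Agent.Y18.BSD.disc (T i) with hDdef
  have hD0 : ∀ i, D i ≠ 0 := fun i =>
    Pool.Agent.R901.EC.disc_ne fun q hq => ((hA i).adm q hq).1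
  have hsq : ∀ i, ∃ δ₂ : ℚ_[2], δ₂ ^ 2 = ((D i : ℤ) : ℚ_[2]) := by
    intro i
    obtain ⟨K, _, _, δ, hδ, -, hK⟩ := tw_field (hΔ i) (hA i)
    exact hK.sqrt (fun _ => hΔ i) δ _ hδ
  choose δ hδ using hsq
  have h0 : ∀ i, δ i ≠ 0 := by
    intro i h
    have h1 := hδ i
    rw [h, zero_pow two_ne_zero] at h1
    exact hD0 i (by exact_mod_cast h1.symm)
  have hd : ∀ i, (base (W i) ℚ_[2]).Δ ≠ 0 := by
    intro i
    rw [WeierstrassCurve.map_Δ]
    simpa using hΔ i
  have hSm : ∀ g ∈ {g | ∃ f ∈ S, g = twp D f}, ∃ d, MultiHom d g := by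
    rintro g ⟨f, hf, rfl⟩
    obtain ⟨-, d, hd⟩ := hS f hf
    refine ⟨d, fun m hm => hd m ?_⟩
    unfold twp at hm
    obtain ⟨m', hm', h2⟩ := Finset.mem_biUnion.1 (MvPolynomial.support_sum hm)
    have h3 := MvPolynomial.support_monomial_subset h2
    rw [Finset.mem_singleton] at h3
    rw [h3]
    exact hm'
  obtain ⟨Pv, hX, -, hdiv⟩ := sec_div (fun i => base (tws (W i) (D i)) ℚ)
    (fun i => ⟨by show ((0 : ℤ) : ℚ) = 0; simp, by show ((0 : ℤ) : ℚ) = 0; simp,
      by show ((0 : ℤ) : ℚ) = 0; simp⟩)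
    (fun i => by
      rw [WeierstrassCurve.map_Δ, tws_disc (hW i)]
      simpa using ⟨hΔ i, hD0 i⟩)
    hG {g | ∃ f ∈ S, g = twp D f} hSm
    U hU e he P hP s pl hpl
  let e0 := Padic.adicCompletionEquiv (𝓞 ℚ) ⟨2, Nat.prime_two⟩
  set v := (Rat.HeightOneSpectrum.primesEquiv (R := 𝓞 ℚ)).symm ⟨2, Nat.prime_two⟩ with hv
  let g : v.adicCompletion ℚ →+* ℚ_[2] :=
    (e0.toRingEquiv.symm : v.adicCompletion ℚ ≃+* ℚ_[2]).toRingHom
  have hφ : ∀ i, ∃ φ : ((base (tws (W i) (D i)) ℚ).baseChange (v.adicCompletion ℚ)).toAffine.Point →+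
      (base (tws (W i) (D i)) ℚ_[2]).toAffine.Point, ∀ P j, crd (φ P) j = g (crd P j) := by
    intro i
    refine transport g _ _ ?_
    show ((base (tws (W i) (D i)) ℚ).map (algebraMap ℚ (v.adicCompletion ℚ))).map g = _
    rw [base_map, base_map]
  choose φ hφ using hφ
  let ψ : (i : Fin n) → (base (tws (W i) (D i)) ℚ_[2]).toAffine.Point ≃+
      (base (W i) ℚ_[2]).toAffine.Point := fun i =>
    ((tws_vr (hW i) (hδ i) (h0 i)).equiv (hd i)).symm
  obtain ⟨i, hi⟩ := hno (fun i => ψ i (φ i (Pv v i))) (by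
    rintro f ⟨h, hh, rfl⟩
    refine twist_eq hW D δ hδ h0 hd (hS h hh).1 (hS h hh).2 (fun i => ψ i (φ i (Pv v i))) ?_
    have h1 := hX v (twp D h) ⟨h, hh, rfl⟩
    have h2 := congrArg g h1
    rw [map_zero, aeval_def, MvPolynomial.hom_eval₂] at h2
    rw [aeval_def]
    refine Eq.trans ?_ h2
    have e1 : (g.comp (algebraMap ℚ (v.adicCompletion ℚ))) = algebraMap ℚ ℚ_[2] :=
      Subsingleton.elim _ _
    rw [e1]
    congr 1
    funext p
    show crd ((tws_vr (hW p.1) (hδ p.1) (h0 p.1)).equiv (hd p.1)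
      (((tws_vr (hW p.1) (hδ p.1) (h0 p.1)).equiv (hd p.1)).symm (φ p.1 (Pv v p.1)))) p.2 = _
    rw [AddEquiv.apply_symm_apply]
    exact hφ p.1 (Pv v p.1) p.2)
  obtain ⟨m, hm, h3⟩ := two_odd_of_div (hW i) (hΔ i) (ψ i (φ i (Pv v i))) (fun k => by
    obtain ⟨z, hz⟩ := hdiv v i k
    refine ⟨ψ i (φ i z), ?_⟩
    rw [← map_nsmul, ← map_nsmul, hz, map_nsmul, map_nsmul])
  exact hi m hm h3

variable {K : Type} [Field K] [NumberField K]

/-- **Sections over two-extensions.** -/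
theorem thmS1 (hW : ∀ i, (W i).a₁ = 0 ∧ (W i).a₂ = 0 ∧ (W i).a₃ = 0) (hΔ : ∀ i, (W i).Δ ≠ 0)
    (hT : ∀ i, Triv (W i)) (hR : ∀ i, TwoOddRat (W i)) (hK : TwoExt W K)
    (S : Set (MvPolynomial (Fin n × Fin 3) K)) (hS : ∀ f ∈ S, ∃ d, MultiHom d f)
    {F Ω M B : Type} [Field F] [Field Ω] [Field M] [Field B] [Algebra K F] [Algebra F Ω]
    [Algebra K Ω] [IsScalarTower K F Ω] [Algebra F M] [Algebra K M] [IsScalarTower K F M]
    [Algebra K B] [IsAlgClosure F Ω] [IsAlgClosure K B]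
    (U : Set (ValuationSubring F)) (hU : ∀ O ∈ U, ∀ c : K, algebraMap K F c ∈ O)
    (e : M →ₐ[F] Ω) (he : unramified F Ω U ≤ e.fieldRange)
    (P : (i : Fin n) → ((base (W i) K).baseChange F).toAffine.Point)
    (hP : OnX S (fun i => crd (P i))) (s : GalSection K F M B)
    (p : ∀ v : HeightOneSpectrum (𝓞 K), Plc K M (AlgebraicClosure (v.adicCompletion K)))
    (hp : ∀ v, s.GivenBy (v.adicCompletion K) (p v))
    (v : HeightOneSpectrum (𝓞 K)) (hv : ((2 : ℕ) : 𝓞 K) ∈ v.asIdeal) :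
    ∃ y : (i : Fin n) → (base (W i) K).toAffine.Point,
      (∀ f ∈ S, eval (fun p => crd (y p.1) p.2) f = 0) ∧
      ∀ i, (p v).Spec (fun j => algebraMap F M (crd (P i) j))
        (fun j => algebraMap K (AlgebraicClosure (v.adicCompletion K)) (crd (y i) j)) := by
  have : CharZero (v.adicCompletion K) :=
    charZero_of_injective_algebraMap (algebraMap K (v.adicCompletion K)).injective
  obtain ⟨Pv, hX, hspec, hdiv⟩ := sec_div (fun i => base (W i) K)
    (fun i => ⟨by show ((W i).a₁ : K) = 0; rw [(hW i).1, Int.cast_zero],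
      by show ((W i).a₂ : K) = 0; rw [(hW i).2.1, Int.cast_zero],
      by show ((W i).a₃ : K) = 0; rw [(hW i).2.2, Int.cast_zero]⟩)
    (fun i => by
      rw [WeierstrassCurve.map_Δ]
      simpa using hΔ i)
    (fun i => ⟨(hK.sel hΔ hT i).1, (hK.sel hΔ hT i).2.1, (hK.sel hΔ hT i).2.2⟩)
    S hS U hU e he P hP s p hp
  obtain ⟨hv1, hv2⟩ := hK.two hΔ v hv
  obtain ⟨e⟩ := split_iso v hv1 hv2
  let g : v.adicCompletion K →+* ℚ_[2] := e.symm.toRingHom
  have hg : Function.Injective g := e.symm.injective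
  have hφ : ∀ i, ∃ φ : ((base (W i) K).baseChange (v.adicCompletion K)).toAffine.Point →+
      (base (W i) ℚ_[2]).toAffine.Point, ∀ P j, crd (φ P) j = g (crd P j) := by
    intro i
    refine transport g _ _ ?_
    show ((base (W i) K).map (algebraMap K (v.adicCompletion K))).map g = _
    rw [base_map, base_map]
  choose φ hφ using hφ
  have hodd : ∀ i, ∃ m : ℕ, Odd m ∧ (2 * m) • φ i (Pv v i) = 0 := fun i =>
    two_odd_of_div (hW i) (hΔ i) _ (fun k => by
      obtain ⟨z, hz⟩ := hdiv v i k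
      exact ⟨φ i z, by rw [← map_nsmul, hz, map_nsmul]⟩)
  choose m hm1 hm2 using hodd
  choose y hy using fun i => hR i (φ i (Pv v i)) (m i) (hm1 i) (hm2 i)
  have hψ : ∀ i, ∃ ψ : (base (W i) ℚ).toAffine.Point → (base (W i) K).toAffine.Point,
      ∀ P j, crd (ψ P) j = algebraMap ℚ K (crd P j) := fun i =>
    transport' (algebraMap ℚ K) _ _ (base_map (W i) _)
  choose ψ hψ using hψ
  have hcrd : ∀ i j, crd (Pv v i) j = algebraMap K (v.adicCompletion K) (crd (ψ i (y i)) j) := by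
    intro i j
    apply hg
    rw [← hφ, hy, hψ]
    have e1 : (g.comp ((algebraMap K (v.adicCompletion K)).comp (algebraMap ℚ K))) =
        algebraMap ℚ ℚ_[2] := Subsingleton.elim _ _
    rw [← e1]
    rfl
  refine ⟨fun i => ψ i (y i), fun f hf => ?_, fun i => ?_⟩
  · have h1 := hX v f hf
    rw [aeval_def] at h1
    have e2 : (fun p : Fin n × Fin 3 => crd (Pv v p.1) p.2) =
        fun p => algebraMap K (v.adicCompletion K) (crd (ψ p.1 (y p.1)) p.2) := by
      funext p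
      exact hcrd p.1 p.2
    rw [e2] at h1
    have h2 : eval₂ (algebraMap K (v.adicCompletion K))
        (fun p => algebraMap K (v.adicCompletion K) (crd (ψ p.1 (y p.1)) p.2)) f =
        algebraMap K (v.adicCompletion K) (eval (fun p => crd (ψ p.1 (y p.1)) p.2) f) :=
      (eval₂_comp_left (algebraMap K (v.adicCompletion K)) (RingHom.id K) _ f).symm
    rw [h2, map_eq_zero] at h1
    exact h1
  · have h1 := hspec v i
    have e2 : (fun j => algebraMap (v.adicCompletion K) (AlgebraicClosure (v.adicCompletion K))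
        (crd (Pv v i) j)) = fun j => algebraMap K (AlgebraicClosure (v.adicCompletion K))
        (crd (ψ i (y i)) j) := by
      funext j
      rw [hcrd i j, ← IsScalarTower.algebraMap_apply]
    rw [e2] at h1
    exact h1

end main

end Pool.Agent.R425.D
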