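import Pool.Agent.TH954.NB
import Pool.Agent.TH954.Near
import Pool.Agent.TH954.LocKey

/-!
# Compactness of the points over the 2-adic numbers, and infinitely divisible points
-/

set_option autoImplicit false
set_option linter.all false

open WeierstrassCurve Filter Topology

namespace Pool.Agent.R425.D

open Pool.Agent.TH954

open scoped Classical

section

variable {L : Type} [NormedField L] [IsUltrametricDist L] [ProperSpace L] {W : WeierstrassCurve L}

lemma nc_le (hW : SI W) (T : W.toAffine.Point) (j : Fin 3) : ‖nc T j‖ ≤ 1 := by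
  match T with
  | .zero =>
    fin_cases j <;> simp [nc]
  | .some x y h =>
    by_cases hx : ‖x‖ ≤ 1
    · have hy := hW.norm_y_le_one h hx
      rw [nc_int hx]
      fin_cases j
      · exact hx
      · exact hy
      · simp
    · rw [not_le] at hx
      have hy0 := hW.norm_y_pos h hx
      have hy2 := hW.norm_z h hx
      rw [nc_non hx]
      fin_cases j
      · show ‖x / y‖ ≤ 1
        by_contra hc
        rw [not_le] at hc
        have h1 : 1 ≤ ‖x / y‖ ^ 2 := one_le_pow₀ hc.le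
        nlinarith
      · simp
      · exact (hW.norm_w_lt h hx).le

lemma nonsing (hW : SI W) (hD : 4 * W.a₄ ^ 3 + 27 * W.a₆ ^ 2 ≠ 0) (h2 : (2 : L) ≠ 0) {x y : L}
    (h : y ^ 2 = x ^ 3 + W.a₄ * x + W.a₆) : W.toAffine.Nonsingular x y := by
  have h1 := hW.toShort.h1
  have h2' := hW.toShort.h2
  have h3 := hW.toShort.h3
  refine (Affine.equation_iff_nonsingular_of_Δ_ne_zero ?_).1 ?_
  · have : W.toAffine.Δ = -16 * (4 * W.a₄ ^ 3 + 27 * W.a₆ ^ 2) := by
      simp only [WeierstrassCurve.Δ, WeierstrassCurve.b₂, WeierstrassCurve.b₄, WeierstrassCurve.b₆,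
        WeierstrassCurve.b₈, h1, h2', h3]
      ring
    rw [this]
    refine mul_ne_zero ?_ hD
    have : (-16 : L) = -(2 ^ 4) := by norm_num
    rw [this]
    exact neg_ne_zero.2 (pow_ne_zero 4 h2)
  · rw [Affine.equation_iff, h1, h2', h3]
    linear_combination h

lemma nc_hom (hW : SI W) (T : W.toAffine.Point) :
    nc T 1 ^ 2 * nc T 2 = nc T 0 ^ 3 + W.a₄ * nc T 0 * nc T 2 ^ 2 + W.a₆ * nc T 2 ^ 3 := by
  match T with
  | .zero => simp [nc]
  | .some x y h =>
    have he := hW.toShort.eqn h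
    by_cases hx : ‖x‖ ≤ 1
    · rw [nc_int hx]
      show y ^ 2 * 1 = x ^ 3 + W.a₄ * x * 1 ^ 2 + W.a₆ * 1 ^ 3
      linear_combination he
    · rw [not_le] at hx
      have hy0 : y ≠ 0 := norm_pos_iff.mp (hW.norm_y_pos h hx)
      rw [nc_non hx]
      show 1 ^ 2 * (1 / y) = (x / y) ^ 3 + W.a₄ * (x / y) * (1 / y) ^ 2 + W.a₆ * (1 / y) ^ 3
      field_simp
      linear_combination he

/-- limits of points -/
theorem lim_point (hW : SI W) (hD : 4 * W.a₄ ^ 3 + 27 * W.a₆ ^ 2 ≠ 0) (h2 : (2 : L) ≠ 0)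
    (U : Ultrafilter ℕ) (T : ℕ → W.toAffine.Point) :
    ∃ P : W.toAffine.Point, ∀ j, Tendsto (fun k => nc (T k) j) U (𝓝 (nc P j)) := by
  have hc : ∀ j, ∃ c : L, Tendsto (fun k => nc (T k) j) U (𝓝 c) := by
    intro j
    obtain ⟨c, -, hc⟩ := (isCompact_closedBall (0 : L) 1).ultrafilter_le_nhds
      (U.map (fun k => nc (T k) j)) (by
        rw [le_principal_iff]
        refine Filter.mem_map.2 (Filter.univ_mem' fun k => ?_)
        show nc (T k) j ∈ Metric.closedBall (0 : L) 1
        rw [mem_closedBall_zero_iff]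
        exact nc_le hW (T k) j)
    exact ⟨c, hc⟩
  choose c hc using hc
  have hle : ∀ j, ‖c j‖ ≤ 1 := fun j =>
    le_of_tendsto (hc j).norm (Filter.Eventually.of_forall fun k => nc_le hW (T k) j)
  have heq : c 1 ^ 2 * c 2 = c 0 ^ 3 + W.a₄ * c 0 * c 2 ^ 2 + W.a₆ * c 2 ^ 3 := by
    have l1 : Tendsto (fun k => nc (T k) 1 ^ 2 * nc (T k) 2) U (𝓝 (c 1 ^ 2 * c 2)) :=
      ((hc 1).pow 2).mul (hc 2)
    have l2 : Tendsto (fun k => nc (T k) 0 ^ 3 + W.a₄ * nc (T k) 0 * nc (T k) 2 ^ 2 +
        W.a₆ * nc (T k) 2 ^ 3) U (𝓝 (c 0 ^ 3 + W.a₄ * c 0 * c 2 ^ 2 + W.a₆ * c 2 ^ 3)) :=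
      (((hc 0).pow 3).add ((tendsto_const_nhds.mul (hc 0)).mul ((hc 2).pow 2))).add
        (tendsto_const_nhds.mul ((hc 2).pow 3))
    refine tendsto_nhds_unique l1 (l2.congr fun k => ?_)
    exact (nc_hom hW (T k)).symm
  have hcase : (∀ᶠ k in U, nc (T k) 2 = 1) ∨ (∀ᶠ k in U, nc (T k) 1 = 1 ∧ ‖nc (T k) 2‖ < 1) := by
    rw [← Ultrafilter.eventually_or]
    exact Filter.Eventually.of_forall fun k => nc_chart hW (T k)
  rcases hcase with h | h
  · have hc2 : c 2 = 1 := tendsto_nhds_unique (hc 2)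
      (tendsto_const_nhds.congr' (h.mono fun k hk => hk.symm))
    have he : c 1 ^ 2 = c 0 ^ 3 + W.a₄ * c 0 + W.a₆ := by
      rw [hc2] at heq
      linear_combination heq
    refine ⟨Affine.Point.some (c 0) (c 1) (nonsing hW hD h2 he), fun j => ?_⟩
    rw [nc_int (hle 0)]
    fin_cases j
    · exact hc 0
    · exact hc 1
    · have := hc 2
      rw [hc2] at this
      exact this
  · have hc1 : c 1 = 1 := tendsto_nhds_unique (hc 1)
      (tendsto_const_nhds.congr' (h.mono fun k hk => hk.1.symm))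
    have hlt : ‖c 2‖ < 1 := by
      have hcl : IsClosed (Metric.ball (0 : L) 1) := IsUltrametricDist.isClosed_ball 0 1
      have h3 : c 2 ∈ Metric.ball (0 : L) 1 :=
        hcl.mem_of_tendsto (hc 2) (h.mono fun k hk => by
          rw [mem_ball_zero_iff]
          exact hk.2)
      rwa [mem_ball_zero_iff] at h3
    by_cases h20 : c 2 = 0
    · have h00 : c 0 = 0 := by
        rw [h20] at heq
        have : c 0 ^ 3 = 0 := by linear_combination -heq
        exact pow_eq_zero_iff (by norm_num) |>.1 this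
      refine ⟨0, fun j => ?_⟩
      rw [nc_zero]
      fin_cases j
      · have := hc 0
        rw [h00] at this
        exact this
      · have := hc 1
        rw [hc1] at this
        exact this
      · have := hc 2
        rw [h20] at this
        exact this
    · have he : (1 / c 2) ^ 2 = (c 0 / c 2) ^ 3 + W.a₄ * (c 0 / c 2) + W.a₆ := by
        rw [hc1] at heq
        field_simp
        linear_combination heq
      have hx : 1 < ‖c 0 / c 2‖ := by
        rw [norm_div, one_lt_div (norm_pos_iff.2 h20)]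
        by_contra hcon
        rw [not_lt] at hcon
        have h4 : 0 < ‖c 2‖ := norm_pos_iff.2 h20
        have hlt0 : ‖c 0‖ < 1 := lt_of_le_of_lt hcon hlt
        have h5 : c 2 = c 2 * (0 : L) + (c 0 ^ 3 + W.a₄ * c 0 * c 2 ^ 2 + W.a₆ * c 2 ^ 3) := by
          rw [hc1] at heq
          linear_combination heq
        have b1 : ‖c 0 ^ 3‖ ≤ ‖c 2‖ * ‖c 2‖ := by
          rw [norm_pow]
          have : ‖c 0‖ ^ 3 = ‖c 0‖ * (‖c 0‖ * ‖c 0‖) := by ring
          rw [this]
          have i1 : ‖c 0‖ * ‖c 0‖ ≤ ‖c 2‖ * ‖c 2‖ := mul_le_mul hcon hcon (norm_nonneg _) h4.le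
          nlinarith [norm_nonneg (c 0), mul_nonneg (norm_nonneg (c 0)) (norm_nonneg (c 0))]
        have b2 : ‖W.a₄ * c 0 * c 2 ^ 2‖ ≤ ‖c 2‖ * ‖c 2‖ := by
          rw [norm_mul, norm_mul, norm_pow]
          have i1 : ‖W.a₄‖ * ‖c 0‖ ≤ 1 := by
            have := mul_le_mul hW.ha hlt0.le (norm_nonneg _) zero_le_one
            linarith
          nlinarith [norm_nonneg (c 0), mul_nonneg h4.le h4.le]
        have b3 : ‖W.a₆ * c 2 ^ 3‖ ≤ ‖c 2‖ * ‖c 2‖ := by
          rw [norm_mul, norm_pow]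
          have i1 : ‖W.a₆‖ * ‖c 2‖ ≤ 1 := by
            have := mul_le_mul hW.hb hlt.le (norm_nonneg _) zero_le_one
            linarith
          nlinarith [norm_nonneg (c 0), mul_nonneg h4.le h4.le]
        have b4 : ‖c 2‖ ≤ ‖c 2‖ * ‖c 2‖ := by
          conv_lhs => rw [h5, mul_zero, zero_add]
          exact uadd (uadd b1 b2) b3
        nlinarith
      refine ⟨Affine.Point.some (c 0 / c 2) (1 / c 2) (nonsing hW hD h2 he), fun j => ?_⟩
      rw [nc_non hx]
      have e0 : c 0 / c 2 / (1 / c 2) = c 0 := by field_simp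
      have e2 : 1 / (1 / c 2) = c 2 := by rw [one_div_one_div]
      rw [e0, e2]
      fin_cases j
      · exact hc 0
      · have := hc 1
        rw [hc1] at this
        exact this
      · exact hc 2

end

end Pool.Agent.R425.D
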