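import Pool.Agent.R425.D.Cpt
import Pool.Agent.TH954.Poly

/-!
# Points over the 2-adic numbers which are divisible by high powers of two
-/

set_option autoImplicit false
set_option linter.all false

open WeierstrassCurve Filter Topology MvPolynomial

namespace Pool.Agent.R425.D

open Pool.Agent.TH954

open scoped Classical

section

variable {L : Type} [NormedField L] [IsUltrametricDist L] [ProperSpace L] {W : WeierstrassCurve L}

/-- the points near the origin -/
noncomputable def nb (hW : SI W) (h2 : (2 : L) ≠ 0) (R : ℝ) (hR : 1 < R) :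
    AddSubgroup W.toAffine.Point where
  carrier := {T | Big R T}
  zero_mem' := big_zero R
  add_mem' := fun ha hb => hW.big_add h2 hR ha hb
  neg_mem' := fun ha => hW.big_neg ha

/-- the group of the points modulo a neighbourhood of the origin is finite -/
lemma finite_quot (hW : SI W) (hD : 4 * W.a₄ ^ 3 + 27 * W.a₆ ^ 2 ≠ 0) (h2 : (2 : L) ≠ 0) (R : ℝ)
    (hR : 1 < R) : Finite (W.toAffine.Point ⧸ nb hW h2 R hR) := by
  by_contra hinf
  rw [not_finite_iff_infinite] at hinf
  let g : ℕ → W.toAffine.Point ⧸ nb hW h2 R hR := Infinite.natEmbedding _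
  have hg : Function.Injective g := (Infinite.natEmbedding _).injective
  choose T hT using fun k => QuotientAddGroup.mk_surjective (g k)
  obtain ⟨P, hP⟩ := lim_point hW hD h2 (hyperfilter ℕ) T
  obtain ⟨d, hd0, -, hd⟩ := hW.exists_near h2 hD hR
  have h1 : ∀ᶠ k in (hyperfilter ℕ : Filter ℕ), ∀ j, ‖nc (T k) j - nc P j‖ < d := by
    rw [eventually_all]
    intro j
    have := (hP j).sub (tendsto_const_nhds (x := nc P j))
    rw [sub_self] at this
    have h3 := this.norm
    rw [norm_zero] at h3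
    exact h3.eventually_lt_const hd0
  have h2' : ∀ᶠ k in (hyperfilter ℕ : Filter ℕ), T k - P ∈ nb hW h2 R hR :=
    h1.mono fun k hk => hd _ _ hk
  have hle : (hyperfilter ℕ : Filter ℕ) ≤ cofinite := hyperfilter_le_cofinite
  obtain ⟨k, hk⟩ := h2'.exists
  have h3 : ∀ᶠ k' in (hyperfilter ℕ : Filter ℕ), k' ≠ k :=
    hle (Set.Finite.compl_mem_cofinite (Set.finite_singleton k))
  obtain ⟨k', hk'1, hk'2⟩ := (h2'.and h3).exists
  apply hk'2
  apply hg
  rw [← hT, ← hT]
  rw [QuotientAddGroup.eq]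
  have : -T k' + T k = (T k - P) - (T k' - P) := by abel
  rw [this]
  exact AddSubgroup.sub_mem _ hk hk'1

lemma exists_expo' (hW : SI W) (hD : 4 * W.a₄ ^ 3 + 27 * W.a₆ ^ 2 ≠ 0) (h2 : (2 : L) ≠ 0) (R : ℝ)
    (hR : 1 < R) : ∃ N : ℕ, 0 < N ∧ ∀ T : W.toAffine.Point, Big R (N • T) := by
  have := finite_quot hW hD h2 R hR
  refine ⟨Nat.card (W.toAffine.Point ⧸ nb hW h2 R hR), Nat.card_pos, fun T => ?_⟩
  have h1 : Nat.card (W.toAffine.Point ⧸ nb hW h2 R hR) •
      (QuotientAddGroup.mk T : W.toAffine.Point ⧸ nb hW h2 R hR) = 0 := card_nsmul_eq_zero'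
  rw [← QuotientAddGroup.mk_nsmul, QuotientAddGroup.eq_zero_iff] at h1
  exact h1

/-- the multiplication by two is contracting near the origin -/
lemma big_two (hW : SI W) (h2 : ‖(2 : L)‖ = 1 / 2) {R : ℝ} (hR : 1 < R) {T : W.toAffine.Point}
    (hT : Big R T) : Big (4 * R) (2 • T) := by
  have h20 : (2 : L) ≠ 0 := by
    intro h
    rw [h, norm_zero] at h2
    norm_num at h2
  have h3 : ‖(3 : L)‖ = 1 := by
    have e : (3 : L) = 1 + 2 := by norm_num
    rw [e, uadd_eq]
    · exact norm_one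
    · rw [norm_one, h2]; norm_num
  match T with
  | .zero =>
    have : (2 • Affine.Point.zero : W.toAffine.Point) = 0 := smul_zero 2
    rw [this]
    exact big_zero _
  | .some x y n =>
    have hx := big_some.mp hT
    have hx1 : 1 < ‖x‖ := hR.trans_le hx
    generalize hS : 2 • Affine.Point.some x y n = Sp
    match Sp with
    | .zero => exact big_zero _
    | .some X Y n' =>
      rw [two_nsmul] at hS
      obtain ⟨-, hy0, hX⟩ := hW.toShort.add_eq hS
      rw [big_some]
      have hy2 := hW.norm_y_eq n hx1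
      have hnum : ‖3 * x ^ 2 + W.a₄‖ = ‖x‖ ^ 2 := by
        have e1 : ‖3 * x ^ 2‖ = ‖x‖ ^ 2 := by rw [norm_mul, norm_pow, h3, one_mul]
        rw [uadd_eq, e1]
        rw [e1]
        exact lt_of_le_of_lt hW.ha (one_lt_pow₀ hx1 (by norm_num))
      have hl : ‖((3 * x ^ 2 + W.a₄) / (2 * y)) ^ 2‖ = 4 * ‖x‖ := by
        rw [norm_pow, norm_div, norm_mul, hnum, h2, div_pow, mul_pow, hy2]
        have : ‖x‖ ≠ 0 := by positivity
        field_simp
        norm_num
      have h2x : ‖2 * x‖ < 4 * ‖x‖ := by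
        rw [norm_mul, h2]
        linarith
      have hfin : ‖X‖ = 4 * ‖x‖ := by
        rw [hX, usub_eq]
        · exact hl
        · rw [hl]
          exact h2x
      rw [hfin]
      linarith

lemma big_pow (hW : SI W) (h2 : ‖(2 : L)‖ = 1 / 2) {R : ℝ} (hR : 1 < R) {T : W.toAffine.Point}
    (hT : Big R T) : ∀ j : ℕ, Big (4 ^ j * R) (2 ^ j • T)
  | 0 => by
    rw [pow_zero, one_mul, pow_zero, one_nsmul]
    exact hT
  | j + 1 => by
    have h1 := big_pow hW h2 hR hT j
    have h3 : 1 < 4 ^ j * R := by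
      have : (1 : ℝ) ≤ 4 ^ j := one_le_pow₀ (by norm_num)
      nlinarith
    have h4 := big_two hW h2 h3 h1
    rw [pow_succ, pow_succ, mul_comm (4 ^ j) 4, mul_assoc, mul_comm (2 ^ j) 2, mul_smul]
    exact h4

lemma zero_of_big {T : W.toAffine.Point} (h : ∀ R : ℝ, 1 < R → Big R T) : T = 0 := by
  match T with
  | .zero => rfl
  | .some x y n =>
    exfalso
    have h1 := big_some.mp (h (‖x‖ + 2) (by linarith [norm_nonneg x]))
    linarith

/-- a form vanishes at the coordinates of points iff it vanishes at the normalised coordinates -/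
lemma eval_nc {n : ℕ} {V : Fin n → WeierstrassCurve L} (hV : ∀ i, SI (V i)) {d : Fin n → ℕ}
    {f : MvPolynomial (Fin n × Fin 3) L} (hf : MultiHom d f) (P : (i : Fin n) → (V i).toAffine.Point) :
    eval (fun p => crd (P p.1) p.2) f = 0 ↔ eval (fun p => nc (P p.1) p.2) f = 0 := by
  choose s hs0 hs1 hs2 using fun i => crd_eq_smul_nc (hV i) (P i)
  have e : (fun p : Fin n × Fin 3 => crd (P p.1) p.2) = fun p => s p.1 * nc (P p.1) p.2 := by
    funext p
    exact hs1 p.1 p.2
  rw [e, hf.eval_smul s (fun p => nc (P p.1) p.2), mul_eq_zero, or_iff_right]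
  exact Finset.prod_ne_zero_iff.2 fun i _ => pow_ne_zero _ (hs0 i)

/-- If a closed set of points contains points divisible by all powers of two, then it contains a
point of odd order. -/
theorem loc_main (h2 : ‖(2 : L)‖ = 1 / 2) {n : ℕ} (V : Fin n → WeierstrassCurve L)
    (hV : ∀ i, SI (V i)) (hD : ∀ i, 4 * (V i).a₄ ^ 3 + 27 * (V i).a₆ ^ 2 ≠ 0)
    (S : Set (MvPolynomial (Fin n × Fin 3) L)) (hS : ∀ f ∈ S, ∃ d, MultiHom d f)
    (hno : ∀ P : (i : Fin n) → (V i).toAffine.Point, (∀ f ∈ S, eval (fun p => crd (P p.1) p.2) f = 0) →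
      ∃ i, ∀ m : ℕ, Odd m → m • P i ≠ 0) :
    ∃ k : ℕ, ∀ P : (i : Fin n) → (V i).toAffine.Point,
      (∀ f ∈ S, eval (fun p => crd (P p.1) p.2) f = 0) →
      ∃ i, ∀ Q : (V i).toAffine.Point, P i ≠ 2 ^ k • Q := by
  have h20 : (2 : L) ≠ 0 := by
    intro h
    rw [h, norm_zero] at h2
    norm_num at h2
  by_contra hcon
  push Not at hcon
  choose P hPS Q hQ using hcon
  have hexp : ∀ i, ∃ N : ℕ, 0 < N ∧ ∀ T : (V i).toAffine.Point, Big 2 (N • T) := fun i =>
    exists_expo' (hV i) (hD i) h20 2 (by norm_num)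
  choose N hN0 hN using hexp
  have hlim : ∀ i, ∃ Pi : (V i).toAffine.Point, ∀ j,
      Tendsto (fun k => nc (P k i) j) (hyperfilter ℕ) (𝓝 (nc Pi j)) := fun i =>
    lim_point (hV i) (hD i) h20 (hyperfilter ℕ) (fun k => P k i)
  choose P' hP' using hlim
  obtain ⟨i, hi⟩ := hno P' (by
    intro f hf
    obtain ⟨d, hd⟩ := hS f hf
    rw [eval_nc hV hd]
    have h1 : Tendsto (fun k => eval (fun p : Fin n × Fin 3 => nc (P k p.1) p.2) f) (hyperfilter ℕ)
        (𝓝 (eval (fun p => nc (P' p.1) p.2) f)) := by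
      have hcont : Continuous fun u : Fin n × Fin 3 → L => eval u f := MvPolynomial.continuous_eval f
      refine (hcont.tendsto _).comp ?_
      rw [tendsto_pi_nhds]
      intro p
      exact hP' p.1 p.2
    refine tendsto_nhds_unique h1 (tendsto_const_nhds.congr fun k => ?_)
    exact ((eval_nc hV hd (P k)).1 (hPS k f hf)).symm)
  obtain ⟨a, m, hm, hNam⟩ := Nat.exists_eq_two_pow_mul_odd (hN0 i).ne'
  refine hi m hm (zero_of_big fun R hR => ?_)
  obtain ⟨d, hd0, -, hd⟩ := (hV i).exists_near h20 (hD i) hR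
  have h1 : ∀ᶠ k in (hyperfilter ℕ : Filter ℕ), ∀ j, ‖nc (P k i) j - nc (P' i) j‖ < d := by
    rw [eventually_all]
    intro j
    have := (hP' i j).sub (tendsto_const_nhds (x := nc (P' i) j))
    rw [sub_self] at this
    have h3 := this.norm
    rw [norm_zero] at h3
    exact h3.eventually_lt_const hd0
  obtain ⟨r, hr⟩ := pow_unbounded_of_one_lt R (by norm_num : (1 : ℝ) < 4)
  have hge : ∀ᶠ k in (hyperfilter ℕ : Filter ℕ), a + r ≤ k := by
    have hle : (hyperfilter ℕ : Filter ℕ) ≤ cofinite := hyperfilter_le_cofinite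
    rw [Nat.cofinite_eq_atTop] at hle
    exact hle (eventually_ge_atTop (a + r))
  obtain ⟨k, hk1, hk2⟩ := (h1.and hge).exists
  have h3 : Big R (m • (P k i - P' i)) := (hV i).big_nsmul h20 hR (hd _ _ hk1) m
  have h4 : Big R (m • P k i) := by
    obtain ⟨t, rfl⟩ := Nat.exists_eq_add_of_le hk2
    have e : m • P (a + r + t) i = 2 ^ (r + t) • (N i • Q (a + r + t) i) := by
      rw [hQ (a + r + t) i, hNam, ← mul_smul, ← mul_smul]
      congr 1
      rw [pow_add, pow_add, pow_add]
      ring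
    rw [e]
    have h5 := big_pow (hV i) h2 (by norm_num : (1 : ℝ) < 2) (hN i (Q (a + r + t) i)) (r + t)
    refine big_mono ?_ h5
    have h6 : (4 : ℝ) ^ r ≤ 4 ^ (r + t) := pow_le_pow_right₀ (by norm_num) (by omega)
    have h7 : (0 : ℝ) < 4 ^ (r + t) := by positivity
    linarith
  have e2 : m • P' i = m • P k i - m • (P k i - P' i) := by
    rw [smul_sub]
    abel
  rw [e2]
  exact (hV i).big_sub h20 hR h4 h3

end

end Pool.Agent.R425.D
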