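import Pool.Agent.R425.D.TwM

/-!
# The curve X_0(11): the points of odd order, and an example
-/

set_option autoImplicit false
set_option linter.all false

open IsDedekindDomain NumberField WeierstrassCurve MvPolynomial

namespace Pool.Agent.R425.D

open Pool.Agent.TH954
open Pool.Agent.Y702.G (base pts)

open scoped Classical

section pt

open Pool.Agent.Y702 (E11)
open Pool.Agent.R901.EC (sel11)
open Pool.Agent.Y700 (VR)

/-- **The 2-adic points of odd order on `X_0(11)`.** -/
theorem oddPts11 (P : (base E11s ℚ_[2]).toAffine.Point) (m : ℕ) (hm : Odd m) (h : m • P = 0) :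
    P = 0 ∨ ∃ c : ℤ, (c = 168 ∨ c = 564) ∧ crd P 0 = (c : ℚ_[2]) ∧ crd P 2 = 1 := by
  match P, h with
  | .zero, h => exact Or.inl rfl
  | .some X Y n, h =>
    have hX1 := odd_small hm h
    have heq := si11.toShort.eqn n
    rw [a4_11, a6_11] at heq
    have hXh : ‖X‖ ≤ 1 / 2 := half hX1
    have hX4 : ‖X‖ ≤ 1 / 4 := by
      rcases hXh.lt_or_eq with h1 | h1
      · exact quarter h1
      · exfalso
        apply not_eighth (z := Y)
        have haX : ‖(-13392 : ℚ_[2]) * X‖ = 1 / 32 := by
          rw [norm_mul, na11, h1]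
          norm_num
        have hX3 : ‖X ^ 3‖ = 1 / 8 := by
          rw [norm_pow, h1]
          norm_num
        rw [← norm_pow, heq, uadd_eq, uadd_eq, hX3]
        · rw [hX3, haX]; norm_num
        · rw [uadd_eq, hX3, nb11]
          · norm_num
          · rw [hX3, haX]; norm_num
    obtain ⟨x, hx⟩ : ∃ x : ℚ_[2], X = 36 * x - 12 := ⟨(X + 12) / 36, by field_simp; ring⟩
    obtain ⟨y, hy⟩ : ∃ y : ℚ_[2], Y = 216 * y + 108 := ⟨(Y - 108) / 216, by field_simp; ring⟩
    have hx1 : ‖x‖ ≤ 1 := by
      have e1 : ‖36 * x‖ ≤ 1 / 4 := by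
        have e2 : 36 * x = X + 12 := by rw [hx]; ring
        rw [e2]
        exact uadd hX4 n12.le
      rw [norm_mul, n36] at e1
      linarith
    have hxy : y ^ 2 + y = x ^ 3 - x ^ 2 - 10 * x - 20 := by
      have h46 : (46656 : ℚ_[2]) ≠ 0 := by norm_num
      apply mul_left_cancel₀ h46
      rw [hx, hy] at heq
      linear_combination heq
    have hy1 : ‖y‖ ≤ 1 := by
      by_contra hcon
      rw [not_le] at hcon
      have e1 : ‖y ^ 2 + y‖ = ‖y‖ ^ 2 := by
        rw [uadd_eq, norm_pow]
        rw [norm_pow]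
        nlinarith
      have e2 : ‖x ^ 3 - x ^ 2 - 10 * x - 20‖ ≤ 1 := by
        refine usub (usub (usub ?_ ?_) ?_) ?_
        · rw [norm_pow]; exact pow_le_one₀ (norm_nonneg _) hx1
        · rw [norm_pow]; exact pow_le_one₀ (norm_nonneg _) hx1
        · have : ‖(10 : ℚ_[2])‖ ≤ 1 := by exact_mod_cast Padic.norm_int_le_one (p := 2) 10
          exact umul this hx1
        · exact_mod_cast Padic.norm_int_le_one (p := 2) 20
      rw [← hxy, e1] at e2
      nlinarith
    obtain ⟨x0, y0, h0, hx05, hx0, hy0⟩ : ∃ x0 y0 : ℤ, y0 ^ 2 + y0 = x0 ^ 3 - x0 ^ 2 - 10 * x0 - 20 ∧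
        (x0 = 5 ∨ x0 = 16) ∧ ‖x - x0‖ ≤ 1 / 2 ∧ ‖y - y0‖ ≤ 1 / 2 := by
      have hx01 : ∃ (i : ℤ), (i = 0 ∨ i = 1) ∧ ‖x - i‖ ≤ 1 / 2 := by
        rcases res hx1 with h | h
        · exact ⟨0, Or.inl rfl, by simpa using h⟩
        · exact ⟨1, Or.inr rfl, by simpa using h⟩
      have hy01 : ∃ (i : ℤ), (i = 0 ∨ i = 1) ∧ ‖y - i‖ ≤ 1 / 2 := by
        rcases res hy1 with h | h
        · exact ⟨0, Or.inl rfl, by simpa using h⟩
        · exact ⟨1, Or.inr rfl, by simpa using h⟩
      have hshift : ∀ (z : ℚ_[2]) (i j : ℤ), ‖z - i‖ ≤ 1 / 2 → (2 : ℤ) ∣ j - i → ‖z - j‖ ≤ 1 / 2 := by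
        intro z i j hz hij
        have e1 : z - (j : ℚ_[2]) = (z - i) - ((j - i : ℤ) : ℚ_[2]) := by push_cast; ring
        rw [e1]
        exact usub hz (half (Padic.norm_intCast_lt_one_iff.2 hij))
      obtain ⟨i, hi, hxi⟩ := hx01
      obtain ⟨j, hj, hyj⟩ := hy01
      rcases hi with rfl | rfl <;> rcases hj with rfl | rfl
      · exact ⟨16, 60, by norm_num, Or.inr rfl, hshift x 0 16 hxi (by norm_num), hshift y 0 60 hyj (by norm_num)⟩
      · exact ⟨16, -61, by norm_num, Or.inr rfl, hshift x 0 16 hxi (by norm_num), hshift y 1 (-61) hyj (by norm_num)⟩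
      · exact ⟨5, -6, by norm_num, Or.inl rfl, hshift x 1 5 hxi (by norm_num), hshift y 0 (-6) hyj (by norm_num)⟩
      · exact ⟨5, 5, by norm_num, Or.inl rfl, hshift x 1 5 hxi (by norm_num), hshift y 1 5 hyj (by norm_num)⟩
    let y' : (base E11s ℚ).toAffine.Point := .some _ _ (points11 x0 y0 h0)
    obtain ⟨hfin, hodd, -⟩ := sel11s
    obtain ⟨φ, hφ, hφM⟩ := tors_image (algebraMap ℚ ℚ_[2]) (base E11s ℚ) (base E11s ℚ_[2])
      (base_map E11s _) hfin
    set M : ℕ := Nat.card (base E11s ℚ).toAffine.Point with hM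
    have hT : (m * M) • (Affine.Point.some X Y n - φ y') = 0 := by
      rw [nsmul_sub]
      have e1 : (m * M) • (Affine.Point.some X Y n) = 0 := by
        rw [mul_nsmul, h]
        exact nsmul_zero M
      have e2 : (m * M) • φ y' = 0 := by
        rw [mul_comm, mul_nsmul, hφM]
        exact nsmul_zero m
      rw [e1, e2, sub_zero]
    have hc0 : crd (φ y') 0 = 36 * (x0 : ℚ_[2]) - 12 := by
      rw [hφ]
      show algebraMap ℚ ℚ_[2] (36 * (x0 : ℚ) - 12) = _
      simp
    have hc1 : crd (φ y') 1 = 216 * (y0 : ℚ_[2]) + 108 := by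
      rw [hφ]
      show algebraMap ℚ ℚ_[2] (216 * (y0 : ℚ) + 108) = _
      simp
    have hc2 : crd (φ y') 2 = 1 := by
      rw [hφ]
      show algebraMap ℚ ℚ_[2] 1 = 1
      exact map_one _
    have key : Affine.Point.some X Y n = φ y' := by
      generalize hz : φ y' = z at hT hc0 hc1 hc2
      match z with
      | .zero =>
        exfalso
        simp [crd] at hc2
      | .some X0 Y0 n0 =>
        have e0 : X0 = 36 * (x0 : ℚ_[2]) - 12 := hc0
        have e1 : Y0 = 216 * (y0 : ℚ_[2]) + 108 := hc1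
        generalize hS : Affine.Point.some X Y n - Affine.Point.some X0 Y0 n0 = T at hT
        match T with
        | .zero => exact sub_eq_zero.1 hS
        | .some X' Y' n' =>
          exfalso
          have hs := odd_small (hm.mul hodd) hT
          obtain ⟨l, hl1, -, hl3⟩ := si11.toShort.chord two_ne_zero hS
          have f1 : ‖X - X0‖ ≤ 1 / 8 := by
            have e3 : X - X0 = 36 * (x - x0) := by rw [hx, e0]; ring
            rw [e3, norm_mul, n36]
            linarith
          have f2 : ‖Y + Y0‖ = 1 / 8 := by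
            have e3 : Y + Y0 = 216 * (1 + ((y - y0) + ((2 * y0 : ℤ) : ℚ_[2]))) := by
              rw [hy, e1]
              push_cast
              ring
            have e4 : ‖(y - y0) + ((2 * y0 : ℤ) : ℚ_[2])‖ ≤ 1 / 2 :=
              uadd hy0 (half (Padic.norm_intCast_lt_one_iff.2 ⟨y0, rfl⟩))
            rw [e3, norm_mul, n216, uadd_eq, norm_one, mul_one]
            rw [norm_one]
            linarith
          have f3 : 1 ≤ ‖l‖ := by
            by_contra hcon
            rw [not_le] at hcon
            have f4 := congrArg norm hl1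
            rw [norm_mul, f2] at f4
            have : ‖l‖ * ‖X - X0‖ < 1 / 8 := by
              by_cases h9 : ‖X - X0‖ = 0
              · rw [h9]; norm_num
              · have : 0 < ‖X - X0‖ := lt_of_le_of_ne (norm_nonneg _) (Ne.symm h9)
                nlinarith
            linarith
          have f5 : ‖X0‖ ≤ 1 / 4 := by
            have e3 : X0 = X - (X - X0) := by ring
            rw [e3]
            exact usub hX4 (by linarith)
          have f6 : ‖X'‖ = ‖l ^ 2‖ := by
            rw [hl3, usub_eq, usub_eq]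
            · rw [norm_pow]
              nlinarith
            · rw [usub_eq]
              · rw [norm_pow]
                nlinarith
              · rw [norm_pow]
                nlinarith
          rw [f6, norm_pow] at hs
          nlinarith
    right
    refine ⟨36 * x0 - 12, ?_, ?_, rfl⟩
    · rcases hx05 with rfl | rfl <;> norm_num
    · rw [key, hφ]
      show algebraMap ℚ ℚ_[2] (36 * (x0 : ℚ) - 12) = _
      push_cast
      simp

end pt

end Pool.Agent.R425.D
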