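import Pool.Agent.R425.D.Thm
import Pool.Agent.R425.D.TwX

/-!
# The curve X_1(11) over Galois 2-extensions
-/

set_option autoImplicit false
set_option linter.all false

open IsDedekindDomain NumberField WeierstrassCurve MvPolynomial

namespace Pool.Agent.R425.D

open Pool.Agent.TH954
open Pool.Agent.Y702.G (base pts)

open scoped Classical

section two

lemma int_le_one (n : ℤ) : ‖(n : ℚ_[2])‖ ≤ 1 := Padic.norm_int_le_one n

/-- roots of monic quintic polynomials with integral coefficients are integral -/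
lemma quint_int {x : ℚ_[2]} {a b c d e : ℤ}
    (h : x ^ 5 + a * x ^ 4 + b * x ^ 3 + c * x ^ 2 + d * x + e = 0) : ‖x‖ ≤ 1 := by
  by_contra hcon
  rw [not_le] at hcon
  have h1 : x ^ 5 = -(a * x ^ 4 + b * x ^ 3 + c * x ^ 2 + d * x + e) := by linear_combination h
  have key : ∀ (n : ℤ) (k : ℕ), k ≤ 4 → ‖(n : ℚ_[2]) * x ^ k‖ ≤ ‖x‖ ^ 4 := by
    intro n k hk
    rw [norm_mul, norm_pow]
    have h2 : ‖x‖ ^ k ≤ ‖x‖ ^ 4 := pow_le_pow_right₀ hcon.le hk
    have h3 : 0 ≤ ‖x‖ ^ k := pow_nonneg (norm_nonneg _) _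
    nlinarith [int_le_one n, norm_nonneg (n : ℚ_[2])]
  have h5 : ‖x ^ 5‖ ≤ ‖x‖ ^ 4 := by
    rw [h1, norm_neg]
    refine (IsUltrametricDist.norm_add_le_max _ _).trans (max_le ?_ ?_)
    · refine (IsUltrametricDist.norm_add_le_max _ _).trans (max_le ?_ ?_)
      · refine (IsUltrametricDist.norm_add_le_max _ _).trans (max_le ?_ ?_)
        · exact (IsUltrametricDist.norm_add_le_max _ _).trans (max_le (key a 4 le_rfl)
            (key b 3 (by norm_num)))
        · exact key c 2 (by norm_num)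
      · have := key d 1 (by norm_num)
        rwa [pow_one] at this
    · have := key e 0 (by norm_num)
      rwa [pow_zero, mul_one] at this
  rw [norm_pow] at h5
  have h6 : ‖x‖ ^ 4 < ‖x‖ ^ 5 := pow_lt_pow_right₀ hcon (by norm_num)
  linarith

lemma quint_mod {x : ℚ_[2]} {a b c d e : ℤ}
    (h : x ^ 5 + a * x ^ 4 + b * x ^ 3 + c * x ^ 2 + d * x + e = 0) :
    ∃ z : ZMod 2, z ^ 5 + a * z ^ 4 + b * z ^ 3 + c * z ^ 2 + d * z + e = 0 := by
  have hx := quint_int h
  let y : ℤ_[2] := ⟨x, hx⟩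
  have hy : y ^ 5 + a * y ^ 4 + b * y ^ 3 + c * y ^ 2 + d * y + e = 0 := by
    apply Subtype.ext
    push_cast
    exact h
  refine ⟨PadicInt.toZMod y, ?_⟩
  have h2 := congrArg (PadicInt.toZMod (p := 2)) hy
  simpa using h2

lemma quint1 (x : ℚ_[2]) : x ^ 5 - 7 * x ^ 4 + 13 * x ^ 3 - 5 * x ^ 2 - 2 * x + 1 ≠ 0 := by
  intro h
  obtain ⟨z, hz⟩ := quint_mod (x := x) (a := -7) (b := 13) (c := -5) (d := -2) (e := 1)
    (by push_cast; linear_combination h)
  revert z
  decide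

lemma quint2 (x : ℚ_[2]) : x ^ 5 - 18 * x ^ 4 + 35 * x ^ 3 - 16 * x ^ 2 - 2 * x + 1 ≠ 0 := by
  intro h
  obtain ⟨z, hz⟩ := quint_mod (x := x) (a := -18) (b := 35) (c := -16) (d := -2) (e := 1)
    (by push_cast; linear_combination h)
  revert z
  decide

end two

section K

open Pool.Agent.Y702 (E11)
open Pool.Agent.Y700 (VR)

lemma disc11m : E11.Δ ≠ 0 := by
  norm_num [E11, WeierstrassCurve.Δ, WeierstrassCurve.b₂, WeierstrassCurve.b₄,
    WeierstrassCurve.b₆, WeierstrassCurve.b₈]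

lemma triv11 : Triv E11 := by
  obtain ⟨h1, h2, h3⟩ := Pool.Agent.R901.EC.sel11
  exact ⟨h2, h3, h1⟩

variable {K : Type} [Field K] [NumberField K]

lemma vr11K : VR (base E11s K) (base E11 K) 6 (-12) 0 108 := by
  have h := vr11.map (algebraMap ℚ K)
  rw [base_map, base_map] at h
  simpa [map_ofNat, map_neg] using h

/-- the group of points of the short equation over `K` -/
lemma grp11 (hK : TwoExt (fun _ : Fin 1 => E11) K) : Finite (base E11s K).toAffine.Point ∧
    ∀ P : (base E11s K).toAffine.Point, 2 • P = 0 → P = 0 := by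
  obtain ⟨-, hfin, htor⟩ := hK.sel (fun _ => disc11m) (fun _ => triv11) 0
  have hd : (base E11 K).Δ ≠ 0 := by
    rw [WeierstrassCurve.map_Δ]
    simpa using disc11m
  exact equiv_good ((vr11K (K := K)).equiv hd) hfin htor

lemma emb_two (hK : TwoExt (fun _ : Fin 1 => E11) K) : ∃ g : K →+* ℚ_[2], True := by
  obtain ⟨v, hv⟩ := exists_two K
  obtain ⟨hv1, hv2⟩ := hK.two (fun _ => disc11m) v hv
  obtain ⟨e⟩ := split_iso v hv1 hv2
  exact ⟨(e.symm.toRingHom : v.adicCompletion K →+* ℚ_[2]).comp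
    (algebraMap K (v.adicCompletion K)), trivial⟩

/-- the points of `X_0(11)` over `K` -/
theorem pts11 (hK : TwoExt (fun _ : Fin 1 => E11) K) {U V : K}
    (h : V ^ 2 = U ^ 3 - 13392 * U - 1080432) : U = 168 ∨ U = 564 := by
  obtain ⟨g, -⟩ := emb_two hK
  obtain ⟨hfin, htor⟩ := grp11 hK
  obtain ⟨c, hc⟩ := @odd_card _ _ hfin htor
  have hd : (base E11s K).Δ ≠ 0 := by
    rw [WeierstrassCurve.map_Δ]
    simpa using disc11
  have he : (base E11s K).toAffine.Equation U V := by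
    rw [Affine.equation_iff]
    show V ^ 2 + ((0 : ℤ) : K) * U * V + ((0 : ℤ) : K) * V = U ^ 3 + ((0 : ℤ) : K) * U ^ 2 +
      ((-13392 : ℤ) : K) * U + ((-1080432 : ℤ) : K)
    push_cast
    linear_combination h
  have hn : (base E11s K).toAffine.Nonsingular U V :=
    (Affine.equation_iff_nonsingular_of_Δ_ne_zero hd).1 he
  obtain ⟨φ, hφ⟩ := transport g (base E11s K) (base E11s ℚ_[2]) (base_map E11s _)
  have hm : (2 * c + 1) • φ (.some U V hn) = 0 := by
    rw [← map_nsmul, ← hc, card_nsmul_eq_zero', map_zero]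
  rcases oddPts11 _ (2 * c + 1) ⟨c, rfl⟩ hm with h0 | ⟨k, hk, hk0, -⟩
  · exfalso
    have h2 := hφ (.some U V hn) 2
    rw [h0] at h2
    have h3 : (0 : ℚ_[2]) = g 1 := h2
    rw [map_one] at h3
    exact zero_ne_one h3
  · have h2 := hφ (.some U V hn) 0
    rw [hk0] at h2
    have h3 : (k : ℚ_[2]) = g U := h2
    have h4 : U = (k : K) := by
      apply g.injective
      rw [← h3, map_intCast]
    rcases hk with rfl | rfl
    · left
      rw [h4]
      norm_num
    · right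
      rw [h4]
      norm_num

/-- the points of `X_1(11)` over `K`, on the curve `Y² = 2 (t³ + t² - t + 1)` -/
theorem pts111 (hK : TwoExt (fun _ : Fin 1 => E11) K) {t Y : K}
    (h : Y ^ 2 = 2 * (t ^ 3 + t ^ 2 - t + 1)) : t = 1 ∨ t = -1 := by
  obtain ⟨g, -⟩ := emb_two hK
  by_contra hcon
  push Not at hcon
  obtain ⟨ht1, ht2⟩ := hcon
  obtain ⟨x, hx⟩ : ∃ x : K, t = 2 * x - 1 := ⟨(t + 1) / 2, by ring⟩
  subst hx
  have hx0 : x ≠ 0 := by
    rintro rfl
    apply ht2
    ring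
  have hx1 : x - 1 ≠ 0 := by
    intro h0
    apply ht1
    linear_combination 2 * h0
  have hY : Y ^ 2 = 4 * (4 * x ^ 3 - 4 * x ^ 2 + 1) := by
    rw [h]
    ring
  set X : K := x + 1 / x ^ 2 + 2 / (x - 1) + 1 / (x - 1) ^ 2 with hX
  set D : K := 1 - 2 / x ^ 3 - 2 / (x - 1) ^ 2 - 2 / (x - 1) ^ 3 with hD
  have hUV : (54 * Y * D) ^ 2 = (36 * X - 12) ^ 3 - 13392 * (36 * X - 12) - 1080432 := by
    have e1 : (54 * Y * D) ^ 2 = 2916 * Y ^ 2 * D ^ 2 := by ring
    rw [e1, hY, hX, hD]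
    field_simp
    ring
  have hq : x ^ 2 * (x - 1) ^ 2 * X = x ^ 3 * (x - 1) ^ 2 + (x - 1) ^ 2 + 2 * x ^ 2 * (x - 1) +
      x ^ 2 := by
    rw [hX]
    field_simp
  rcases pts11 hK hUV with h5 | h5
  · have hX5 : X = 5 := by linear_combination h5 / 36
    rw [hX5] at hq
    apply quint1 (g x)
    have h6 : x ^ 5 - 7 * x ^ 4 + 13 * x ^ 3 - 5 * x ^ 2 - 2 * x + 1 = 0 := by
      linear_combination -hq
    have h7 := congrArg g h6
    simpa [map_ofNat] using h7
  · have hX5 : X = 16 := by linear_combination h5 / 36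
    rw [hX5] at hq
    apply quint2 (g x)
    have h6 : x ^ 5 - 18 * x ^ 4 + 35 * x ^ 3 - 16 * x ^ 2 - 2 * x + 1 = 0 := by
      linear_combination -hq
    have h7 := congrArg g h6
    simpa [map_ofNat] using h7

end K

end Pool.Agent.R425.D
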