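import Pool.Agent.R425.D.DynA

/-!
# Preperiodic points of quadratic polynomials over Galois 2-extensions
-/

set_option autoImplicit false
set_option linter.all false

open IsDedekindDomain NumberField WeierstrassCurve MvPolynomial

namespace Pool.Agent.R425.D

open Pool.Agent.TH954
open Pool.Agent.Y702.G (base pts)

open scoped Classical

/-- the polynomial `z ^ 2 + c` -/
def qd {K : Type} [Field K] (c z : K) : K := z ^ 2 + c

section K

variable {K : Type} [Field K] [NumberField K]

/-- a chain of length three which ends in a fixed point -/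
lemma chain1 (hK : TwoExt (fun _ : Fin 1 => Pool.Agent.Y702.E11) K) {c α x y z : K} (h0 : α ^ 2 + c = α)
    (h1 : x ^ 2 + c = α) (h2 : y ^ 2 + c = x) (h3 : z ^ 2 + c = y) : x = α := by
  by_contra hne
  have hxa : x = -α := by
    have e : (x - α) * (x + α) = 0 := by linear_combination h1 - h0
    rcases mul_eq_zero.1 e with h | h
    · exact absurd (sub_eq_zero.1 h) hne
    · exact eq_neg_of_add_eq_zero_left h
  have hα : α ≠ 0 := by
    rintro rfl
    apply hne
    rw [hxa, neg_zero]
  have hy : y ^ 2 = α ^ 2 - 2 * α := by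
    rw [hxa] at h2
    linear_combination h2 - h0
  have hz : z ^ 2 = y - α + α ^ 2 := by linear_combination h3 - h0
  have key : (z * (2 / α)) ^ 2 = 2 * ((-y / α) ^ 3 + (-y / α) ^ 2 - (-y / α) + 1) := by
    have e1 : (-y / α) ^ 2 = 1 - 2 / α := by
      rw [div_pow, neg_sq, hy]
      field_simp
    have e2 : (-y / α) ^ 3 = (-y / α) * (1 - 2 / α) := by
      rw [← e1]; ring
    rw [e2, e1, mul_pow, hz]
    field_simp
    ring
  have ht : (-y / α) ^ 2 = 1 := by
    rcases pts111 hK key with h | h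
    · rw [h]; ring
    · rw [h]; ring
  rw [div_pow, neg_sq, hy, div_eq_one_iff_eq (pow_ne_zero 2 hα)] at ht
  apply hα
  have h5 : (2 : K) * α = 0 := by linear_combination -ht
  exact (mul_eq_zero.1 h5).resolve_left two_ne_zero

/-- a chain of length three which ends in a cycle of length two -/
lemma chain2 (hK : TwoExt (fun _ : Fin 1 => Pool.Agent.Y702.E11) K) {c α β x y z : K} (hab : α ≠ β)
    (h0 : α ^ 2 + c = β) (h0' : β ^ 2 + c = α)
    (h1 : x ^ 2 + c = α) (h2 : y ^ 2 + c = x) (h3 : z ^ 2 + c = y) : x = β := by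
  by_contra hne
  have hs : α + β = -1 := by
    have e : (α - β) * (α + β + 1) = 0 := by linear_combination h0 - h0'
    have := (mul_eq_zero.1 e).resolve_left (sub_ne_zero.2 hab)
    linear_combination this
  have hxa : x = -β := by
    have e : (x - β) * (x + β) = 0 := by linear_combination h1 - h0'
    rcases mul_eq_zero.1 e with h | h
    · exact absurd (sub_eq_zero.1 h) hne
    · exact eq_neg_of_add_eq_zero_left h
  have hβ : β ≠ 0 := by
    rintro rfl
    apply hne
    rw [hxa, neg_zero]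
  have hα : α = -1 - β := by linear_combination hs
  have hc : c = α - β ^ 2 := by linear_combination h0'
  have hy : y ^ 2 = 1 + β ^ 2 := by
    rw [hxa, hc, hα] at h2
    linear_combination h2
  have hz : z ^ 2 = y ^ 2 + y + β := by
    rw [hc, hα] at h3
    rw [hy]
    linear_combination h3
  have hy1 : y + 1 ≠ 0 := by
    intro h
    have h4 : y = -1 := by linear_combination h
    rw [h4] at hy
    apply hβ
    have : β ^ 2 = 0 := by linear_combination -hy
    exact pow_eq_zero_iff two_ne_zero |>.1 this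
  have e0 : (1 - y) / β = -β / (y + 1) := by
    rw [div_eq_div_iff hβ hy1]
    linear_combination -hy
  have e1 : ((1 - y) / β) ^ 2 = (y - 1) / (y + 1) := by
    rw [sq]
    nth_rewrite 2 [e0]
    rw [div_mul_div_comm, div_eq_div_iff (mul_ne_zero hβ hy1) hy1]
    ring
  have key : (2 * z / (y + 1)) ^ 2 =
      2 * (((1 - y) / β) ^ 3 + ((1 - y) / β) ^ 2 - ((1 - y) / β) + 1) := by
    have e2 : ((1 - y) / β) ^ 3 = (-β / (y + 1)) * ((y - 1) / (y + 1)) := by
      rw [← e1, ← e0]; ring
    rw [e2, e1, e0, div_pow, mul_pow, hz]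
    field_simp
    ring
  have ht : ((1 - y) / β) ^ 2 = 1 := by
    rcases pts111 hK key with h | h
    · rw [h]; ring
    · rw [h]; ring
  rw [e1, div_eq_one_iff_eq hy1] at ht
  have h5 : (2 : K) = 0 := by linear_combination -ht
  exact two_ne_zero h5

/-- chains of length three which end in cycles of length at most two -/
lemma chain (hK : TwoExt (fun _ : Fin 1 => Pool.Agent.Y702.E11) K) {c z : K}
    (h : qd c (qd c (qd c (qd c (qd c z)))) = qd c (qd c (qd c z))) :
    qd c (qd c (qd c (qd c z))) = qd c (qd c z) := by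
  obtain ⟨y, hy⟩ : ∃ y, y = qd c z := ⟨_, rfl⟩
  obtain ⟨x, hx⟩ : ∃ x, x = qd c y := ⟨_, rfl⟩
  obtain ⟨α, hα⟩ : ∃ α, α = qd c x := ⟨_, rfl⟩
  obtain ⟨β, hβ⟩ : ∃ β, β = qd c α := ⟨_, rfl⟩
  rw [← hy, ← hx, ← hα, ← hβ] at h
  rw [← hy, ← hx, ← hα, ← hβ]
  by_cases hab : α = β
  · subst hab
    exact (chain1 hK (α := α) hβ.symm hα.symm hx.symm hy.symm).symm
  · exact (chain2 hK hab hβ.symm h hα.symm hx.symm hy.symm).symm

/-- **Orbits which end in cycles of length at most two.** -/
theorem tail_two (hK : TwoExt (fun _ : Fin 1 => Pool.Agent.Y702.E11) K) {c z : K} (n : ℕ)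
    (h : (qd c)^[n + 2] z = (qd c)^[n] z) : (qd c)^[4] z = (qd c)^[2] z := by
  induction n using Nat.strong_induction_on with
  | _ n ih =>
    rcases Nat.lt_or_ge n 3 with hn | hn
    · -- iterate
      obtain ⟨m, hm⟩ : ∃ m, n + m = 2 := ⟨2 - n, by omega⟩
      have e := congrArg ((qd c)^[m]) h
      rw [← Function.iterate_add_apply, ← Function.iterate_add_apply] at e
      have e1 : m + (n + 2) = 4 := by omega
      have e2 : m + n = 2 := by omega
      rwa [e1, e2] at e
    · obtain ⟨m, rfl⟩ : ∃ m, n = m + 3 := ⟨n - 3, by omega⟩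
      refine ih (m + 2) (by omega) ?_
      have e1 : (qd c)^[m + 3 + 2] z = qd c (qd c (qd c (qd c (qd c ((qd c)^[m] z))))) := by
        have : m + 3 + 2 = 5 + m := by omega
        rw [this, Function.iterate_add_apply]
        rfl
      have e2 : (qd c)^[m + 3] z = qd c (qd c (qd c ((qd c)^[m] z))) := by
        have : m + 3 = 3 + m := by omega
        rw [this, Function.iterate_add_apply]
        rfl
      have e3 : (qd c)^[m + 2 + 2] z = qd c (qd c (qd c (qd c ((qd c)^[m] z)))) := by
        have : m + 2 + 2 = 4 + m := by omega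
        rw [this, Function.iterate_add_apply]
        rfl
      have e4 : (qd c)^[m + 2] z = qd c (qd c ((qd c)^[m] z)) := by
        have : m + 2 = 2 + m := by omega
        rw [this, Function.iterate_add_apply]
        rfl
      rw [e1, e2] at h
      rw [e3, e4]
      exact chain hK h

end K

section local2

/-- the polynomial on the 2-adic integers -/
noncomputable def qz (c z : ℤ_[2]) : ℤ_[2] := z ^ 2 + c

lemma qz_res (c z : ℤ_[2]) : PadicInt.toZMod (qz c z) = PadicInt.toZMod z + PadicInt.toZMod c := by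
  unfold qz
  rw [map_add, map_pow]
  congr 1
  generalize PadicInt.toZMod z = t
  revert t
  decide

lemma qz_res2 (c z : ℤ_[2]) : PadicInt.toZMod (qz c (qz c z)) = PadicInt.toZMod z := by
  rw [qz_res, qz_res]
  generalize PadicInt.toZMod z = t
  generalize PadicInt.toZMod c = s
  revert t s
  decide

lemma qz_contr {c z w : ℤ_[2]} (h : PadicInt.toZMod z = PadicInt.toZMod w) :
    ‖qz c z - qz c w‖ ≤ ‖z - w‖ * (1 / 2) := by
  have e : qz c z - qz c w = (z - w) * (z + w) := by
    unfold qz
    ring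
  rw [e, norm_mul]
  refine mul_le_mul_of_nonneg_left ?_ (norm_nonneg _)
  have h1 : PadicInt.toZMod (z + w) = 0 := by
    rw [map_add, h]
    generalize PadicInt.toZMod w = t
    revert t
    decide
  have h2 : z + w ∈ RingHom.ker (PadicInt.toZMod (p := 2)) := h1
  rw [PadicInt.ker_toZMod, PadicInt.maximalIdeal_eq_span_p, Ideal.mem_span_singleton] at h2
  obtain ⟨u, hu⟩ := h2
  rw [hu, norm_mul]
  have h3 : ‖((2 : ℕ) : ℤ_[2])‖ = 1 / 2 := by
    have := PadicInt.norm_p (p := 2)
    rw [this]
    norm_num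
  rw [h3]
  have h4 := PadicInt.norm_le_one u
  linarith

lemma iter_res {c z w : ℤ_[2]} (h : PadicInt.toZMod z = PadicInt.toZMod w) (n : ℕ) :
    PadicInt.toZMod ((qz c)^[n] z) = PadicInt.toZMod ((qz c)^[n] w) ∧
      ‖(qz c)^[n] z - (qz c)^[n] w‖ ≤ ‖z - w‖ * (1 / 2) ^ n := by
  induction n with
  | zero => exact ⟨h, by simp⟩
  | succ n ih =>
    rw [Function.iterate_succ_apply', Function.iterate_succ_apply']
    refine ⟨?_, ?_⟩
    · rw [qz_res, qz_res, ih.1]
    · refine (qz_contr ih.1).trans ?_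
      rw [pow_succ, ← mul_assoc]
      have : (0 : ℝ) ≤ 1 / 2 := by norm_num
      exact mul_le_mul_of_nonneg_right ih.2 this

/-- periodic 2-adic integers with the same residue agree -/
lemma per_unique {c z w : ℤ_[2]} (h : PadicInt.toZMod z = PadicInt.toZMod w) {n m : ℕ} (hn : 0 < n)
    (hm : 0 < m) (hz : (qz c)^[n] z = z) (hw : (qz c)^[m] w = w) : z = w := by
  have h1 : (qz c)^[n * m] z = z := Function.IsPeriodicPt.mul_const hz m
  have h2 : (qz c)^[n * m] w = w := by
    rw [mul_comm]
    exact Function.IsPeriodicPt.mul_const hw n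
  have h3 := (iter_res h (n * m) (c := c)).2
  rw [h1, h2] at h3
  have hpos : 0 < n * m := Nat.mul_pos hn hm
  have h4 : ((1 : ℝ) / 2) ^ (n * m) ≤ (1 / 2) ^ 1 :=
    pow_le_pow_of_le_one (by norm_num) (by norm_num) hpos
  have h5 : ‖z - w‖ ≤ 0 := by
    have := norm_nonneg (z - w)
    nlinarith
  exact sub_eq_zero.1 (norm_le_zero_iff.1 h5)

/-- periodic 2-adic integers have period at most two -/
lemma per_two {c z : ℤ_[2]} {n : ℕ} (hn : 0 < n) (hz : (qz c)^[n] z = z) : (qz c)^[2] z = z := by
  refine per_unique (qz_res2 c z) hn hn ?_ hz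
  show (qz c)^[n] ((qz c)^[2] z) = (qz c)^[2] z
  rw [← Function.iterate_add_apply, add_comm, Function.iterate_add_apply, hz]

/-- preperiodic points over the 2-adic numbers are integral -/
lemma pre_int {c z : ℚ_[2]} (hc : ‖c‖ ≤ 1) {i j : ℕ} (hij : j < i)
    (h : (qd c)^[i] z = (qd c)^[j] z) : ‖z‖ ≤ 1 := by
  by_contra hcon
  rw [not_le] at hcon
  have hstep : ∀ w : ℚ_[2], 1 < ‖w‖ → ‖qd c w‖ = ‖w‖ ^ 2 := by
    intro w hw
    have h1 : ‖c‖ < ‖w ^ 2‖ := by
      rw [norm_pow]
      nlinarith
    unfold qd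
    rw [IsUltrametricDist.norm_add_eq_max_of_norm_ne_norm h1.ne', max_eq_left h1.le, norm_pow]
  have hmono : ∀ k : ℕ, 1 < ‖(qd c)^[k] z‖ ∧ ‖(qd c)^[k] z‖ < ‖(qd c)^[k + 1] z‖ := by
    intro k
    induction k with
    | zero =>
      refine ⟨hcon, ?_⟩
      have : (qd c)^[0 + 1] z = qd c z := rfl
      rw [this, hstep z hcon]
      show ‖z‖ < ‖z‖ ^ 2
      nlinarith
    | succ k ih =>
      have h2 : 1 < ‖(qd c)^[k + 1] z‖ := ih.1.trans ih.2
      refine ⟨h2, ?_⟩
      rw [Function.iterate_succ_apply' (qd c) (k + 1), hstep _ h2]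
      nlinarith
  have hsm : StrictMono (fun k => ‖(qd c)^[k] z‖) := strictMono_nat_of_lt_succ fun k => (hmono k).2
  have := hsm hij
  simp only [h, lt_self_iff_false] at this

lemma qz_coe (c z : ℤ_[2]) (n : ℕ) : (((qz c)^[n] z : ℤ_[2]) : ℚ_[2]) = (qd (c : ℚ_[2]))^[n] z := by
  induction n with
  | zero => rfl
  | succ n ih =>
    rw [Function.iterate_succ_apply', Function.iterate_succ_apply', ← ih]
    unfold qz qd
    push_cast
    rfl

end local2

section glob

variable {K : Type} [Field K]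

lemma map_iter {L : Type} [Field L] (g : K →+* L) (c z : K) (n : ℕ) :
    g ((qd c)^[n] z) = (qd (g c))^[n] (g z) := by
  induction n with
  | zero => rfl
  | succ n ih =>
    rw [Function.iterate_succ_apply', Function.iterate_succ_apply', ← ih]
    unfold qd
    rw [map_add, map_pow]

/-- the preperiodic points -/
def Pre (c : K) : Set K := {z | ∃ i j : ℕ, j < i ∧ (qd c)^[i] z = (qd c)^[j] z}

/-- the periodic points -/
def Per (c : K) : Set K := {z | ∃ n : ℕ, 0 < n ∧ (qd c)^[n] z = z}

variable {c : K} {g : K →+* ℚ_[2]} (hc : ‖g c‖ ≤ 1)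

include hc

/-- the residue of a periodic point -/
lemma exists_c : ∃ c' : ℤ_[2], (c' : ℚ_[2]) = g c := ⟨⟨g c, hc⟩, rfl⟩

omit hc in
lemma per_lift {c' : ℤ_[2]} (hc' : (c' : ℚ_[2]) = g c) {z : K} (hz : z ∈ Per c) :
    ∃ y : ℤ_[2], (y : ℚ_[2]) = g z ∧ ∃ n : ℕ, 0 < n ∧ (qz c')^[n] y = y := by
  obtain ⟨n, hn, h⟩ := hz
  have h1 : (qd (g c))^[n] (g z) = g z := by rw [← map_iter, h]
  have hc : ‖g c‖ ≤ 1 := by
    rw [← hc']
    exact PadicInt.norm_le_one c'
  have h2 : ‖g z‖ ≤ 1 := pre_int hc (i := n) (j := 0) hn h1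
  obtain ⟨y, hy⟩ : ∃ y : ℤ_[2], (y : ℚ_[2]) = g z := ⟨⟨g z, h2⟩, rfl⟩
  refine ⟨y, hy, n, hn, ?_⟩
  apply Subtype.ext
  rw [qz_coe, hc', hy]
  exact h1

lemma per_two_K {z : K} (hz : z ∈ Per c) : (qd c)^[2] z = z := by
  obtain ⟨c', hc'⟩ := exists_c hc
  obtain ⟨y, hy, n, hn, h⟩ := per_lift hc' hz
  have h1 := per_two hn h
  apply g.injective
  rw [map_iter, ← hy, ← hc', ← qz_coe, h1]

lemma per_card : ∃ s : Finset K, s.card ≤ 2 ∧ Per c ⊆ s := by
  obtain ⟨c', hc'⟩ := exists_c hc
  choose y hy n hn h using fun z : Per c => per_lift hc' z.2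
  have hinj : Function.Injective (fun z : Per c => PadicInt.toZMod (y z)) := by
    intro z w hzw
    have e := per_unique hzw (hn z) (hn w) (h z) (h w)
    apply Subtype.ext
    apply g.injective
    rw [← hy z, ← hy w, e]
  have hfin : Finite (Per c) := Finite.of_injective _ hinj
  have : Fintype (Per c) := Fintype.ofFinite _
  have hcard : Fintype.card (Per c) ≤ 2 := by
    have := Fintype.card_le_of_injective _ hinj
    rwa [ZMod.card] at this
  refine ⟨(Per c).toFinset, ?_, fun z hz => by simpa using hz⟩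
  rwa [Set.toFinset_card]

end glob

section main

variable {K : Type} [Field K] [NumberField K]

/-- the orbits of the preperiodic points -/
theorem pre_tail (hK : TwoExt (fun _ : Fin 1 => Pool.Agent.Y702.E11) K) {c : K} {g : K →+* ℚ_[2]}
    (hc : ‖g c‖ ≤ 1) {z : K} (hz : z ∈ Pre c) : (qd c)^[4] z = (qd c)^[2] z := by
  obtain ⟨i, j, hij, h⟩ := hz
  have hp : (qd c)^[j] z ∈ Per c := by
    refine ⟨i - j, Nat.sub_pos_of_lt hij, ?_⟩
    rw [← Function.iterate_add_apply, Nat.sub_add_cancel hij.le, h]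
  have h2 := per_two_K hc hp
  refine tail_two hK j ?_
  rw [add_comm, Function.iterate_add_apply, h2]

/-- **Uniform boundedness.** -/
theorem pre_card (hK : TwoExt (fun _ : Fin 1 => Pool.Agent.Y702.E11) K) {c : K} {g : K →+* ℚ_[2]}
    (hc : ‖g c‖ ≤ 1) : (Pre c).Finite ∧ (Pre c).ncard ≤ 8 := by
  obtain ⟨s, hs, hsub⟩ := per_card hc
  let pol : K → Polynomial K := fun w =>
    (Polynomial.X ^ 2 + Polynomial.C c) ^ 2 + Polynomial.C (c - w)
  have hpd : ∀ w, (pol w).natDegree = 4 := by
    intro w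
    show ((Polynomial.X ^ 2 + Polynomial.C c) ^ 2 + Polynomial.C (c - w)).natDegree = 4
    rw [Polynomial.natDegree_add_C, Polynomial.natDegree_pow, Polynomial.natDegree_add_C,
      Polynomial.natDegree_X_pow]
  have hp0 : ∀ w, pol w ≠ 0 := by
    intro w h0
    have := hpd w
    rw [h0, Polynomial.natDegree_zero] at this
    norm_num at this
  have hcov : Pre c ⊆ ↑(s.biUnion fun w => (pol w).roots.toFinset) := by
    intro z hz
    have h1 := pre_tail hK hc hz
    have h2 : (qd c)^[2] z ∈ Per c := by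
      refine ⟨2, two_pos, ?_⟩
      rw [← Function.iterate_add_apply]
      exact h1
    rw [Finset.mem_coe, Finset.mem_biUnion]
    refine ⟨_, hsub h2, ?_⟩
    rw [Multiset.mem_toFinset, Polynomial.mem_roots (hp0 _)]
    show Polynomial.eval z ((Polynomial.X ^ 2 + Polynomial.C c) ^ 2 +
      Polynomial.C (c - (qd c)^[2] z)) = 0
    simp only [Polynomial.eval_add, Polynomial.eval_pow, Polynomial.eval_X, Polynomial.eval_C]
    show (z ^ 2 + c) ^ 2 + (c - ((z ^ 2 + c) ^ 2 + c)) = 0
    ring
  have hcard : (s.biUnion fun w => (pol w).roots.toFinset).card ≤ 8 := by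
    refine (Finset.card_biUnion_le).trans ?_
    refine (Finset.sum_le_sum (g := fun _ => 4) fun w _ => ?_).trans ?_
    · refine (Multiset.toFinset_card_le _).trans ((Polynomial.card_roots' _).trans ?_)
      rw [hpd]
    · rw [Finset.sum_const, smul_eq_mul]
      omega
  refine ⟨(Finset.finite_toSet _).subset hcov, ?_⟩
  refine (Set.ncard_le_ncard hcov (Finset.finite_toSet _)).trans ?_
  rw [Set.ncard_coe_finset]
  exact hcard

/-- the number of the points whose orbits end in cycles of length at most two -/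
theorem tail_card (hK : TwoExt (fun _ : Fin 1 => Pool.Agent.Y702.E11) K) (c : K) :
    {z : K | ∃ n : ℕ, (qd c)^[n + 2] z = (qd c)^[n] z}.Finite ∧
    {z : K | ∃ n : ℕ, (qd c)^[n + 2] z = (qd c)^[n] z}.ncard ≤ 16 := by
  let pol : K → Polynomial K := fun w =>
    (Polynomial.X ^ 2 + Polynomial.C c) ^ 2 + Polynomial.C (c - w)
  have hpd : ∀ w, (pol w).natDegree = 4 := by
    intro w
    show ((Polynomial.X ^ 2 + Polynomial.C c) ^ 2 + Polynomial.C (c - w)).natDegree = 4
    rw [Polynomial.natDegree_add_C, Polynomial.natDegree_pow, Polynomial.natDegree_add_C,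
      Polynomial.natDegree_X_pow]
  have hp0 : ∀ w, pol w ≠ 0 := by
    intro w h0
    have := hpd w
    rw [h0, Polynomial.natDegree_zero] at this
    norm_num at this
  let per : Polynomial K := (Polynomial.X ^ 2 + Polynomial.C c) ^ 2 +
    (Polynomial.C c - Polynomial.X)
  have hper : per.natDegree = 4 := by
    show ((Polynomial.X ^ 2 + Polynomial.C c) ^ 2 + (Polynomial.C c - Polynomial.X)).natDegree = 4
    rw [Polynomial.natDegree_add_eq_left_of_natDegree_lt]
    · rw [Polynomial.natDegree_pow, Polynomial.natDegree_add_C, Polynomial.natDegree_X_pow]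
    · rw [Polynomial.natDegree_pow, Polynomial.natDegree_add_C, Polynomial.natDegree_X_pow]
      refine (Polynomial.natDegree_sub_le _ _).trans_lt ?_
      rw [Polynomial.natDegree_C, Polynomial.natDegree_X]
      norm_num
  have hper0 : per ≠ 0 := by
    intro h0
    have := hper
    rw [h0, Polynomial.natDegree_zero] at this
    norm_num at this
  let s : Finset K := per.roots.toFinset
  have hs : s.card ≤ 4 := by
    refine (Multiset.toFinset_card_le _).trans ((Polynomial.card_roots' _).trans ?_)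
    rw [hper]
  have hcov : {z : K | ∃ n : ℕ, (qd c)^[n + 2] z = (qd c)^[n] z} ⊆
      ↑(s.biUnion fun w => (pol w).roots.toFinset) := by
    rintro z ⟨n, hn⟩
    have h1 := tail_two hK n hn
    rw [Finset.mem_coe, Finset.mem_biUnion]
    refine ⟨(qd c)^[2] z, ?_, ?_⟩
    · rw [Multiset.mem_toFinset, Polynomial.mem_roots hper0]
      show Polynomial.eval ((qd c)^[2] z) ((Polynomial.X ^ 2 + Polynomial.C c) ^ 2 +
        (Polynomial.C c - Polynomial.X)) = 0
      simp only [Polynomial.eval_add, Polynomial.eval_pow, Polynomial.eval_X, Polynomial.eval_C,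
        Polynomial.eval_sub]
      have h2 : (qd c)^[4] z = (((qd c)^[2] z) ^ 2 + c) ^ 2 + c := rfl
      rw [h2] at h1
      linear_combination h1
    · rw [Multiset.mem_toFinset, Polynomial.mem_roots (hp0 _)]
      show Polynomial.eval z ((Polynomial.X ^ 2 + Polynomial.C c) ^ 2 +
        Polynomial.C (c - (qd c)^[2] z)) = 0
      simp only [Polynomial.eval_add, Polynomial.eval_pow, Polynomial.eval_X, Polynomial.eval_C]
      show (z ^ 2 + c) ^ 2 + (c - ((z ^ 2 + c) ^ 2 + c)) = 0
      ring
  have hcard : (s.biUnion fun w => (pol w).roots.toFinset).card ≤ 16 := by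
    refine (Finset.card_biUnion_le).trans ?_
    refine (Finset.sum_le_sum (g := fun _ => 4) fun w _ => ?_).trans ?_
    · refine (Multiset.toFinset_card_le _).trans ((Polynomial.card_roots' _).trans ?_)
      rw [hpd]
    · rw [Finset.sum_const, smul_eq_mul]
      omega
  refine ⟨(Finset.finite_toSet _).subset hcov, ?_⟩
  refine (Set.ncard_le_ncard hcov (Finset.finite_toSet _)).trans ?_
  rw [Set.ncard_coe_finset]
  exact hcard

end main

end Pool.Agent.R425.D
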