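import Pool.Agent.R425.D.DynB

/-!
# Quadratic polynomials
-/

set_option autoImplicit false
set_option linter.all false

open IsDedekindDomain NumberField WeierstrassCurve Polynomial

namespace Pool.Agent.R425.D

open scoped Classical

section

variable {K : Type} [Field K] [CharZero K]

/-- the invariant `c` of a quadratic polynomial, which is conjugate to `z² + c` -/
noncomputable def inv (f : K[X]) : K := f.coeff 2 * f.coeff 0 + f.coeff 1 / 2 - f.coeff 1 ^ 2 / 4

/-- the conjugation -/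
noncomputable def lin (f : K[X]) (z : K) : K := f.coeff 2 * z + f.coeff 1 / 2

lemma eval_two {f : K[X]} (hf : f.natDegree = 2) (z : K) :
    f.eval z = f.coeff 2 * z ^ 2 + f.coeff 1 * z + f.coeff 0 := by
  rw [eval_eq_sum_range, hf, Finset.sum_range_succ, Finset.sum_range_succ, Finset.sum_range_succ,
    Finset.sum_range_zero]
  ring

lemma lin_iter {f : K[X]} (hf : f.natDegree = 2) (n : ℕ) (z : K) :
    lin f ((fun w => f.eval w)^[n] z) = (qd (inv f))^[n] (lin f z) := by
  induction n with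
  | zero => rfl
  | succ n ih =>
    rw [Function.iterate_succ_apply', Function.iterate_succ_apply', ← ih]
    show lin f (f.eval _) = _
    rw [eval_two hf]
    unfold qd lin inv
    ring

lemma lin_inj {f : K[X]} (hf : f.natDegree = 2) : Function.Injective (lin f) := by
  have h2 : f.coeff 2 ≠ 0 := by
    rw [← hf]
    exact leadingCoeff_ne_zero.2 (fun h => by rw [h, natDegree_zero] at hf; norm_num at hf)
  intro z w h
  unfold lin at h
  have h3 : f.coeff 2 * (z - w) = 0 := by linear_combination h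
  exact sub_eq_zero.1 ((mul_eq_zero.1 h3).resolve_left h2)

end

section

variable {K : Type} [Field K] [NumberField K]

theorem poly_tail (hK : TwoExt (fun _ : Fin 1 => Pool.Agent.Y702.E11) K) {f : K[X]} (hf : f.natDegree = 2) {z : K}
    (n : ℕ) (h : (fun w => f.eval w)^[n + 2] z = (fun w => f.eval w)^[n] z) :
    (fun w => f.eval w)^[4] z = (fun w => f.eval w)^[2] z := by
  apply lin_inj hf
  rw [lin_iter hf, lin_iter hf]
  refine tail_two hK n ?_
  rw [← lin_iter hf, ← lin_iter hf, h]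

theorem poly_tail_card (hK : TwoExt (fun _ : Fin 1 => Pool.Agent.Y702.E11) K) {f : K[X]}
    (hf : f.natDegree = 2) :
    {z : K | ∃ n : ℕ, (fun w => f.eval w)^[n + 2] z = (fun w => f.eval w)^[n] z}.Finite ∧
    {z : K | ∃ n : ℕ, (fun w => f.eval w)^[n + 2] z = (fun w => f.eval w)^[n] z}.ncard ≤ 16 := by
  set S := {z : K | ∃ n : ℕ, (fun w => f.eval w)^[n + 2] z = (fun w => f.eval w)^[n] z}
  have hmaps : Set.MapsTo (lin f) S {z : K | ∃ n : ℕ, (qd (inv f))^[n + 2] z = (qd (inv f))^[n] z} := by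
    rintro z ⟨n, h⟩
    exact ⟨n, by rw [← lin_iter hf, ← lin_iter hf, h]⟩
  obtain ⟨hfin, hcard⟩ := tail_card hK (inv f)
  have hinj : Set.InjOn (lin f) S := fun z _ w _ h => lin_inj hf h
  exact ⟨Set.Finite.of_injOn hmaps hinj hfin,
    (Set.ncard_le_ncard_of_injOn (lin f) (fun z hz => hmaps hz) hinj hfin).trans hcard⟩

theorem poly_card (hK : TwoExt (fun _ : Fin 1 => Pool.Agent.Y702.E11) K) {f : K[X]} (hf : f.natDegree = 2)
    {g : K →+* ℚ_[2]} (hc : ‖g (inv f)‖ ≤ 1) :
    {z : K | ∃ i j : ℕ, j < i ∧ (fun w => f.eval w)^[i] z = (fun w => f.eval w)^[j] z}.Finite ∧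
    {z : K | ∃ i j : ℕ, j < i ∧ (fun w => f.eval w)^[i] z = (fun w => f.eval w)^[j] z}.ncard ≤ 8 ∧
    ∀ z ∈ {z : K | ∃ i j : ℕ, j < i ∧ (fun w => f.eval w)^[i] z = (fun w => f.eval w)^[j] z},
      (fun w => f.eval w)^[4] z = (fun w => f.eval w)^[2] z := by
  set S := {z : K | ∃ i j : ℕ, j < i ∧ (fun w => f.eval w)^[i] z = (fun w => f.eval w)^[j] z}
  have hmaps : Set.MapsTo (lin f) S (Pre (inv f)) := by
    rintro z ⟨i, j, hij, h⟩
    exact ⟨i, j, hij, by rw [← lin_iter hf, ← lin_iter hf, h]⟩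
  obtain ⟨hfin, hcard⟩ := pre_card hK hc
  have hinj : Set.InjOn (lin f) S := fun z _ w _ h => lin_inj hf h
  refine ⟨?_, ?_, ?_⟩
  · exact Set.Finite.of_injOn hmaps hinj hfin
  · exact (Set.ncard_le_ncard_of_injOn (lin f) (fun z hz => hmaps hz) hinj hfin).trans hcard
  · intro z hz
    apply lin_inj hf
    rw [lin_iter hf, lin_iter hf]
    exact pre_tail hK hc (hmaps hz)

end

end Pool.Agent.R425.D
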