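import Pool.Agent.R425.D.TwZ

/-!
# Families of closed subvarieties
-/

set_option autoImplicit false
set_option linter.all false

open IsDedekindDomain NumberField WeierstrassCurve MvPolynomial Filter Topology

namespace Pool.Agent.R425.D

open Pool.Agent.TH954
open Pool.Agent.Y702.G (base pts)

open scoped Classical

section hom

variable {F : Type} [Field F] {n m : ℕ}

/-- homogeneous of degree `d i` in the coordinates of the `i`-th point -/
def PHom (d : Fin n → ℕ) (f : MvPolynomial ((Fin n × Fin 3) ⊕ Fin m) F) : Prop :=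
  ∀ e ∈ f.support, ∀ i, ∑ j, e (Sum.inl (i, j)) = d i

lemma PHom.eval_smul {d : Fin n → ℕ} {f : MvPolynomial ((Fin n × Fin 3) ⊕ Fin m) F}
    (hf : PHom d f) (s : Fin n → F) (u : Fin n × Fin 3 → F) (t : Fin m → F) :
    eval (Sum.elim (fun p => s p.1 * u p) t) f = (∏ i, s i ^ d i) * eval (Sum.elim u t) f := by
  rw [eval_eq', eval_eq', Finset.mul_sum]
  refine Finset.sum_congr rfl (fun e he => ?_)
  rw [Fintype.prod_sum_type, Fintype.prod_sum_type]
  have h1 : ∏ p : Fin n × Fin 3, (Sum.elim (fun p => s p.1 * u p) t (Sum.inl p)) ^ e (Sum.inl p) =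
      (∏ i, s i ^ d i) * ∏ p : Fin n × Fin 3, (Sum.elim u t (Sum.inl p)) ^ e (Sum.inl p) := by
    simp_rw [Sum.elim_inl, mul_pow]
    rw [Finset.prod_mul_distrib]
    congr 1
    rw [Fintype.prod_prod_type]
    refine Finset.prod_congr rfl (fun i _ => ?_)
    change ∏ y, s i ^ e (Sum.inl (i, y)) = s i ^ d i
    rw [Finset.prod_pow_eq_pow_sum, hf e he i]
  rw [h1]
  simp only [Sum.elim_inr]
  ring

end hom

section loc

variable {L : Type} [NormedField L] [IsUltrametricDist L] [ProperSpace L]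

lemma eval_nc' {n m : ℕ} {V : Fin n → WeierstrassCurve L} (hV : ∀ i, SI (V i)) {d : Fin n → ℕ}
    {f : MvPolynomial ((Fin n × Fin 3) ⊕ Fin m) L} (hf : PHom d f) (t : Fin m → L)
    (P : (i : Fin n) → (V i).toAffine.Point) :
    eval (Sum.elim (fun p => crd (P p.1) p.2) t) f = 0 ↔
      eval (Sum.elim (fun p => nc (P p.1) p.2) t) f = 0 := by
  choose s hs0 hs1 hs2 using fun i => crd_eq_smul_nc (hV i) (P i)
  have e : (fun p : Fin n × Fin 3 => crd (P p.1) p.2) = fun p => s p.1 * nc (P p.1) p.2 := by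
    funext p
    exact hs1 p.1 p.2
  rw [e, hf.eval_smul s (fun p => nc (P p.1) p.2) t, mul_eq_zero, or_iff_right]
  exact Finset.prod_ne_zero_iff.2 fun i _ => pow_ne_zero _ (hs0 i)

/-- the version of `loc_main` for families -/
theorem loc_fam (h2 : ‖(2 : L)‖ = 1 / 2) {n m : ℕ} (V : Fin n → WeierstrassCurve L)
    (hV : ∀ i, SI (V i)) (hD : ∀ i, 4 * (V i).a₄ ^ 3 + 27 * (V i).a₆ ^ 2 ≠ 0)
    (S : Set (MvPolynomial ((Fin n × Fin 3) ⊕ Fin m) L)) (hS : ∀ f ∈ S, ∃ d, PHom d f)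
    (U : Set (Fin m → L)) (hU : IsCompact U)
    (hno : ∀ t ∈ U, ∀ P : (i : Fin n) → (V i).toAffine.Point,
      (∀ f ∈ S, eval (Sum.elim (fun p => crd (P p.1) p.2) t) f = 0) →
      ∃ i, ∀ m : ℕ, Odd m → m • P i ≠ 0) :
    ∃ k : ℕ, ∀ t ∈ U, ∀ P : (i : Fin n) → (V i).toAffine.Point,
      (∀ f ∈ S, eval (Sum.elim (fun p => crd (P p.1) p.2) t) f = 0) →
      ∃ i, ∀ Q : (V i).toAffine.Point, P i ≠ 2 ^ k • Q := by
  have h20 : (2 : L) ≠ 0 := by
    intro h
    rw [h, norm_zero] at h2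
    norm_num at h2
  by_contra hcon
  push Not at hcon
  choose t htU P hPS Q hQ using hcon
  have hexp : ∀ i, ∃ N : ℕ, 0 < N ∧ ∀ T : (V i).toAffine.Point, Big 2 (N • T) := fun i =>
    exists_expo' (hV i) (hD i) h20 2 (by norm_num)
  choose N hN0 hN using hexp
  obtain ⟨t', ht'U, ht'⟩ := hU.ultrafilter_le_nhds ((hyperfilter ℕ).map t) (by
    rw [le_principal_iff]
    exact Filter.mem_map.2 (Filter.univ_mem' fun k => htU k))
  have ht : Tendsto t (hyperfilter ℕ) (𝓝 t') := ht'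
  have hlim : ∀ i, ∃ Pi : (V i).toAffine.Point, ∀ j,
      Tendsto (fun k => nc (P k i) j) (hyperfilter ℕ) (𝓝 (nc Pi j)) := fun i =>
    lim_point (hV i) (hD i) h20 (hyperfilter ℕ) (fun k => P k i)
  choose P' hP' using hlim
  obtain ⟨i, hi⟩ := hno t' ht'U P' (by
    intro f hf
    obtain ⟨d, hd⟩ := hS f hf
    rw [eval_nc' hV hd]
    have h1 : Tendsto (fun k => eval (Sum.elim (fun p : Fin n × Fin 3 => nc (P k p.1) p.2) (t k)) f)
        (hyperfilter ℕ) (𝓝 (eval (Sum.elim (fun p => nc (P' p.1) p.2) t') f)) := by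
      have hcont : Continuous fun u : (Fin n × Fin 3) ⊕ Fin m → L => eval u f :=
        MvPolynomial.continuous_eval f
      refine (hcont.tendsto _).comp ?_
      rw [tendsto_pi_nhds]
      rintro (p | j)
      · exact hP' p.1 p.2
      · exact (tendsto_pi_nhds.1 ht) j
    refine tendsto_nhds_unique h1 (tendsto_const_nhds.congr fun k => ?_)
    exact ((eval_nc' hV hd (t k) (P k)).1 (hPS k f hf)).symm)
  obtain ⟨a, r0, hm, hNam⟩ := Nat.exists_eq_two_pow_mul_odd (hN0 i).ne'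
  refine hi r0 hm (zero_of_big fun R hR => ?_)
  obtain ⟨d, hd0, -, hd⟩ := (hV i).exists_near h20 (hD i) hR
  have h1 : ∀ᶠ k in (hyperfilter ℕ : Filter ℕ), ∀ j, ‖nc (P k i) j - nc (P' i) j‖ < d := by
    rw [eventually_all]
    intro j
    have := (hP' i j).sub (tendsto_const_nhds (x := nc (P' i) j))
    rw [sub_self] at this
    have h3 := this.norm
    rw [norm_zero] at h3
    exact h3.eventually_lt_const hd0
  obtain ⟨r, hr⟩ := pow_unbounded_of_one_lt R (by norm_num : (1 : ℝ) < 4)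
  have hge : ∀ᶠ k in (hyperfilter ℕ : Filter ℕ), a + r ≤ k := by
    have hle : (hyperfilter ℕ : Filter ℕ) ≤ cofinite := hyperfilter_le_cofinite
    rw [Nat.cofinite_eq_atTop] at hle
    exact hle (eventually_ge_atTop (a + r))
  obtain ⟨k, hk1, hk2⟩ := (h1.and hge).exists
  have h3 : Big R (r0 • (P k i - P' i)) := (hV i).big_nsmul h20 hR (hd _ _ hk1) r0
  have h4 : Big R (r0 • P k i) := by
    obtain ⟨s, rfl⟩ := Nat.exists_eq_add_of_le hk2
    have e : r0 • P (a + r + s) i = 2 ^ (r + s) • (N i • Q (a + r + s) i) := by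
      rw [hQ (a + r + s) i, hNam, ← mul_smul, ← mul_smul]
      congr 1
      rw [pow_add, pow_add, pow_add]
      ring
    rw [e]
    have h5 := big_pow (hV i) h2 (by norm_num : (1 : ℝ) < 2) (hN i (Q (a + r + s) i)) (r + s)
    refine big_mono ?_ h5
    have h6 : (4 : ℝ) ^ r ≤ 4 ^ (r + s) := pow_le_pow_right₀ (by norm_num) (by omega)
    have h7 : (0 : ℝ) < 4 ^ (r + s) := by positivity
    linarith
  have e2 : r0 • P' i = r0 • P k i - r0 • (P k i - P' i) := by
    rw [smul_sub]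
    abel
  rw [e2]
  exact (hV i).big_sub h20 hR h4 h3

end loc

section main

variable {n m : ℕ} {W : Fin n → WeierstrassCurve ℤ}

/-- the equations of the member of the family -/
noncomputable def member (K : Type) [Field K] [Algebra ℚ K]
    (S : Set (MvPolynomial ((Fin n × Fin 3) ⊕ Fin m) ℚ)) (t : Fin m → K) :
    Set (MvPolynomial (Fin n × Fin 3) K) :=
  {g | ∃ f ∈ S, g = eval₂ (C.comp (algebraMap ℚ K)) (Sum.elim X (fun i => C (t i))) f}

lemma member_eval {K L : Type} [Field K] [Algebra ℚ K] [Field L] (φ : K →+* L)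
    (u : Fin n × Fin 3 → L) (t : Fin m → K) (f : MvPolynomial ((Fin n × Fin 3) ⊕ Fin m) ℚ) :
    eval₂ φ u (eval₂ (C.comp (algebraMap ℚ K)) (Sum.elim X (fun i => C (t i))) f :
      MvPolynomial (Fin n × Fin 3) K) =
      eval₂ (φ.comp (algebraMap ℚ K)) (Sum.elim u (fun i => φ (t i))) f := by
  have h := MvPolynomial.hom_eval₂ f (C.comp (algebraMap ℚ K))
    (eval₂Hom φ u : MvPolynomial (Fin n × Fin 3) K →+* L) (Sum.elim X (fun i => C (t i)))
  rw [coe_eval₂Hom] at h
  rw [h]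
  have e1 : (eval₂Hom φ u).comp (C.comp (algebraMap ℚ K)) = φ.comp (algebraMap ℚ K) :=
    RingHom.ext fun q => by
      rw [RingHom.comp_apply, RingHom.comp_apply, RingHom.comp_apply, coe_eval₂Hom, eval₂_C]
  have e2 : (fun i => eval₂Hom φ u (Sum.elim X (fun i => C (t i)) i)) =
      Sum.elim u (fun i => φ (t i)) := by
    funext i
    rcases i with p | i
    · simp
    · simp
  rw [e1]
  congr 1

/-- **Families over all Galois 2-extensions.** -/
theorem thmB (hW : ∀ i, (W i).a₁ = 0 ∧ (W i).a₂ = 0 ∧ (W i).a₃ = 0) (hΔ : ∀ i, (W i).Δ ≠ 0)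
    (hT : ∀ i, Triv (W i)) (S : Set (MvPolynomial ((Fin n × Fin 3) ⊕ Fin m) ℚ))
    (hS : ∀ f ∈ S, ∃ d, PHom d f) (U : Set (Fin m → ℚ_[2])) (hU : IsCompact U)
    (hno : ∀ t ∈ U, ∀ P : (i : Fin n) → (base (W i) ℚ_[2]).toAffine.Point,
      (∀ f ∈ S, eval₂ (algebraMap ℚ ℚ_[2]) (Sum.elim (fun p => crd (P p.1) p.2) t) f = 0) →
      ∃ i, ∀ m : ℕ, Odd m → m • P i ≠ 0) :
    ∃ k : ℕ, ∀ (K : Type) [Field K] [NumberField K], TwoExt W K →
      ∀ v : HeightOneSpectrum (𝓞 K), ∀ e : v.adicCompletion K ≃+* ℚ_[2], ∀ t : Fin m → K,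
      (fun i => e (algebraMap K (v.adicCompletion K) (t i))) ∈ U →
      SelSet (fun i => base (W i) K) (member K S t) (2 ^ k) = ∅ := by
  obtain ⟨k, hk⟩ := loc_fam norm_two' (fun i => base (W i) ℚ_[2])
    (fun i => si_base (W i) (hW i).1 (hW i).2.1 (hW i).2.2)
    (fun i => disc_base (W i) (hW i).1 (hW i).2.1 (hW i).2.2 (hΔ i))
    {f | ∃ g ∈ S, f = map (algebraMap ℚ ℚ_[2]) g}
    (by
      rintro f ⟨g, hg, rfl⟩
      obtain ⟨d, hd⟩ := hS g hg
      exact ⟨d, fun m hm => hd m (MvPolynomial.support_map_subset _ _ hm)⟩) U hU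
    (fun t ht P hP => hno t ht P fun f hf => by
      rw [← eval_map]
      exact hP _ ⟨f, hf, rfl⟩)
  refine ⟨k, fun K _ _ hK v e t ht => ?_⟩
  rw [Set.eq_empty_iff_forall_notMem]
  intro ξ hξ
  obtain ⟨P, hP, hz⟩ := divisible (fun i => base (W i) K) (fun i => (hK.sel hΔ hT i).1)
    (fun i => (hK.sel hΔ hT i).2.1) (fun i => (hK.sel hΔ hT i).2.2) (member K S t) k ξ hξ v
  choose z hz using hz
  let g : v.adicCompletion K →+* ℚ_[2] := e.toRingHom
  have hφ : ∀ i, ∃ φ : ((base (W i) K).baseChange (v.adicCompletion K)).toAffine.Point →+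
      (base (W i) ℚ_[2]).toAffine.Point, ∀ P j, crd (φ P) j = g (crd P j) := by
    intro i
    refine transport g _ _ ?_
    show ((base (W i) K).map (algebraMap K (v.adicCompletion K))).map g = _
    rw [base_map, base_map]
  choose φ hφ using hφ
  obtain ⟨i, hi⟩ := hk _ ht (fun i => φ i (P i)) (by
    rintro _ ⟨f, hf, rfl⟩
    have h1 := hP _ ⟨f, hf, rfl⟩
    rw [aeval_def, member_eval] at h1
    have h2 := congrArg g h1
    rw [map_zero, MvPolynomial.hom_eval₂] at h2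
    rw [eval_map, ← h2]
    have e1 : (g.comp ((algebraMap K (v.adicCompletion K)).comp (algebraMap ℚ K))) =
        algebraMap ℚ ℚ_[2] := Subsingleton.elim _ _
    rw [e1]
    congr 1
    funext p
    rcases p with p | i
    · exact hφ p.1 (P p.1) p.2
    · rfl)
  apply hi (φ i (z i))
  rw [hz i, map_nsmul]

end main

end Pool.Agent.R425.D
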