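import Pool.Agent.R425.D.Fam

/-!
# An example of a family
-/

set_option autoImplicit false
set_option linter.all false

open IsDedekindDomain NumberField WeierstrassCurve MvPolynomial Filter Topology

namespace Pool.Agent.R425.D

open Pool.Agent.TH954
open Pool.Agent.Y702.G (base pts)

open scoped Classical

section ph

variable {F : Type} [Field F] {n m : ℕ}

lemma PHom.mul {d e : Fin n → ℕ} {f g : MvPolynomial ((Fin n × Fin 3) ⊕ Fin m) F} (hf : PHom d f)
    (hg : PHom e g) : PHom (d + e) (f * g) := by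
  intro s hs i
  obtain ⟨a, ha, b, hb, rfl⟩ := Finset.mem_add.1 (MvPolynomial.support_mul f g hs)
  simp only [Finsupp.add_apply, Finset.sum_add_distrib, hf a ha, hg b hb, Pi.add_apply]

lemma PHom.add {d : Fin n → ℕ} {f g : MvPolynomial ((Fin n × Fin 3) ⊕ Fin m) F} (hf : PHom d f)
    (hg : PHom d g) : PHom d (f + g) := by
  intro s hs
  rcases Finset.mem_union.1 (MvPolynomial.support_add hs) with h | h
  · exact hf s h
  · exact hg s h

lemma PHom.neg {d : Fin n → ℕ} {f : MvPolynomial ((Fin n × Fin 3) ⊕ Fin m) F} (hf : PHom d f) :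
    PHom d (-f) := by
  intro s hs
  rw [MvPolynomial.support_neg] at hs
  exact hf s hs

lemma PHom.sub {d : Fin n → ℕ} {f g : MvPolynomial ((Fin n × Fin 3) ⊕ Fin m) F} (hf : PHom d f)
    (hg : PHom d g) : PHom d (f - g) := by
  rw [sub_eq_add_neg]
  exact hf.add hg.neg

lemma PHom.const (c : F) :
    PHom (0 : Fin n → ℕ) (C c : MvPolynomial ((Fin n × Fin 3) ⊕ Fin m) F) := by
  intro s hs i
  have h1 : s = 0 := by
    by_contra h
    rw [mem_support_iff, coeff_C, if_neg (fun h' => h h'.symm)] at hs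
    exact hs rfl
  subst h1
  simp

lemma PHom.cmul {d : Fin n → ℕ} {f : MvPolynomial ((Fin n × Fin 3) ⊕ Fin m) F} (c : F)
    (hf : PHom d f) : PHom d (C c * f) := by
  have := (PHom.const (m := m) c).mul hf
  rwa [zero_add] at this

lemma PHom.par (j : Fin m) :
    PHom (0 : Fin n → ℕ) (X (Sum.inr j) : MvPolynomial ((Fin n × Fin 3) ⊕ Fin m) F) := by
  intro s hs i
  rw [support_X, Finset.mem_singleton] at hs
  subst hs
  refine Finset.sum_eq_zero fun b _ => ?_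
  rw [Finsupp.single_apply, if_neg]
  intro h'
  cases h'

lemma PHom.mono (i : Fin n) (j : Fin 3) (k : ℕ) :
    PHom (Pi.single i k : Fin n → ℕ)
      (X (Sum.inl (i, j)) ^ k : MvPolynomial ((Fin n × Fin 3) ⊕ Fin m) F) := by
  intro s hs i'
  rw [X_pow_eq_monomial] at hs
  have hs' : s = Finsupp.single (Sum.inl (i, j)) k := by
    have := MvPolynomial.support_monomial_subset hs
    rwa [Finset.mem_singleton] at this
  subst hs'
  by_cases hi : i' = i
  · subst hi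
    rw [Finset.sum_eq_single j]
    · simp
    · intro b _ hb
      rw [Finsupp.single_apply, if_neg]
      intro h'
      exact hb (Prod.ext_iff.1 (Sum.inl.inj h')).2.symm
    · intro h'
      exact absurd (Finset.mem_univ _) h'
  · rw [Pi.single_apply, if_neg hi]
    refine Finset.sum_eq_zero fun b _ => ?_
    rw [Finsupp.single_apply, if_neg]
    intro h'
    exact hi (Prod.ext_iff.1 (Sum.inl.inj h')).1.symm

end ph

section ex

/-- `Y ^ 2 - a X Z - b Z ^ 2` for the curve `X_0(11)` -/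
noncomputable def qf (i : Fin 2) : MvPolynomial ((Fin 2 × Fin 3) ⊕ Fin 1) ℚ :=
  X (Sum.inl (i, 1)) ^ 2 + C 13392 * (X (Sum.inl (i, 0)) ^ 1 * X (Sum.inl (i, 2)) ^ 1) +
    C 1080432 * X (Sum.inl (i, 2)) ^ 2

lemma ph_qf (i : Fin 2) : PHom (Pi.single i 2) (qf i) := by
  unfold qf
  refine ((PHom.mono i 1 2).add ?_).add ?_
  · refine PHom.cmul _ ?_
    have h := (PHom.mono (F := ℚ) (m := 1) i 0 1).mul (PHom.mono (F := ℚ) (m := 1) i 2 1)
    rwa [← Pi.single_add] at h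
  · exact PHom.cmul _ (PHom.mono i 2 2)

/-- the equations of the curves `x_1 x_2 = t` on the square of `X_0(11)` -/
noncomputable def exF : Set (MvPolynomial ((Fin 2 × Fin 3) ⊕ Fin 1) ℚ) :=
  {X (Sum.inl (0, 0)) ^ 1 * X (Sum.inl (1, 0)) ^ 1 -
      X (Sum.inr 0) * (X (Sum.inl (0, 2)) ^ 1 * X (Sum.inl (1, 2)) ^ 1),
    qf 0 * X (Sum.inl (1, 0)) ^ 1 - X (Sum.inr 0) * (X (Sum.inl (0, 0)) ^ 2 * X (Sum.inl (1, 2)) ^ 1),
    X (Sum.inl (0, 0)) ^ 1 * qf 1 - X (Sum.inr 0) * (X (Sum.inl (0, 2)) ^ 1 * X (Sum.inl (1, 0)) ^ 2),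
    qf 0 * qf 1 - X (Sum.inr 0) * (X (Sum.inl (0, 0)) ^ 2 * X (Sum.inl (1, 0)) ^ 2)}

lemma exF_ph : ∀ f ∈ exF, ∃ d, PHom d f := by
  have a := fun (i : Fin 2) (k : ℕ) => PHom.mono (F := ℚ) (m := 1) i 0 k
  have b := fun (i : Fin 2) (k : ℕ) => PHom.mono (F := ℚ) (m := 1) i 2 k
  have p : ∀ {d : Fin 2 → ℕ} {f : MvPolynomial ((Fin 2 × Fin 3) ⊕ Fin 1) ℚ}, PHom d f →
      PHom d (X (Sum.inr 0) * f) := by
    intro d f hf
    have := (PHom.par (F := ℚ) (n := 2) (m := 1) 0).mul hf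
    rwa [zero_add] at this
  rintro f (rfl | rfl | rfl | rfl)
  · exact ⟨_, ((a 0 1).mul (a 1 1)).sub (p ((b 0 1).mul (b 1 1)))⟩
  · exact ⟨_, ((ph_qf 0).mul (a 1 1)).sub (p ((a 0 2).mul (b 1 1)))⟩
  · exact ⟨_, ((a 0 1).mul (ph_qf 1)).sub (p ((b 0 1).mul (a 1 2)))⟩
  · exact ⟨_, ((ph_qf 0).mul (ph_qf 1)).sub (p ((a 0 2).mul (a 1 2)))⟩

lemma compact_units : IsCompact {t : Fin 1 → ℚ_[2] | ‖t 0‖ = 1} := by
  refine Metric.isCompact_of_isClosed_isBounded ?_ ?_
  · exact isClosed_eq (continuous_norm.comp (continuous_apply 0)) continuous_const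
  · refine (Metric.isBounded_closedBall (x := (0 : Fin 1 → ℚ_[2])) (r := 1)).subset ?_
    intro t ht
    rw [mem_closedBall_zero_iff, pi_norm_le_iff_of_nonneg zero_le_one]
    intro i
    rw [Subsingleton.elim i 0]
    exact (show ‖t 0‖ = 1 from ht).le

theorem exF_free (t : Fin 1 → ℚ_[2]) (ht : ‖t 0‖ = 1)
    (P : (i : Fin 2) → (base E11s ℚ_[2]).toAffine.Point)
    (hP : ∀ f ∈ exF, eval₂ (algebraMap ℚ ℚ_[2]) (Sum.elim (fun p => crd (P p.1) p.2) t) f = 0) :
    ∃ i, ∀ m : ℕ, Odd m → m • P i ≠ 0 := by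
  by_contra hcon
  push Not at hcon
  choose m hm1 hm2 using hcon
  have hq : ∀ i, P i = 0 ∨ ∃ c : ℤ, (c = 168 ∨ c = 564) ∧ crd (P i) 0 = (c : ℚ_[2]) ∧
      crd (P i) 2 = 1 := fun i => oddPts11 (P i) (m i) (hm1 i) (hm2 i)
  have h1 := hP _ (Or.inl rfl)
  have h2 := hP _ (Or.inr (Or.inl rfl))
  have h3 := hP _ (Or.inr (Or.inr (Or.inl rfl)))
  have h4 := hP _ (Or.inr (Or.inr (Or.inr rfl)))
  simp only [qf, eval₂_sub, eval₂_add, eval₂_mul, eval₂_pow, eval₂_X, eval₂_C, Sum.elim_inl,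
    Sum.elim_inr, pow_one] at h1 h2 h3 h4
  rcases hq 0 with h0 | ⟨c, hc, hc0, hc2⟩ <;> rcases hq 1 with h0' | ⟨c', hc', hc0', hc2'⟩
  · rw [h0, h0'] at h4
    simp [crd_zero] at h4
  · rw [h0, hc0', hc2'] at h2
    simp [crd_zero] at h2
    rcases hc' with rfl | rfl <;> norm_num at h2
  · rw [h0', hc0, hc2] at h3
    simp [crd_zero] at h3
    rcases hc with rfl | rfl <;> norm_num at h3
  · rw [hc0, hc0', hc2, hc2'] at h1
    have h5 : ((c * c' : ℤ) : ℚ_[2]) = t 0 := by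
      push_cast
      linear_combination h1
    have h6 : ‖((c * c' : ℤ) : ℚ_[2])‖ < 1 := by
      rw [Padic.norm_intCast_lt_one_iff]
      rcases hc with rfl | rfl <;> rcases hc' with rfl | rfl <;> norm_num
    rw [h5, ht] at h6
    exact lt_irrefl _ h6

end ex

end Pool.Agent.R425.D
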