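import Pool.Agent.R425.D.X11
import Pool.Agent.R425.G.Al
import Pool.Agent.R425.T.Tow

/-!
# Two-power descent over Galois 2-extensions
-/

set_option autoImplicit false
set_option linter.all false

open IsDedekindDomain NumberField WeierstrassCurve MvPolynomial

namespace Pool.Agent.R425.D

open Pool.Agent.TH954
open Pool.Agent.Y702.G (base pts)

open scoped Classical

section

variable {K : Type} [Field K]

/-- The point `P` over the extension `L` of `K` lifts to the `N`-covering given by the `ξ i`. -/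
def CovAt {n : ℕ} (E : Fin n → WeierstrassCurve K) (N : ℕ)
    (ξ : (i : Fin n) → (AlgebraicClosure K ≃ₐ[K] AlgebraicClosure K) → AlgPt (E i) K)
    (L : Type) [Field L] [Algebra K L] (P : (i : Fin n) → ((E i).baseChange L).toAffine.Point) : Prop :=
  ∃ (ι : AlgebraicClosure K →ₐ[K] AlgebraicClosure L) (Q : (i : Fin n) → AlgPt (E i) L),
    (∀ i, N • Q i = incl (E i) L (P i)) ∧
      ∀ i σ τ, Compat ι σ τ → pm (E i) ι (ξ i τ) = act (E i) σ (Q i) - Q i

variable [NumberField K]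

/-- version of `divisible` for a given point -/
theorem divisible' {n : ℕ} (E : Fin n → WeierstrassCurve K)
    (hsha : ∀ i, ∀ s : Pool.Agent.TH841.NF.D.Sha (E i), 2 • s = 0 → s = 0)
    (hfin : ∀ i, Finite (E i).toAffine.Point)
    (h2tor : ∀ i, ∀ P : (E i).toAffine.Point, 2 • P = 0 → P = 0)
    (S : Set (MvPolynomial (Fin n × Fin 3) K)) (k : ℕ)
    (ξ : (i : Fin n) → (AlgebraicClosure K ≃ₐ[K] AlgebraicClosure K) → AlgPt (E i) K)
    (hξ : ξ ∈ SelSet E S (2 ^ k)) (L : Type) [Field L] [CharZero L] [Algebra K L]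
    (P : (i : Fin n) → ((E i).baseChange L).toAffine.Point) (hP : CovAt E (2 ^ k) ξ L P) :
    ∀ i, ∃ z, P i = 2 ^ k • z := by
  obtain ⟨h1, h2, h3, h4⟩ := hξ
  have hT : ∀ i, ∃ T : AlgPt (E i) K, 2 ^ k • T = 0 ∧ ∀ σ, ξ i σ = act (E i) σ T - T := by
    intro i
    refine cocycle_trivial (hsha i) (hfin i) (h2tor i) k (ξ i) (h1 i) (h2 i) (fun u => ?_) (fun w => ?_)
    · obtain ⟨ι, P, Q, -, -, h⟩ := h3 u
      exact ⟨ι, Q i, fun σ τ hστ => h i σ τ hστ⟩
    · obtain ⟨ι, P, Q, -, -, h⟩ := h4 w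
      exact ⟨ι, Q i, fun σ τ hστ => h i σ τ hστ⟩
  choose T hT1 hT2 using hT
  obtain ⟨ι, Q, hPQ, hQ⟩ := hP
  intro i
  have hfix : ∀ σ : AlgebraicClosure L ≃ₐ[L] AlgebraicClosure L,
      act (E i) σ (Q i - pm (E i) ι (T i)) = Q i - pm (E i) ι (T i) := by
    intro σ
    obtain ⟨τ, hτ⟩ := exists_compat ι σ
    have e1 : act (E i) σ (Q i) = Q i + pm (E i) ι (ξ i τ) := by
      rw [hQ i σ τ hτ]
      abel
    have e2 : act (E i) τ (T i) = T i + ξ i τ := by
      rw [hT2 i τ]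
      abel
    rw [act_sub, act_pm ι hτ, e1, e2, map_add]
    abel
  obtain ⟨z, hz⟩ := exists_of_fixed _ hfix
  refine ⟨z, incl_injective ?_⟩
  have e3 : pm (E i) ι (2 ^ k • T i) = 2 ^ k • pm (E i) ι (T i) := map_nsmul _ _ _
  rw [incl_nsmul, hz, ns_sub, hPQ i, ← e3, hT1 i, map_zero, sub_zero]

end

/-- `K` is a Galois extension of `ℚ` of degree a power of two, unramified outside the primes `l` of
good reduction modulo which all the curves have an odd number of points; the primes dividing two and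
the discriminants split completely in `K`; if one of the discriminants is positive then `K` is totally
real. -/
structure TwoExt {n : ℕ} (W : Fin n → WeierstrassCurve ℤ) (K : Type) [Field K] [NumberField K] :
    Prop where
  galois : IsGalois ℚ K
  degree : ∃ j, Module.finrank ℚ K = 2 ^ j
  ramified : ∀ l : ℕ, l.Prime → (l : ℤ) ∣ NumberField.discr K →
    ¬ (l : ℤ) ∣ 2 * ∏ i, (W i).Δ ∧ ∀ i, Odd (pts (W i) (ZMod l) + 1)
  split : ∀ v : HeightOneSpectrum (𝓞 K), ((2 * ∏ i, (W i).Δ : ℤ) : 𝓞 K) ∈ v.asIdeal →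
    (Ideal.absNorm v.asIdeal).Prime
  real : ∀ i, 0 < (W i).Δ → ∀ v : InfinitePlace K, v.IsReal

/-- the 2-Selmer group of `W` over `ℚ` is trivial -/
def Triv (W : WeierstrassCurve ℤ) : Prop :=
  Finite (base W ℚ).toAffine.Point ∧ Odd (Nat.card (base W ℚ).toAffine.Point) ∧
    ∀ s : Pool.Agent.TH841.NF.D.Sha (base W ℚ), 2 • s = 0 → s = 0

section

variable {n : ℕ} {W : Fin n → WeierstrassCurve ℤ} {K : Type} [Field K] [NumberField K]

/-- the 2-Selmer groups over the extension -/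
theorem TwoExt.sel (hK : TwoExt W K) (hΔ : ∀ i, (W i).Δ ≠ 0) (hW : ∀ i, Triv (W i)) (i : Fin n) :
    (∀ s : Pool.Agent.TH841.NF.D.Sha (base (W i) K), 2 • s = 0 → s = 0) ∧
      Finite (base (W i) K).toAffine.Point ∧
      ∀ P : (base (W i) K).toAffine.Point, 2 • P = 0 → P = 0 := by
  have := hK.galois
  obtain ⟨j, hj⟩ := hK.degree
  obtain ⟨h1, h2, h3⟩ := hW i
  have hdvd : (2 * (W i).Δ) ∣ 2 * ∏ i, (W i).Δ :=
    mul_dvd_mul_left 2 (Finset.dvd_prod_of_mem (fun i => (W i).Δ) (Finset.mem_univ i))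
  obtain ⟨a1, a2⟩ := Pool.Agent.R425.T.sel_abs (W i) (hΔ i) h3 h1 h2 K j (NumberField.discr K).natAbs hj
    (fun l hl hlm => by
      have hl' : (l : ℤ) ∣ NumberField.discr K := Int.natCast_dvd.2 hlm
      obtain ⟨b1, b2⟩ := hK.ramified l hl hl'
      refine ⟨fun h => b1 (h.trans hdvd), ?_⟩
      have hl2 : l ≠ 2 := by
        rintro rfl
        exact b1 (Dvd.intro _ rfl)
      have h6 : Odd (l : ℤ) := by
        rw [Int.odd_coe_nat]
        exact hl.odd_of_ne_two hl2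
      have h7 : Even ((pts (W i) (ZMod l) : ℕ) : ℤ) := by
        have h8 : Even (pts (W i) (ZMod l)) := by
          have := b2 i
          rcases Nat.even_or_odd (pts (W i) (ZMod l)) with h | h
          · exact h
          · exact absurd (h.add_one) (Nat.not_even_iff_odd.2 this)
        exact_mod_cast h8
      exact h6.sub_even h7)
    (fun p hp hpm v hv => Pool.Agent.R425.unr_of_disc K hp (fun h => hpm (Int.natCast_dvd.1 h)) v hv)
    (fun v hv => hK.split v (by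
      obtain ⟨c, hc⟩ := hdvd
      rw [hc, Int.cast_mul]
      exact v.asIdeal.mul_mem_right _ hv))
    (hK.real i)
  refine ⟨a1, a2, fun P hP => ?_⟩
  rw [two_nsmul] at hP
  exact Pool.Agent.R425.G.two_tors (W i) (hΔ i)
    (Pool.Agent.Y702.G.no_root _ (Pool.Agent.Y702.G.no_root_of_odd (W i) (hΔ i) h1 h2) K j hj) P hP

/-- the places above two -/
theorem TwoExt.two (hK : TwoExt W K) (hΔ : ∀ i, (W i).Δ ≠ 0) (v : HeightOneSpectrum (𝓞 K))
    (hv : ((2 : ℕ) : 𝓞 K) ∈ v.asIdeal) : Ideal.absNorm v.asIdeal = 2 ∧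
      v.valuation K ((2 : ℕ) : K) = WithZero.exp (-1 : ℤ) := by
  have h2 : ((2 : ℕ) : 𝓞 K) = (2 : 𝓞 K) := by norm_num
  constructor
  · have hp : (Ideal.absNorm v.asIdeal).Prime := by
      refine hK.split v ?_
      rw [Int.cast_mul]
      refine v.asIdeal.mul_mem_right _ ?_
      rw [h2] at hv
      exact_mod_cast hv
    have h3 : Ideal.absNorm v.asIdeal ∣ Ideal.absNorm (Ideal.span {((2 : ℕ) : 𝓞 K)}) :=
      Ideal.absNorm_dvd_absNorm_of_le ((Ideal.span_singleton_le_iff_mem _).2 hv)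
    have h4 : Ideal.absNorm (Ideal.span {((2 : ℕ) : 𝓞 K)}) = 2 ^ Module.finrank ℤ (𝓞 K) := by
      rw [Ideal.absNorm_span_singleton]
      have : ((2 : ℕ) : 𝓞 K) = algebraMap ℤ (𝓞 K) 2 := by
        rw [h2]
        simp
      rw [this, Algebra.norm_algebraMap, Int.natAbs_pow]
      rfl
    rw [h4] at h3
    exact (Nat.prime_dvd_prime_iff_eq hp Nat.prime_two).1 (hp.dvd_of_dvd_pow h3)
  · refine Pool.Agent.R425.unr_of_disc K Nat.prime_two (fun h => ?_) v hv
    exact (hK.ramified 2 Nat.prime_two h).1 (Dvd.intro _ rfl)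

lemma exists_two (K : Type) [Field K] [NumberField K] :
    ∃ v : HeightOneSpectrum (𝓞 K), ((2 : ℕ) : 𝓞 K) ∈ v.asIdeal := by
  have hne : Ideal.span {((2 : ℕ) : 𝓞 K)} ≠ ⊤ := by
    intro h
    rw [Ideal.span_singleton_eq_top] at h
    have h1 := Ideal.absNorm_span_singleton ((2 : ℕ) : 𝓞 K)
    rw [Ideal.span_singleton_eq_top.2 h, Ideal.absNorm_top] at h1
    have h2 : ((2 : ℕ) : 𝓞 K) = algebraMap ℤ (𝓞 K) 2 := by simp
    rw [h2, Algebra.norm_algebraMap, Int.natAbs_pow] at h1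
    have h3 : 0 < Module.finrank ℤ (𝓞 K) := by
      rw [RingOfIntegers.rank]
      exact Module.finrank_pos
    have h4 : (2 : ℕ) ^ 1 ≤ 2 ^ Module.finrank ℤ (𝓞 K) := Nat.pow_le_pow_right (by norm_num) h3
    have h5 : (1 : ℕ) = 2 ^ Module.finrank ℤ (𝓞 K) := h1
    omega
  obtain ⟨m, hm, hle⟩ := Ideal.exists_le_maximal _ hne
  have hmem : ((2 : ℕ) : 𝓞 K) ∈ m := hle (Ideal.mem_span_singleton_self _)
  refine ⟨⟨m, hm.isPrime, ?_⟩, hmem⟩
  rintro rfl
  rw [Ideal.mem_bot] at hmem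
  have : ((2 : ℕ) : 𝓞 K) ≠ 0 := by
    rw [Nat.cast_ne_zero]
    norm_num
  exact this hmem

end

end Pool.Agent.R425.D
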