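import Pool.Agent.TH954.Expo
import Pool.Agent.Y46.G2.EmbA

/-!
# The completion at a place of degree one over two
-/

set_option autoImplicit false
set_option linter.all false

open NumberField IsDedekindDomain Filter Topology WithZero

namespace Pool.Agent.R425.D

open scoped Classical

section

variable {K : Type} [Field K] [NumberField K] (v : HeightOneSpectrum (𝓞 K))

lemma norm_lt_one' {x : K} :
    ‖algebraMap K (v.adicCompletion K) x‖ < 1 ↔ v.valuation K x < 1 := by
  rw [Valued.toNormedField.norm_lt_one_iff]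
  exact Iff.of_eq (congrArg (· < 1) (HeightOneSpectrum.valuedAdicCompletion_eq_valuation' v x))

lemma norm_le_one' {x : K} :
    ‖algebraMap K (v.adicCompletion K) x‖ ≤ 1 ↔ v.valuation K x ≤ 1 := by
  rw [Valued.toNormedField.norm_le_one_iff]
  exact Iff.of_eq (congrArg (· ≤ 1) (HeightOneSpectrum.valuedAdicCompletion_eq_valuation' v x))

/-- residues modulo a prime of norm two -/
lemma residue (hcard : Ideal.absNorm v.asIdeal = 2) (n : 𝓞 K) : n ∈ v.asIdeal ∨ n - 1 ∈ v.asIdeal := by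
  have hc : Nat.card (𝓞 K ⧸ v.asIdeal) = 2 := by
    rw [← hcard, Ideal.absNorm_apply, Submodule.cardQuot_apply]
  have hfin : Finite (𝓞 K ⧸ v.asIdeal) := Nat.finite_of_card_ne_zero (by rw [hc]; norm_num)
  have h2 := (Nat.card_eq_two_iff' (0 : 𝓞 K ⧸ v.asIdeal)).1 hc
  obtain ⟨y, hy, hy2⟩ := h2
  have h1 : (1 : 𝓞 K ⧸ v.asIdeal) = y := hy2 1 (by
    intro h
    have := v.isPrime.ne_top
    apply this
    rw [Ideal.eq_top_iff_one, ← Ideal.Quotient.eq_zero_iff_mem]
    rw [map_one]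
    exact h)
  by_cases h : n ∈ v.asIdeal
  · exact Or.inl h
  · right
    rw [← Ideal.Quotient.eq_zero_iff_mem, map_sub, map_one, h1]
    have : Ideal.Quotient.mk v.asIdeal n = y := hy2 _ (by
      intro h'
      exact h (Ideal.Quotient.eq_zero_iff_mem.1 h'))
    rw [this, sub_self]

/-- every integral element of the completion is congruent to 0 or 1 -/
lemma digit (hcard : Ideal.absNorm v.asIdeal = 2) (z : v.adicCompletion K) (hz : ‖z‖ ≤ 1) :
    ∃ e : ℤ, ‖z - (e : v.adicCompletion K)‖ < 1 := by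
  obtain ⟨x, hx⟩ := Pool.Agent.TH954.exists_approx v one_pos z
  have hx1 : ‖algebraMap K (v.adicCompletion K) x‖ ≤ 1 := by
    have e : algebraMap K (v.adicCompletion K) x = z - (z - algebraMap K (v.adicCompletion K) x) := by
      ring
    rw [e]
    exact Pool.Agent.TH954.usub hz hx.le
  rw [norm_le_one'] at hx1
  obtain ⟨n, d, hnd⟩ := v.exists_primeCompl_mul_eq_of_integer x hx1
  have hd : (d : 𝓞 K) ∉ v.asIdeal := d.2
  have hdv : v.valuation K (algebraMap (𝓞 K) K d) = 1 := v.valuation_eq_one_iff_notMem.2 hd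
  have key : ∃ e : ℤ, v.valuation K (x - (e : K)) < 1 := by
    rcases residue v hcard n with h | h
    · refine ⟨0, ?_⟩
      rw [Int.cast_zero, sub_zero]
      have h1 := congrArg (fun t => v.valuation K t) hnd
      simp only [map_mul] at h1
      rw [hdv, mul_one] at h1
      rw [h1]
      exact (v.valuation_lt_one_iff_mem _).2 h
    · refine ⟨1, ?_⟩
      rw [Int.cast_one]
      have hd1 : (d : 𝓞 K) - 1 ∈ v.asIdeal := (residue v hcard d).resolve_left hd
      have hnd1 : n - d ∈ v.asIdeal := by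
        have e : n - (d : 𝓞 K) = (n - 1) - ((d : 𝓞 K) - 1) := by ring
        rw [e]
        exact v.asIdeal.sub_mem h hd1
      have h2 : (x - 1) * algebraMap (𝓞 K) K d = algebraMap (𝓞 K) K (n - d) := by
        rw [map_sub, ← hnd]
        ring
      have h1 := congrArg (fun t => v.valuation K t) h2
      simp only [map_mul] at h1
      rw [hdv, mul_one] at h1
      rw [h1]
      exact (v.valuation_lt_one_iff_mem _).2 hnd1
  obtain ⟨e, he⟩ := key
  refine ⟨e, ?_⟩
  rw [← norm_lt_one'] at he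
  have e1 : z - (e : v.adicCompletion K) = (z - algebraMap K (v.adicCompletion K) x) +
      algebraMap K (v.adicCompletion K) (x - (e : K)) := by
    rw [map_sub, map_intCast]
    ring
  rw [e1]
  exact Pool.Agent.TH954.uadd_lt hx he

/-- the norm of two -/
lemma norm_two (hcard : Ideal.absNorm v.asIdeal = 2)
    (hunr : v.valuation K ((2 : ℕ) : K) = WithZero.exp (-1 : ℤ)) :
    ‖(2 : v.adicCompletion K)‖ < 1 ∧ ∀ w : v.adicCompletion K, ‖w‖ < 1 →
      ‖w‖ ≤ ‖(2 : v.adicCompletion K)‖ := by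
  have h1 : (2 : v.adicCompletion K) = algebraMap K (v.adicCompletion K) ((2 : ℕ) : K) := by
    rw [map_natCast]
    norm_num
  have h2 : Valued.v (2 : v.adicCompletion K) = WithZero.exp (-1 : ℤ) := by
    rw [h1]
    exact (HeightOneSpectrum.valuedAdicCompletion_eq_valuation' v _).trans hunr
  have h3 : WithZero.exp (-1 : ℤ) < 1 := by
    rw [← WithZero.exp_zero, WithZero.exp_lt_exp]
    norm_num
  refine ⟨?_, fun w hw => ?_⟩
  · rw [Valued.toNormedField.norm_lt_one_iff, h2]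
    exact h3
  · rw [Valued.toNormedField.norm_le_iff, h2]
    rw [Valued.toNormedField.norm_lt_one_iff] at hw
    by_cases h0 : Valued.v w = 0
    · rw [h0]
      exact zero_le'
    · rw [← WithZero.exp_log h0] at hw ⊢
      rw [← WithZero.exp_zero, WithZero.exp_lt_exp] at hw
      rw [WithZero.exp_le_exp]
      omega

/-- integers are dense in the integral elements of the completion -/
lemma dense_int (hcard : Ideal.absNorm v.asIdeal = 2)
    (hunr : v.valuation K ((2 : ℕ) : K) = WithZero.exp (-1 : ℤ)) (n : ℕ) :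
    ∀ z : v.adicCompletion K, ‖z‖ ≤ 1 →
      ∃ m : ℤ, ‖z - (m : v.adicCompletion K)‖ ≤ ‖(2 : v.adicCompletion K)‖ ^ n := by
  obtain ⟨h2, h3⟩ := norm_two v hcard hunr
  have h20 : (2 : v.adicCompletion K) ≠ 0 := Pool.Agent.TH954.two_ne v
  induction n with
  | zero =>
    intro z hz
    refine ⟨0, ?_⟩
    rw [Int.cast_zero, sub_zero, pow_zero]
    exact hz
  | succ n ih =>
    intro z hz
    obtain ⟨e, he⟩ := digit v hcard z hz
    have h4 := h3 _ he
    have h5 : ‖(z - (e : v.adicCompletion K)) / 2‖ ≤ 1 := by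
      rw [norm_div, div_le_one (norm_pos_iff.2 h20)]
      exact h4
    obtain ⟨m, hm⟩ := ih _ h5
    refine ⟨e + 2 * m, ?_⟩
    have e1 : z - ((e + 2 * m : ℤ) : v.adicCompletion K) =
        2 * ((z - (e : v.adicCompletion K)) / 2 - (m : v.adicCompletion K)) := by
      push_cast
      field_simp
      ring
    rw [e1, norm_mul, pow_succ, mul_comm (‖(2 : v.adicCompletion K)‖ ^ n)]
    exact mul_le_mul_of_nonneg_left hm (norm_nonneg _)

/-- the completion at a place of degree one over two is the field of the 2-adic numbers -/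
theorem split_iso (hcard : Ideal.absNorm v.asIdeal = 2)
    (hunr : v.valuation K ((2 : ℕ) : K) = WithZero.exp (-1 : ℤ)) :
    Nonempty (ℚ_[2] ≃+* v.adicCompletion K) := by
  obtain ⟨h2, h3⟩ := norm_two v hcard hunr
  have h20 : (2 : v.adicCompletion K) ≠ 0 := Pool.Agent.TH954.two_ne v
  have hmem2 : ((2 : ℕ) : 𝓞 K) ∈ v.asIdeal := by
    rw [← v.valuation_lt_one_iff_mem (K := K)]
    have e : algebraMap (𝓞 K) K ((2 : ℕ) : 𝓞 K) = ((2 : ℕ) : K) := map_natCast _ 2
    show v.valuation K (algebraMap (𝓞 K) K ((2 : ℕ) : 𝓞 K)) < 1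
    rw [e, hunr, ← WithZero.exp_zero, WithZero.exp_lt_exp]
    norm_num
  let u : HeightOneSpectrum (𝓞 ℚ) :=
    (Rat.HeightOneSpectrum.primesEquiv (R := 𝓞 ℚ)).symm ⟨2, Nat.prime_two⟩
  have hu : Rat.HeightOneSpectrum.primesEquiv u = (⟨2, Nat.prime_two⟩ : Nat.Primes) :=
    Equiv.apply_symm_apply _ _
  -- valuations
  have hodd : ∀ b : ℤ, ¬ (2 : ℤ) ∣ b → v.valuation K ((b : ℤ) : K) = 1 := by
    intro b hb
    have e : ((b : ℤ) : K) = algebraMap (𝓞 K) K ((b : ℤ) : 𝓞 K) := by rw [map_intCast]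
    rw [e, v.valuation_eq_one_iff_notMem]
    intro hmem
    apply v.isPrime.ne_top
    rw [Ideal.eq_top_iff_one]
    obtain ⟨c, hc⟩ : ∃ c, b = 2 * c + 1 := by
      have h : Odd b := by
        rw [← Int.not_even_iff_odd]
        intro h
        exact hb h.two_dvd
      exact h
    have h5 : (1 : 𝓞 K) = ((b : ℤ) : 𝓞 K) - ((2 : ℕ) : 𝓞 K) * ((c : ℤ) : 𝓞 K) := by
      rw [hc]
      push_cast
      ring
    rw [h5]
    exact v.asIdeal.sub_mem hmem (v.asIdeal.mul_mem_right _ hmem2)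
  have hint : ∀ b : ℤ, v.valuation K ((b : ℤ) : K) ≤ 1 := by
    intro b
    have e : ((b : ℤ) : K) = algebraMap (𝓞 K) K ((b : ℤ) : 𝓞 K) := by rw [map_intCast]
    rw [e]
    exact v.valuation_le_one _
  have hval : ∀ x : ℚ, ¬ 2 ∣ x.den → v.valuation K (algebraMap ℚ K x) = v.valuation K ((x.num : ℤ) : K) := by
    intro x hx
    have e : algebraMap ℚ K x = ((x.num : ℤ) : K) / (((x.den : ℕ) : ℤ) : K) := by
      rw [eq_ratCast]
      have := Rat.cast_def (K := K) x
      rw [this]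
      push_cast
      rfl
    have h9 : v.valuation K ((((x.den : ℕ) : ℤ)) : K) = 1 := hodd _ (by exact_mod_cast hx)
    rw [e, map_div₀, h9, div_one]
  have hden : ∀ x : ℚ, u.valuation ℚ x ≤ 1 ↔ ¬ 2 ∣ x.den := by
    intro x
    have h1 := (Rat.HeightOneSpectrum.valuation_equiv_padicValuation u).le_one_iff_le_one (x := x)
    rw [h1, hu]
    haveI : Fact (Nat.Prime 2) := ⟨Nat.prime_two⟩
    exact Rat.padicValuation_le_one_iff
  have i1 : ∀ x : ℚ, u.valuation ℚ x ≤ 1 → v.valuation K (algebraMap ℚ K x) ≤ 1 := by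
    intro x hx
    rw [hval x ((hden x).1 hx)]
    exact hint _
  have i2 : ∀ x : ℚ, u.valuation ℚ x < 1 → v.valuation K (algebraMap ℚ K x) < 1 := by
    intro x hx
    rw [hval x ((hden x).1 hx.le)]
    have hx2 : (2 : ℤ) ∣ x.num := by
      by_contra hno
      by_cases hx0 : x = 0
      · rw [hx0] at hno
        exact hno (by simp)
      have h6 : ¬ 2 ∣ (x⁻¹).den := by
        rw [Rat.den_inv_of_ne_zero hx0]
        intro h
        exact hno (Int.natCast_dvd.2 h)
      have h7 := (hden x⁻¹).2 h6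
      rw [map_inv₀, inv_le_one₀ (zero_lt_iff.2 ((Valuation.ne_zero_iff _).2 hx0))] at h7
      exact absurd hx (not_lt.2 h7)
    obtain ⟨c, hc⟩ := hx2
    have e : ((x.num : ℤ) : K) = algebraMap (𝓞 K) K (((2 : ℕ) : 𝓞 K) * ((c : ℤ) : 𝓞 K)) := by
      rw [hc, map_mul, map_natCast, map_intCast]
      push_cast
      rfl
    rw [e, v.valuation_lt_one_iff_mem]
    exact v.asIdeal.mul_mem_right _ hmem2
  obtain ⟨j, hj1, hj2⟩ := Pool.Agent.Y46.G2.exists_compl_cont u v (algebraMap ℚ K) i1 i2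
  have hfin : Nonempty (ℚ_[2] ≃A[ℚ] u.adicCompletion ℚ) := by
    have e := Rat.HeightOneSpectrum.adicCompletion.padicEquiv (R := 𝓞 ℚ) u
    have h : ∀ p : Nat.Primes, p = (⟨2, Nat.prime_two⟩ : Nat.Primes) →
        ∀ (_ : Fact (Nat.Prime p.1)), Nonempty (u.adicCompletion ℚ ≃A[ℚ] ℚ_[p.1]) →
        Nonempty (ℚ_[2] ≃A[ℚ] u.adicCompletion ℚ) := by
      rintro p rfl _ ⟨e⟩
      exact ⟨e.symm⟩
    exact h _ hu _ ⟨e⟩
  obtain ⟨e⟩ := hfin
  let f : ℚ_[2] →+* v.adicCompletion K := j.comp (e : ℚ_[2] ≃+* u.adicCompletion ℚ).toRingHom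
  have hf : Continuous f := hj1.comp e.continuous
  have hint2 : ∀ z : v.adicCompletion K, ‖z‖ ≤ 1 → ∃ y : ℚ_[2], f y = z := by
    intro z hz
    have hcomp : IsCompact (f '' Metric.closedBall (0 : ℚ_[2]) 1) :=
      (isCompact_closedBall (0 : ℚ_[2]) 1).image hf
    have hcl : IsClosed (f '' Metric.closedBall (0 : ℚ_[2]) 1) := hcomp.isClosed
    have hmem : z ∈ f '' Metric.closedBall (0 : ℚ_[2]) 1 := by
      rw [← hcl.closure_eq, Metric.mem_closure_iff]
      intro ε hε
      obtain ⟨n, hn⟩ := exists_pow_lt_of_lt_one hε h2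
      obtain ⟨m, hm⟩ := dense_int v hcard hunr n z hz
      refine ⟨f (m : ℚ_[2]), ⟨_, ?_, rfl⟩, ?_⟩
      · rw [mem_closedBall_zero_iff]
        exact Padic.norm_int_le_one m
      · rw [map_intCast, dist_eq_norm]
        exact lt_of_le_of_lt hm hn
    obtain ⟨y, -, hy⟩ := hmem
    exact ⟨y, hy⟩
  refine ⟨RingEquiv.ofBijective f ⟨f.injective, fun z => ?_⟩⟩
  obtain ⟨n, hn⟩ := exists_pow_lt_of_lt_one (show (0 : ℝ) < 1 / (‖z‖ + 1) by positivity) h2
  have h6 : ‖z * 2 ^ n‖ ≤ 1 := by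
    rw [norm_mul, norm_pow]
    have h7 : ‖z‖ + 1 > 0 := by positivity
    rw [lt_div_iff₀ h7] at hn
    have h8 : 0 ≤ ‖(2 : v.adicCompletion K)‖ ^ n := by positivity
    nlinarith
  obtain ⟨y, hy⟩ := hint2 _ h6
  refine ⟨y / 2 ^ n, ?_⟩
  rw [map_div₀, hy, map_pow, map_ofNat]
  have : (2 : v.adicCompletion K) ^ n ≠ 0 := pow_ne_zero n h20
  field_simp

end

end Pool.Agent.R425.D
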