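import Pool.Agent.R425.D.Coc
import Pool.Agent.R425.D.Split
import Pool.Agent.R425.D.Div
import Pool.Agent.TH954.Closure

/-!
# Coverings of subvarieties of products of elliptic curves
-/

set_option autoImplicit false
set_option linter.all false

open IsDedekindDomain NumberField WeierstrassCurve MvPolynomial

namespace Pool.Agent.R425.D

open Pool.Agent.TH954

open scoped Classical

section

variable {K : Type} [Field K]

/-- The `N`-covering of `E_1 × … × E_n` given by the cocycles `ξ i` with values in the points of order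
dividing `N` has a point over the extension `L` of `K` which lies over a point of the subvariety `X`
defined by the equations in `S`: there are `P` in `X(L)` and `Q i` with `N • Q i = P i` on which the
Galois group of `L` acts by translation by the `ξ i`. -/
def CovPt {n : ℕ} (E : Fin n → WeierstrassCurve K) (S : Set (MvPolynomial (Fin n × Fin 3) K)) (N : ℕ)
    (ξ : (i : Fin n) → (AlgebraicClosure K ≃ₐ[K] AlgebraicClosure K) → AlgPt (E i) K)
    (L : Type) [Field L] [Algebra K L] : Prop :=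
  ∃ (ι : AlgebraicClosure K →ₐ[K] AlgebraicClosure L)
    (P : (i : Fin n) → ((E i).baseChange L).toAffine.Point) (Q : (i : Fin n) → AlgPt (E i) L),
    OnX S (fun i => crd (P i)) ∧ (∀ i, N • Q i = incl (E i) L (P i)) ∧
      ∀ i σ τ, Compat ι σ τ → pm (E i) ι (ξ i τ) = act (E i) σ (Q i) - Q i

variable [NumberField K]

/-- the `N`-Selmer set of `X`: the `N`-coverings of `E_1 × … × E_n` whose pull-backs to `X` have points
over all the completions of `K` -/
def SelSet {n : ℕ} (E : Fin n → WeierstrassCurve K) (S : Set (MvPolynomial (Fin n × Fin 3) K)) (N : ℕ) :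
    Set ((i : Fin n) → (AlgebraicClosure K ≃ₐ[K] AlgebraicClosure K) → AlgPt (E i) K) :=
  {ξ | (∀ i, IsCocycle (E i) (ξ i)) ∧ (∀ i σ, N • ξ i σ = 0) ∧
    (∀ v : HeightOneSpectrum (𝓞 K), CovPt E S N ξ (v.adicCompletion K)) ∧
    ∀ w : InfinitePlace K, CovPt E S N ξ w.Completion}

/-- Over a field over which the 2-Selmer groups are trivial only points divisible by `2 ^ k` survive
the descent by `2 ^ k`-coverings. -/
theorem divisible {n : ℕ} (E : Fin n → WeierstrassCurve K)
    (hsha : ∀ i, ∀ s : Pool.Agent.TH841.NF.D.Sha (E i), 2 • s = 0 → s = 0)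
    (hfin : ∀ i, Finite (E i).toAffine.Point)
    (h2tor : ∀ i, ∀ P : (E i).toAffine.Point, 2 • P = 0 → P = 0)
    (S : Set (MvPolynomial (Fin n × Fin 3) K)) (k : ℕ)
    (ξ : (i : Fin n) → (AlgebraicClosure K ≃ₐ[K] AlgebraicClosure K) → AlgPt (E i) K)
    (hξ : ξ ∈ SelSet E S (2 ^ k)) (v : HeightOneSpectrum (𝓞 K)) :
    ∃ P : (i : Fin n) → ((E i).baseChange (v.adicCompletion K)).toAffine.Point,
      OnX S (fun i => crd (P i)) ∧ ∀ i, ∃ z, P i = 2 ^ k • z := by
  obtain ⟨h1, h2, h3, h4⟩ := hξ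
  have hT : ∀ i, ∃ T : AlgPt (E i) K, 2 ^ k • T = 0 ∧ ∀ σ, ξ i σ = act (E i) σ T - T := by
    intro i
    refine cocycle_trivial (hsha i) (hfin i) (h2tor i) k (ξ i) (h1 i) (h2 i) (fun u => ?_) (fun w => ?_)
    · obtain ⟨ι, P, Q, -, -, h⟩ := h3 u
      exact ⟨ι, Q i, fun σ τ hστ => h i σ τ hστ⟩
    · obtain ⟨ι, P, Q, -, -, h⟩ := h4 w
      exact ⟨ι, Q i, fun σ τ hστ => h i σ τ hστ⟩
  choose T hT1 hT2 using hT
  obtain ⟨ι, P, Q, hP, hPQ, hQ⟩ := h3 v
  refine ⟨P, hP, fun i => ?_⟩
  have : CharZero (v.adicCompletion K) :=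
    charZero_of_injective_algebraMap (algebraMap K (v.adicCompletion K)).injective
  have hfix : ∀ σ : AlgebraicClosure (v.adicCompletion K) ≃ₐ[v.adicCompletion K]
      AlgebraicClosure (v.adicCompletion K), act (E i) σ (Q i - pm (E i) ι (T i)) =
      Q i - pm (E i) ι (T i) := by
    intro σ
    obtain ⟨τ, hτ⟩ := exists_compat ι σ
    have e1 : act (E i) σ (Q i) = Q i + pm (E i) ι (ξ i τ) := by
      rw [hQ i σ τ hτ]
      abel
    have e2 : act (E i) τ (T i) = T i + ξ i τ := by
      rw [hT2 i τ]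
      abel
    rw [act_sub, act_pm ι hτ, e1, e2, map_add]
    abel
  obtain ⟨z, hz⟩ := exists_of_fixed _ hfix
  refine ⟨z, incl_injective ?_⟩
  have e3 : pm (E i) ι (2 ^ k • T i) = 2 ^ k • pm (E i) ι (T i) := map_nsmul _ _ _
  rw [incl_nsmul, hz, ns_sub, hPQ i, ← e3, hT1 i, map_zero, sub_zero]

end

end Pool.Agent.R425.D
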