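import Pool.Agent.R425.D.Glob
import Pool.Agent.R425.T.Sel

/-!
# Two-power descent on subvarieties of products of elliptic curves, with a uniform level
-/

set_option autoImplicit false
set_option linter.all false

open IsDedekindDomain NumberField WeierstrassCurve MvPolynomial

namespace Pool.Agent.R425.D

open Pool.Agent.TH954
open Pool.Agent.Y702.G (base pts)

open scoped Classical

section

/-- the map on points of a homomorphism of fields -/
lemma transport {L₁ L₂ : Type} [Field L₁] [Field L₂] (g : L₁ →+* L₂) (W₁ : WeierstrassCurve L₁)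
    (W₂ : WeierstrassCurve L₂) (h : W₁.map g = W₂) :
    ∃ φ : W₁.toAffine.Point →+ W₂.toAffine.Point, ∀ P j, crd (φ P) j = g (crd P j) := by
  subst h
  letI := g.toAlgebra
  exact ⟨locHom (L := L₂) W₁, fun P j => crd_loc (L := L₂) W₁ P j⟩

/-- the equations of `X` over `L` -/
def eqs (L : Type) [Field L] [Algebra ℚ L] {n : ℕ} (S : Set (MvPolynomial (Fin n × Fin 3) ℚ)) :
    Set (MvPolynomial (Fin n × Fin 3) L) :=
  {f | ∃ g ∈ S, f = map (algebraMap ℚ L) g}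

lemma base_map (W : WeierstrassCurve ℤ) {R₁ R₂ : Type} [CommRing R₁] [CommRing R₂] (g : R₁ →+* R₂) :
    (base W R₁).map g = base W R₂ := by
  show (W.map _).map g = W.map _
  rw [WeierstrassCurve.map_map]
  congr 1
  exact RingHom.ext_int _ _

lemma si_base (W : WeierstrassCurve ℤ) (h1 : W.a₁ = 0) (h2 : W.a₂ = 0) (h3 : W.a₃ = 0) :
    SI (base W ℚ_[2]) where
  h1 := by show ((W.a₁ : ℤ) : ℚ_[2]) = 0; rw [h1, Int.cast_zero]
  h2 := by show ((W.a₂ : ℤ) : ℚ_[2]) = 0; rw [h2, Int.cast_zero]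
  h3 := by show ((W.a₃ : ℤ) : ℚ_[2]) = 0; rw [h3, Int.cast_zero]
  ha := Padic.norm_int_le_one W.a₄
  hb := Padic.norm_int_le_one W.a₆

lemma disc_base (W : WeierstrassCurve ℤ) (h1 : W.a₁ = 0) (h2 : W.a₂ = 0) (h3 : W.a₃ = 0)
    (hΔ : W.Δ ≠ 0) : 4 * (base W ℚ_[2]).a₄ ^ 3 + 27 * (base W ℚ_[2]).a₆ ^ 2 ≠ 0 := by
  have e : W.Δ = -16 * (4 * W.a₄ ^ 3 + 27 * W.a₆ ^ 2) := by
    simp only [WeierstrassCurve.Δ, WeierstrassCurve.b₂, WeierstrassCurve.b₄, WeierstrassCurve.b₆,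
      WeierstrassCurve.b₈, h1, h2, h3]
    ring
  have e2 : 4 * (base W ℚ_[2]).a₄ ^ 3 + 27 * (base W ℚ_[2]).a₆ ^ 2 =
      (((4 * W.a₄ ^ 3 + 27 * W.a₆ ^ 2 : ℤ)) : ℚ_[2]) := by
    push_cast
    rfl
  rw [e2]
  intro h
  apply hΔ
  rw [e, Int.cast_eq_zero.1 h, mul_zero]

/-- The points over the 2-adic numbers of odd order. -/
def OddFree {n : ℕ} (W : Fin n → WeierstrassCurve ℤ) (S : Set (MvPolynomial (Fin n × Fin 3) ℚ)) :
    Prop :=
  ∀ P : (i : Fin n) → (base (W i) ℚ_[2]).toAffine.Point,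
    (∀ f ∈ eqs ℚ_[2] S, eval (fun p => crd (P p.1) p.2) f = 0) → ∃ i, ∀ m : ℕ, Odd m → m • P i ≠ 0

/-- **Descent of a uniform level.** -/
theorem uniform {n : ℕ} (W : Fin n → WeierstrassCurve ℤ)
    (hW : ∀ i, (W i).a₁ = 0 ∧ (W i).a₂ = 0 ∧ (W i).a₃ = 0) (hΔ : ∀ i, (W i).Δ ≠ 0)
    (S : Set (MvPolynomial (Fin n × Fin 3) ℚ)) (hS : ∀ f ∈ S, ∃ d, MultiHom d f)
    (hno : OddFree W S) :
    ∃ k : ℕ, ∀ (K : Type) [Field K] [NumberField K] (v : HeightOneSpectrum (𝓞 K)),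
      Ideal.absNorm v.asIdeal = 2 → v.valuation K ((2 : ℕ) : K) = WithZero.exp (-1 : ℤ) →
      (∀ i, ∀ s : Pool.Agent.TH841.NF.D.Sha (base (W i) K), 2 • s = 0 → s = 0) →
      (∀ i, Finite (base (W i) K).toAffine.Point) →
      (∀ i, ∀ P : (base (W i) K).toAffine.Point, 2 • P = 0 → P = 0) →
      SelSet (fun i => base (W i) K) (eqs K S) (2 ^ k) = ∅ := by
  have hp2 : ‖(2 : ℚ_[2])‖ = 1 / 2 := by
    have := Padic.norm_p (p := 2)
    rw [one_div]
    exact_mod_cast this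
  obtain ⟨k, hk⟩ := loc_main hp2 (fun i => base (W i) ℚ_[2])
    (fun i => si_base (W i) (hW i).1 (hW i).2.1 (hW i).2.2)
    (fun i => disc_base (W i) (hW i).1 (hW i).2.1 (hW i).2.2 (hΔ i)) (eqs ℚ_[2] S)
    (by
      rintro f ⟨g, hg, rfl⟩
      obtain ⟨d, hd⟩ := hS g hg
      exact ⟨d, fun m hm => hd m (MvPolynomial.support_map_subset _ _ hm)⟩) hno
  refine ⟨k, fun K _ _ v hv1 hv2 hsha hfin h2tor => ?_⟩
  rw [Set.eq_empty_iff_forall_notMem]
  intro ξ hξ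
  obtain ⟨P, hP, hz⟩ := divisible (fun i => base (W i) K) hsha hfin h2tor (eqs K S) k ξ hξ v
  choose z hz using hz
  obtain ⟨e⟩ := split_iso v hv1 hv2
  let g : v.adicCompletion K →+* ℚ_[2] := e.symm.toRingHom
  have hφ : ∀ i, ∃ φ : ((base (W i) K).baseChange (v.adicCompletion K)).toAffine.Point →+
      (base (W i) ℚ_[2]).toAffine.Point, ∀ P j, crd (φ P) j = g (crd P j) := by
    intro i
    refine transport g _ _ ?_
    show ((base (W i) K).map (algebraMap K (v.adicCompletion K))).map g = _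
    rw [base_map, base_map]
  choose φ hφ using hφ
  obtain ⟨i, hi⟩ := hk (fun i => φ i (P i)) (by
    rintro f ⟨h, hh, rfl⟩
    have h1 := hP (map (algebraMap ℚ K) h) ⟨h, hh, rfl⟩
    rw [aeval_def, eval₂_map] at h1
    have h2 := congrArg g h1
    rw [map_zero, MvPolynomial.hom_eval₂] at h2
    rw [eval_map]
    rw [← h2]
    have e1 : (g.comp ((algebraMap K (v.adicCompletion K)).comp (algebraMap ℚ K))) =
        algebraMap ℚ ℚ_[2] := Subsingleton.elim _ _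
    rw [e1]
    congr 1
    funext p
    exact hφ p.1 (P p.1) p.2)
  apply hi (φ i (z i))
  rw [hz i, map_nsmul]

end

end Pool.Agent.R425.D
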