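import Pool.Agent.R425.D.Main

/-!
# Points of odd order over the 2-adic numbers
-/

set_option autoImplicit false
set_option linter.all false

open IsDedekindDomain NumberField WeierstrassCurve MvPolynomial

namespace Pool.Agent.R425.D

open Pool.Agent.TH954
open Pool.Agent.Y702.G (base pts)

open scoped Classical

section

variable {L : Type} [NormedField L] [IsUltrametricDist L] [ProperSpace L] {W : WeierstrassCurve L}

/-- a point divisible by all powers of two has odd order -/
theorem odd_of_div (hW : SI W) (hD : 4 * W.a₄ ^ 3 + 27 * W.a₆ ^ 2 ≠ 0) (h2 : ‖(2 : L)‖ = 1 / 2)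
    (P : W.toAffine.Point) (h : ∀ k : ℕ, ∃ z, P = 2 ^ k • z) : ∃ m : ℕ, Odd m ∧ m • P = 0 := by
  have h20 : (2 : L) ≠ 0 := by
    intro h
    rw [h, norm_zero] at h2
    norm_num at h2
  obtain ⟨N, hN0, hN⟩ := exists_expo' hW hD h20 2 (by norm_num)
  obtain ⟨a, m, hm, hNam⟩ := Nat.exists_eq_two_pow_mul_odd hN0.ne'
  refine ⟨m, hm, zero_of_big fun R hR => ?_⟩
  obtain ⟨r, hr⟩ := pow_unbounded_of_one_lt R (by norm_num : (1 : ℝ) < 4)
  obtain ⟨z, hz⟩ := h (a + r)
  have e : m • P = 2 ^ r • (N • z) := by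
    rw [hz, hNam, ← mul_smul, ← mul_smul]
    congr 1
    rw [pow_add]
    ring
  rw [e]
  have h5 := big_pow hW h2 (by norm_num : (1 : ℝ) < 2) (hN z) r
  refine big_mono ?_ h5
  have h7 : (0 : ℝ) < 4 ^ r := by positivity
  linarith

/-- points of odd order are not close to the origin -/
lemma odd_big (hW : SI W) (h2 : ‖(2 : L)‖ = 1 / 2) {R : ℝ} (hR : 1 < R) {T : W.toAffine.Point}
    (hT : Big R T) {m : ℕ} (hm : Odd m) (h : m • T = 0) : T = 0 := by
  refine zero_of_big fun R' hR' => ?_
  -- a power of two is congruent to one modulo m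
  have hc : Nat.Coprime 2 m := (Nat.coprime_two_left).2 hm
  obtain ⟨r, hr⟩ := pow_unbounded_of_one_lt R' (by norm_num : (1 : ℝ) < 4)
  have hpos : 0 < Nat.totient m := Nat.totient_pos.2 hm.pos
  have h1 : 2 ^ (Nat.totient m * r) ≡ 1 [MOD m] := by
    rw [pow_mul]
    have := (Nat.ModEq.pow_totient hc).pow r
    rwa [one_pow] at this
  have h3 : 2 ^ (Nat.totient m * r) • T = T := by
    have h4 : 1 ≤ 2 ^ (Nat.totient m * r) := Nat.one_le_two_pow
    obtain ⟨c, hc'⟩ := (Nat.modEq_iff_dvd' h4).1 h1.symm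
    have e : 2 ^ (Nat.totient m * r) = c * m + 1 := by
      rw [mul_comm c m, ← hc']
      omega
    rw [e, add_smul, mul_smul, h, smul_zero, zero_add, one_smul]
  rw [← h3]
  refine big_mono ?_ (big_pow hW h2 hR hT (Nat.totient m * r))
  have h6 : (4 : ℝ) ^ r ≤ 4 ^ (Nat.totient m * r) :=
    pow_le_pow_right₀ (by norm_num) (Nat.le_mul_of_pos_left r hpos)
  have h7 : (0 : ℝ) < 4 ^ (Nat.totient m * r) := by positivity
  nlinarith

end

section

lemma norm_two' : ‖(2 : ℚ_[2])‖ = 1 / 2 := by
  have := Padic.norm_p (p := 2)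
  rw [one_div]
  exact_mod_cast this

/-- All points of odd order over the 2-adic numbers are rational. -/
def OddRat (W : WeierstrassCurve ℤ) : Prop :=
  ∀ (P : (base W ℚ_[2]).toAffine.Point) (m : ℕ), Odd m → m • P = 0 →
    ∃ y : (base W ℚ).toAffine.Point, ∀ j, crd P j = algebraMap ℚ ℚ_[2] (crd y j)

lemma crd_inj {F : Type} [Field F] {W : WeierstrassCurve F} {P Q : W.toAffine.Point}
    (h : ∀ j, crd P j = crd Q j) : P = Q := by
  match P, Q with
  | .zero, .zero => rfl
  | .zero, .some x y n =>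
    have := h 2
    simp [crd] at this
  | .some x y n, .zero =>
    have := h 2
    simp [crd] at this
  | .some x y n, .some x' y' n' =>
    have h0 := h 0
    have h1 := h 1
    have e0 : x = x' := h0
    have e1 : y = y' := h1
    subst e0 e1
    rfl

end

end Pool.Agent.R425.D
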