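import Pool.Agent.R425.D.TwM
import Pool.Agent.TH954.SEt2

/-!
# Two-power descent for sections
-/

set_option autoImplicit false
set_option linter.all false

open IsDedekindDomain NumberField WeierstrassCurve MvPolynomial

namespace Pool.Agent.R425.D

open Pool.Agent.TH954 Pool.Agent.TH942 Pool.Agent.W620.SC
open Pool.Agent.Y702.G (base pts)

open scoped Classical

section gen

variable {K : Type} [Field K] {n : ℕ} {E : Fin n → WeierstrassCurve K}

lemma onX_hom {L L' : Type} [Field L] [Algebra K L] [Field L'] [Algebra K L']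
    {S : Set (MvPolynomial (Fin n × Fin 3) K)} (f : L →ₐ[K] L')
    {P : (i : Fin n) → ((E i).baseChange L).toAffine.Point} (h : OnX S (fun i => crd (P i))) :
    OnX S (fun i => crd (pm (E i) f (P i))) := by
  intro q hq
  have h1 := h q hq
  have h2 := congrArg f h1
  rw [map_zero, MvPolynomial.comp_aeval_apply] at h2
  have h3 : (fun p : Fin n × Fin 3 => crd (pm (E p.1) f (P p.1)) p.2) =
      fun p : Fin n × Fin 3 => f (crd (P p.1) p.2) := by
    funext p
    exact crd_pm f _ _
  change aeval (fun p : Fin n × Fin 3 => crd (pm (E p.1) f (P p.1)) p.2) q = 0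
  rw [h3]
  exact h2

lemma crd_incl' {E : WeierstrassCurve K} {L : Type} [Field L] [Algebra K L]
    (T : (E.baseChange L).toAffine.Point) (j : Fin 3) :
    crd (incl E L T) j = algebraMap L (AlgebraicClosure L) (crd T j) := by
  rcases T with _ | ⟨x, y, h⟩
  · change ![(0 : AlgebraicClosure L), 1, 0] j = algebraMap L _ (![(0 : L), 1, 0] j)
    fin_cases j <;> simp
  · change ![algebraMap L (AlgebraicClosure L) x, algebraMap L (AlgebraicClosure L) y, 1] j =
      algebraMap L _ (![x, y, 1] j)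
    fin_cases j <;> simp

end gen

section

variable {K : Type} [Field K] [NumberField K] {F Ω M B : Type} [Field F] [Field Ω] [Field M]
  [Field B] [Algebra K F] [Algebra F Ω] [Algebra K Ω] [IsScalarTower K F Ω] [Algebra F M]
  [Algebra K M] [IsScalarTower K F M] [Algebra K B] [IsAlgClosure F Ω] [IsAlgClosure K B]

/-- The local points of a section are, up to a factor two, divisible by all powers of two. -/
theorem sec_sw {n : ℕ} (a b : Fin n → K) (hD : ∀ i, 4 * a i ^ 3 + 27 * b i ^ 2 ≠ 0)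
    (hG : ∀ i, Good (sw (a i) (b i)))
    (S : Set (MvPolynomial (Fin n × Fin 3) K)) (hS : ∀ f ∈ S, ∃ d, MultiHom d f)
    (U : Set (ValuationSubring F)) (hU : ∀ O ∈ U, ∀ c : K, algebraMap K F c ∈ O)
    (e : M →ₐ[F] Ω) (he : unramified F Ω U ≤ e.fieldRange)
    (P : (i : Fin n) → ((sw (a i) (b i)).baseChange F).toAffine.Point)
    (hPS : OnX S (fun i => crd (P i))) (s : GalSection K F M B)
    (p : ∀ v : HeightOneSpectrum (𝓞 K), Plc K M (AlgebraicClosure (v.adicCompletion K)))
    (hp : ∀ v, s.GivenBy (v.adicCompletion K) (p v)) :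
    ∃ Pv : (v : HeightOneSpectrum (𝓞 K)) → (i : Fin n) →
        ((sw (a i) (b i)).baseChange (v.adicCompletion K)).toAffine.Point,
      (∀ v, OnX S (fun i => crd (Pv v i))) ∧
      (∀ v i, (p v).Spec (fun j => algebraMap F M (crd (P i) j))
        (fun j => algebraMap (v.adicCompletion K) (AlgebraicClosure (v.adicCompletion K))
          (crd (Pv v i) j))) ∧
      ∀ v i (k : ℕ), ∃ z, 2 • Pv v i = 2 ^ k • z := by
  have hΩ1 : IsAlgClosed Ω := IsAlgClosure.isAlgClosed F
  have hΩ2 : Algebra.IsAlgebraic F Ω := IsAlgClosure.isAlgebraic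
  have hMalg : Algebra.IsAlgebraic F M := Algebra.IsAlgebraic.of_injective e e.injective
  have hcΩ : CharZero Ω := charZero_of_injective_algebraMap (algebraMap K Ω).injective
  have hcv : ∀ v : HeightOneSpectrum (𝓞 K), CharZero (v.adicCompletion K) := fun v =>
    charZero_of_injective_algebraMap (algebraMap K (v.adicCompletion K)).injective
  have hcv' : ∀ v : HeightOneSpectrum (𝓞 K), CharZero (AlgebraicClosure (v.adicCompletion K)) :=
    fun v => charZero_of_injective_algebraMap
      (algebraMap (v.adicCompletion K) (AlgebraicClosure (v.adicCompletion K))).injective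
  set A := toSAct s with hA
  have hpl : ∀ v, GeoPlc A (p v) := by
    intro v σ τ hστ x
    refine hp v σ ((eqv K B).autCongr τ) ?_ x _ ⟨x.2, rfl⟩
    intro z c hc
    obtain ⟨y, rfl⟩ := (eqv K B).surjective z
    have e1 : (p v).val (A.j y) ((p v).iot A.j y) := Plc.val_j _ y
    have e2 : (p v).val (A.j (τ y)) ((p v).iot A.j (τ y)) := Plc.val_j _ (τ y)
    have e3 : s.j ((eqv K B).autCongr τ (eqv K B y)) = A.j (τ y) := by
      change s.j (eqv K B (τ ((eqv K B).symm (eqv K B y)))) = _
      rw [AlgEquiv.symm_apply_apply]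
      rfl
    have e4 : (p v).iot A.j y = c := e1.unique hc
    rw [e3, ← e4, ← hστ y]
    exact e2
  have hAF : ∀ (τ : AlgebraicClosure K ≃ₐ[K] AlgebraicClosure K) (x : F),
      A.s τ (algebraMap F M x) = algebraMap F M x :=
    fun τ x => (s.s ((eqv K B).autCongr τ)).commutes x
  set P' : (i : Fin n) → ((sw (a i) (b i)).baseChange M).toAffine.Point :=
    fun i => pm (sw (a i) (b i)) (IsScalarTower.toAlgHom K F M) (P i) with hP'
  have hP'S : OnX S (fun i => crd (P' i)) := onX_hom _ hPS
  have hP'f : ∀ i τ, A.pt (a i) (b i) τ (P' i) = P' i := by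
    intro i τ
    change pm (sw (a i) (b i)) _ (pm (sw (a i) (b i)) _ (P i)) = pm (sw (a i) (b i)) _ (P i)
    rw [pm_pm]
    congr 2
    apply AlgHom.ext
    intro x
    exact hAF τ x
  choose red h1 h2 using fun (v : HeightOneSpectrum (𝓞 K)) (i : Fin n) =>
    exists_redM (p v) (hD i)
  -- the local points
  have hfix : ∀ v i, ∃ z, incl (sw (a i) (b i)) (v.adicCompletion K) z = red v i (P' i) := by
    intro v i
    refine exists_of_fixed _ (fun σ => ?_)
    obtain ⟨τ, hτ⟩ := exists_compat ((p v).iot A.j) σ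
    have h3 := red_act (pl := p v) (a := a i) (b := b i) (red := red v i) (map_zero (red v i))
      (h1 v i) (h2 v i) ((A.s τ : M ≃ₐ[K] M) : M →ₐ[K] M)
      ((σ : AlgebraicClosure (v.adicCompletion K) →ₐ[v.adicCompletion K]
        AlgebraicClosure (v.adicCompletion K)).restrictScalars K)
      (fun x => hpl v σ τ hτ x) (P' i)
    have h4 := hP'f i τ
    unfold SAct.pt at h4
    rw [h4] at h3
    exact h3.symm
  choose Pv hPv using hfix
  have hcr : ∀ v i, ∃ u : M, u ≠ 0 ∧ ∀ j, ∃ h : u * crd (P' i) j ∈ (p v).W,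
      (p v).ρ ⟨u * crd (P' i) j, h⟩ = crd (red v i (P' i)) j := fun v i =>
    red_crd (pl := p v) (red := red v i) (map_zero (red v i)) (h1 v i) (h2 v i) (P' i)
  have hcPv : ∀ v i j, crd (red v i (P' i)) j =
      algebraMap (v.adicCompletion K) (AlgebraicClosure (v.adicCompletion K)) (crd (Pv v i) j) := by
    intro v i j
    rw [← hPv v i]
    exact crd_incl' _ _
  refine ⟨Pv, fun v => ?_, fun v i => ?_, fun v i k => ?_⟩
  · have h3 : OnX S (fun i => crd (red v i (P' i))) :=
      onX_red (p v) hS (fun i => hcr v i) hP'S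
    intro f hf
    have h4 := h3 f hf
    have h7 := aeval_algebraMap_apply (AlgebraicClosure (v.adicCompletion K))
      (fun p : Fin n × Fin 3 => crd (Pv v p.1) p.2) f
    simp only [hcPv] at h4
    have h8 := h7.symm.trans h4
    exact (map_eq_zero _).1 h8
  · obtain ⟨u, hu0, hu⟩ := hcr v i
    refine ⟨u, hu0, fun j => ?_⟩
    obtain ⟨h3, h4⟩ := hu j
    have h5 : crd (P' i) j = algebraMap F M (crd (P i) j) := crd_pm _ _ _
    change (p v).val (u * algebraMap F M (crd (P i) j))
      (algebraMap (v.adicCompletion K) (AlgebraicClosure (v.adicCompletion K)) (crd (Pv v i) j))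
    rw [← hcPv v i j, ← h4, ← h5]
    exact ⟨h3, rfl⟩
  · have hpos : 1 ≤ 2 ^ k := Nat.one_le_two_pow
    obtain ⟨Q, hQ⟩ := exists_div_unram (hD i) ((e.restrictScalars K).comp A.j) U hU e he (P i) hpos
    obtain ⟨ξ, hξ, hξN, hξj⟩ := exists_cocycle A hQ (hP'f i)
      (fun T hT => torsion_mem_sub (hD i) (e.restrictScalars K) A.j _ hpos T hT)
    have hloc : ∀ v σ τ, Compat ((p v).iot A.j) σ τ →
        pm (sw (a i) (b i)) ((p v).iot A.j) (ξ τ) =
          act (sw (a i) (b i)) σ (red v i Q) - red v i Q :=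
      fun v => (cocycle_local A (hpl v) (h1 v i) (h2 v i) hξj).1
    have hco2 : IsCocycle (sw (a i) (b i)) (fun σ => 2 • ξ σ) := by
      refine ⟨fun σ τ => ?_, ?_⟩
      · change 2 • ξ (σ * τ) = 2 • ξ σ + act (sw (a i) (b i)) σ (2 • ξ τ)
        rw [hξ.1 σ τ, ns_add, act_nsmul]
      · obtain ⟨F, hF, h⟩ := hξ.2
        exact ⟨F, hF, fun σ τ hστ => by
          change 2 • ξ σ = 2 • ξ τ
          rw [h σ τ hστ]⟩
    obtain ⟨T, hT1, hT2⟩ := cocycle_trivial (hG i).sha (hG i).fin (hG i).tor k
      (fun σ => 2 • ξ σ) hco2 (fun σ => by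
        change 2 ^ k • (2 • ξ σ) = 0
        have e0 : 2 ^ k • (2 • ξ σ) = 2 • (2 ^ k • ξ σ) := by
          rw [← ns_mul, ← ns_mul, mul_comm]
        rw [e0, hξN σ, two_nsmul, add_zero]) (fun v => by
        refine ⟨(p v).iot A.j, 2 • red v i Q, fun σ τ hστ => ?_⟩
        change pm (sw (a i) (b i)) _ (2 • ξ τ) = _
        rw [map_nsmul, hloc v σ τ hστ, act_nsmul, ns_sub]) (fun w =>
        trivial_two hξ.1 w.Completion (twoGal_inf w))
    have hfx : ∀ σ : AlgebraicClosure (v.adicCompletion K) ≃ₐ[v.adicCompletion K]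
        AlgebraicClosure (v.adicCompletion K), act (sw (a i) (b i)) σ
          (2 • red v i Q - pm (sw (a i) (b i)) ((p v).iot A.j) T) =
        2 • red v i Q - pm (sw (a i) (b i)) ((p v).iot A.j) T := by
      intro σ
      obtain ⟨τ, hτ⟩ := exists_compat ((p v).iot A.j) σ
      have e1 : act (sw (a i) (b i)) σ (2 • red v i Q) =
          2 • red v i Q + pm (sw (a i) (b i)) ((p v).iot A.j) (2 • ξ τ) := by
        rw [map_nsmul, hloc v σ τ hτ, act_nsmul, ns_sub]
        abel
      have e2 : act (sw (a i) (b i)) τ T = T + 2 • ξ τ := by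
        rw [hT2 τ]
        abel
      rw [act_sub, act_pm ((p v).iot A.j) hτ, e1, e2, map_add]
      abel
    obtain ⟨z, hz⟩ := exists_of_fixed _ hfx
    refine ⟨z, incl_injective ?_⟩
    have e3 : pm (sw (a i) (b i)) ((p v).iot A.j) (2 ^ k • T) =
        2 ^ k • pm (sw (a i) (b i)) ((p v).iot A.j) T := map_nsmul _ _ _
    have e4 : 2 ^ k • red v i Q = red v i (P' i) := by
      rw [← map_nsmul]
      exact congrArg _ hQ
    rw [incl_nsmul, incl_nsmul, hz, ns_sub, ← e3, hT1, map_zero, sub_zero, hPv, ← e4, ← ns_mul,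
      ← ns_mul, mul_comm]

/-- the version for arbitrary short equations -/
theorem sec_div {n : ℕ} (E : Fin n → WeierstrassCurve K)
    (hE : ∀ i, (E i).a₁ = 0 ∧ (E i).a₂ = 0 ∧ (E i).a₃ = 0) (hd : ∀ i, (E i).Δ ≠ 0)
    (hG : ∀ i, Good (E i))
    (S : Set (MvPolynomial (Fin n × Fin 3) K)) (hS : ∀ f ∈ S, ∃ d, MultiHom d f)
    (U : Set (ValuationSubring F)) (hU : ∀ O ∈ U, ∀ c : K, algebraMap K F c ∈ O)
    (e : M →ₐ[F] Ω) (he : unramified F Ω U ≤ e.fieldRange)
    (P : (i : Fin n) → ((E i).baseChange F).toAffine.Point)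
    (hPS : OnX S (fun i => crd (P i))) (s : GalSection K F M B)
    (p : ∀ v : HeightOneSpectrum (𝓞 K), Plc K M (AlgebraicClosure (v.adicCompletion K)))
    (hp : ∀ v, s.GivenBy (v.adicCompletion K) (p v)) :
    ∃ Pv : (v : HeightOneSpectrum (𝓞 K)) → (i : Fin n) →
        ((E i).baseChange (v.adicCompletion K)).toAffine.Point,
      (∀ v, OnX S (fun i => crd (Pv v i))) ∧
      (∀ v i, (p v).Spec (fun j => algebraMap F M (crd (P i) j))
        (fun j => algebraMap (v.adicCompletion K) (AlgebraicClosure (v.adicCompletion K))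
          (crd (Pv v i) j))) ∧
      ∀ v i (k : ℕ), ∃ z, 2 • Pv v i = 2 ^ k • z := by
  choose a b hab using fun i => short_eq_sw (hE i).1 (hE i).2.1 (hE i).2.2
  obtain rfl : E = fun i => sw (a i) (b i) := funext hab
  exact sec_sw a b (fun i h0 => hd i (by rw [sw_Δ, h0, mul_zero])) hG S hS U hU e he P hPS s p hp

end

end Pool.Agent.R425.D
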