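import Pool.Agent.R425.D.SecT

/-!
# The example: sections of the curves of genus five
-/

set_option autoImplicit false
set_option linter.all false

open IsDedekindDomain NumberField WeierstrassCurve MvPolynomial

namespace Pool.Agent.R425.D

open Pool.Agent.TH954 Pool.Agent.TH942 Pool.Agent.W620.SC
open Pool.Agent.Y702.G (base pts)

open scoped Classical

section

variable {F : Type} [Field F] [CharZero F] [Algebra ℚ F]

lemma nonsing_tws {W : WeierstrassCurve ℤ} (hW : W.a₁ = 0 ∧ W.a₂ = 0 ∧ W.a₃ = 0) (hΔ : W.Δ ≠ 0)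
    {D : ℤ} (hD : D ≠ 0) {x y : F} (h : (D : F) * y ^ 2 = x ^ 3 + (W.a₄ : F) * x + (W.a₆ : F)) :
    ((base (tws W D) ℚ).baseChange F).toAffine.Nonsingular ((D : F) * x) ((D : F) ^ 2 * y) := by
  have hd : ((base (tws W D) ℚ).baseChange F).Δ ≠ 0 := by
    show ((base (tws W D) ℚ).map (algebraMap ℚ F)).Δ ≠ 0
    rw [base_map, WeierstrassCurve.map_Δ, tws_disc hW]
    simpa using ⟨hΔ, hD⟩
  have he : ((base (tws W D) ℚ).baseChange F).toAffine.Equation ((D : F) * x) ((D : F) ^ 2 * y) := by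
    show ((base (tws W D) ℚ).map (algebraMap ℚ F)).toAffine.Equation _ _
    rw [base_map, Affine.equation_iff]
    show ((D : F) ^ 2 * y) ^ 2 + ((0 : ℤ) : F) * ((D : F) * x) * ((D : F) ^ 2 * y) +
      ((0 : ℤ) : F) * ((D : F) ^ 2 * y) = ((D : F) * x) ^ 3 + ((0 : ℤ) : F) * ((D : F) * x) ^ 2 +
      ((W.a₄ * D ^ 2 : ℤ) : F) * ((D : F) * x) + ((W.a₆ * D ^ 3 : ℤ) : F)
    push_cast
    linear_combination (D : F) ^ 3 * h
  exact (Affine.equation_iff_nonsingular_of_Δ_ne_zero hd).1 he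

end

section ex

/-- **The example.** -/
theorem ex_pts (T : Fin 2 → Finset ℕ) (hA : ∀ i, Allowed E11s (T i))
    {F : Type} [Field F] [Algebra ℚ F] (x y z : F) (hx : x ≠ 0)
    (h1 : (Pool.Agent.Y18.BSD.disc (T 0) : F) * y ^ 2 = x ^ 3 - 13392 * x - 1080432)
    (h2 : (Pool.Agent.Y18.BSD.disc (T 1) : F) * z ^ 2 =
      (21039 / x) ^ 3 - 13392 * (21039 / x) - 1080432) :
    ∃ P : (i : Fin 2) →
      ((base (tws E11s (Pool.Agent.Y18.BSD.disc (T i))) ℚ).baseChange F).toAffine.Point,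
      OnX {g | ∃ f ∈ exS, g = twp (fun i => Pool.Agent.Y18.BSD.disc (T i)) f}
        (fun i => crd (P i)) := by
  have hc : CharZero F := charZero_of_injective_algebraMap (algebraMap ℚ F).injective
  have hD0 : ∀ i, Pool.Agent.Y18.BSD.disc (T i) ≠ 0 := fun i =>
    Pool.Agent.R901.EC.disc_ne fun q hq => ((hA i).adm q hq).1
  set D : Fin 2 → ℤ := fun i => Pool.Agent.Y18.BSD.disc (T i) with hDdef
  let xx : Fin 2 → F := ![x, 21039 / x]
  let yy : Fin 2 → F := ![y, z]
  have heq : ∀ i, (D i : F) * (yy i) ^ 2 = (xx i) ^ 3 + (E11s.a₄ : F) * xx i + (E11s.a₆ : F) := by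
    intro i
    have e4 : (E11s.a₄ : F) = -13392 := by
      show ((-13392 : ℤ) : F) = _
      push_cast; ring
    have e6 : (E11s.a₆ : F) = -1080432 := by
      show ((-1080432 : ℤ) : F) = _
      push_cast; ring
    rw [e4, e6]
    fin_cases i
    · show (D 0 : F) * y ^ 2 = x ^ 3 + -13392 * x + -1080432
      rw [h1]; ring
    · show (D 1 : F) * z ^ 2 = (21039 / x) ^ 3 + -13392 * (21039 / x) + -1080432
      rw [h2]; ring
  have hn := fun i => nonsing_tws (W := E11s) ⟨rfl, rfl, rfl⟩ disc11 (hD0 i) (heq i)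
  refine ⟨fun i => .some _ _ (hn i), ?_⟩
  -- square roots in an algebraic closure
  let Ω := AlgebraicClosure F
  have hcΩ : CharZero Ω := charZero_of_injective_algebraMap (algebraMap F Ω).injective
  have hsq : ∀ i, ∃ δ : Ω, δ ^ 2 = ((D i : ℤ) : Ω) := fun i => IsAlgClosed.exists_pow_nat_eq _ two_pos
  choose δ hδ using hsq
  have h0 : ∀ i, δ i ≠ 0 := by
    intro i h
    have h1 := hδ i
    rw [h, zero_pow two_ne_zero] at h1
    exact hD0 i (by exact_mod_cast h1.symm)
  have key : ∀ f ∈ exS, aeval (fun p : Fin 2 × Fin 3 => algebraMap F Ω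
      (crd (Affine.Point.some _ _ (hn p.1)) p.2)) (twp D f) = 0 := by
    intro f hf
    rw [twp_eval D δ hδ f (exS_me f hf).1]
    have hsc : (fun p : Fin 2 × Fin 3 => scl (δ p.1) (D p.1) p.2 * algebraMap F Ω
        (crd (Affine.Point.some _ _ (hn p.1)) p.2)) = fun p => (D p.1 : Ω) *
          ((![algebraMap F Ω (xx p.1), δ p.1 * algebraMap F Ω (yy p.1), 1] : Fin 3 → Ω) p.2) := by
      funext p
      obtain ⟨i, j⟩ := p
      fin_cases j
      · show 1 * algebraMap F Ω ((D i : F) * xx i) = (D i : Ω) * algebraMap F Ω (xx i)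
        rw [map_mul, map_intCast, one_mul]
      · show (δ i)⁻¹ * algebraMap F Ω ((D i : F) ^ 2 * yy i) =
          (D i : Ω) * (δ i * algebraMap F Ω (yy i))
        rw [map_mul, map_pow, map_intCast, ← hδ i]
        have e5 : (δ i)⁻¹ * ((δ i ^ 2) ^ 2 * algebraMap F Ω (yy i)) =
            ((δ i)⁻¹ * δ i) * (δ i ^ 3 * algebraMap F Ω (yy i)) := by ring
        rw [e5, inv_mul_cancel₀ (h0 i)]
        ring
      · show (D i : Ω) * algebraMap F Ω 1 = (D i : Ω) * 1
        rw [map_one]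
    rw [hsc, aeval_def, ← eval_map]
    obtain ⟨-, d, hd'⟩ := exS_me f hf
    have hm' : MultiHom d (map (algebraMap ℚ Ω) f) :=
      fun m hm => hd' m (MvPolynomial.support_map_subset _ _ hm)
    rw [hm'.eval_smul (fun i => (D i : Ω))
      (fun p => ((![algebraMap F Ω (xx p.1), δ p.1 * algebraMap F Ω (yy p.1), 1] : Fin 3 → Ω) p.2))]
    refine mul_eq_zero_of_right _ ?_
    have k0 : (δ 0 * algebraMap F Ω y) ^ 2 =
        (algebraMap F Ω x) ^ 3 - 13392 * algebraMap F Ω x - 1080432 := by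
      rw [mul_pow, hδ]
      have := congrArg (algebraMap F Ω) h1
      simpa [map_ofNat] using this
    have k1 : (δ 1 * algebraMap F Ω z) ^ 2 =
        (21039 / algebraMap F Ω x) ^ 3 - 13392 * (21039 / algebraMap F Ω x) - 1080432 := by
      rw [mul_pow, hδ]
      have := congrArg (algebraMap F Ω) h2
      simpa [map_ofNat] using this
    have hxΩ : algebraMap F Ω x ≠ 0 := (map_ne_zero _).2 hx
    obtain ⟨X', hX'⟩ : ∃ X' : Ω, X' = 21039 / algebraMap F Ω x := ⟨_, rfl⟩
    have hXX : algebraMap F Ω x * X' = 21039 := by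
      rw [hX', mul_div_cancel₀ _ hxΩ]
    rw [← hX'] at k1
    have hxx1 : algebraMap F Ω (xx 1) = X' := by
      rw [hX']
      show algebraMap F Ω (21039 / x) = _
      rw [map_div₀, map_ofNat]
    have hxx0 : algebraMap F Ω (xx 0) = algebraMap F Ω x := rfl
    have hyy0 : algebraMap F Ω (yy 0) = algebraMap F Ω y := rfl
    have hyy1 : algebraMap F Ω (yy 1) = algebraMap F Ω z := rfl
    have hmc : ∀ c : ℚ, algebraMap ℚ Ω c = (c : Ω) := fun c => by simp
    rcases hf with rfl | rfl | rfl | rfl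
    · simp only [qq, map_sub, map_add, map_mul, map_pow, MvPolynomial.map_X, MvPolynomial.map_C,
        eval_X, eval_C, pow_one]
      show algebraMap F Ω (xx 0) * algebraMap F Ω (xx 1) - algebraMap ℚ Ω 21039 * (1 * 1) = 0
      rw [hxx0, hxx1, map_ofNat]
      linear_combination hXX
    · simp only [qq, map_sub, map_add, map_mul, map_pow, MvPolynomial.map_X, MvPolynomial.map_C,
        eval_X, eval_C, pow_one]
      show ((δ 0 * algebraMap F Ω (yy 0)) ^ 2 + algebraMap ℚ Ω 13392 * (algebraMap F Ω (xx 0) * 1) +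
        algebraMap ℚ Ω 1080432 * 1 ^ 2) * algebraMap F Ω (xx 1) -
        algebraMap ℚ Ω 21039 * ((algebraMap F Ω (xx 0)) ^ 2 * 1) = 0
      rw [hxx0, hxx1, hyy0, map_ofNat, map_ofNat, map_ofNat]
      linear_combination (algebraMap F Ω x) ^ 2 * hXX + X' * k0
    · simp only [qq, map_sub, map_add, map_mul, map_pow, MvPolynomial.map_X, MvPolynomial.map_C,
        eval_X, eval_C, pow_one]
      show algebraMap F Ω (xx 0) * ((δ 1 * algebraMap F Ω (yy 1)) ^ 2 +
        algebraMap ℚ Ω 13392 * (algebraMap F Ω (xx 1) * 1) + algebraMap ℚ Ω 1080432 * 1 ^ 2) -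
        algebraMap ℚ Ω 21039 * (1 * (algebraMap F Ω (xx 1)) ^ 2) = 0
      rw [hxx0, hxx1, hyy1, map_ofNat, map_ofNat, map_ofNat]
      linear_combination X' ^ 2 * hXX + (algebraMap F Ω x) * k1
    · simp only [qq, map_sub, map_add, map_mul, map_pow, MvPolynomial.map_X, MvPolynomial.map_C,
        eval_X, eval_C, pow_one]
      show ((δ 0 * algebraMap F Ω (yy 0)) ^ 2 + algebraMap ℚ Ω 13392 * (algebraMap F Ω (xx 0) * 1) +
        algebraMap ℚ Ω 1080432 * 1 ^ 2) * ((δ 1 * algebraMap F Ω (yy 1)) ^ 2 +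
        algebraMap ℚ Ω 13392 * (algebraMap F Ω (xx 1) * 1) + algebraMap ℚ Ω 1080432 * 1 ^ 2) -
        algebraMap ℚ Ω 21039 * ((algebraMap F Ω (xx 0)) ^ 2 * (algebraMap F Ω (xx 1)) ^ 2) = 0
      rw [hxx0, hxx1, hyy0, hyy1, map_ofNat, map_ofNat, map_ofNat]
      have k0' : (δ 0 * algebraMap F Ω y) ^ 2 + 13392 * (algebraMap F Ω x * 1) + 1080432 * 1 ^ 2 =
          (algebraMap F Ω x) ^ 3 := by
        rw [k0]; ring
      have k1' : (δ 1 * algebraMap F Ω z) ^ 2 + 13392 * (X' * 1) + 1080432 * 1 ^ 2 = X' ^ 3 := by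
        rw [k1]; ring
      rw [k0', k1']
      linear_combination (algebraMap F Ω x) ^ 2 * X' ^ 2 * hXX
  rintro g ⟨f, hf, rfl⟩
  have h3 := key f hf
  have h4 := aeval_algebraMap_apply Ω
    (fun p : Fin 2 × Fin 3 => crd (Affine.Point.some _ _ (hn p.1)) p.2) (twp D f)
  exact (map_eq_zero (algebraMap F Ω)).1 (h4.symm.trans h3)

end ex

end Pool.Agent.R425.D
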