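import Pool.Agent.R425.D.Coc
import Pool.Agent.Y700.VC

/-!
# Tate-Shafarevich groups of isomorphic curves
-/

set_option autoImplicit false
set_option linter.all false

open IsDedekindDomain NumberField WeierstrassCurve

namespace Pool.Agent.R425.D

open Pool.Agent.Y700
open Pool.Agent.TH841.SH.D (Pt act Gal Coch IsCoc IsCob LocTriv cob)

open scoped Classical

section

variable {k : Type} [Field k] {W W' : WeierstrassCurve k} {u r s t : k} (h : VR W W' u r s t)
  (hD : W'.Δ ≠ 0)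

lemma disc_bc (hD : W'.Δ ≠ 0) (L : Type) [Field L] [Algebra k L] : (W'.baseChange L).Δ ≠ 0 := by
  show (W'.map (algebraMap k L)).Δ ≠ 0
  rw [WeierstrassCurve.map_Δ]
  exact (map_ne_zero _).2 hD

/-- the isomorphism on the points over `L` -/
noncomputable def eqL (L : Type) [Field L] [Algebra k L] : Pt W' L ≃+ Pt W L :=
  (show VR (W.baseChange L) (W'.baseChange L) _ _ _ _ from h.map (algebraMap k L)).equiv (disc_bc hD L)

lemma eqL_act {F L : Type} [Field F] [Field L] [Algebra k F] [Algebra k L] (φ : F →ₐ[k] L)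
    (P : Pt W' F) : act W φ (eqL h hD F P) = eqL h hD L (act W' φ P) := by
  match P with
  | .zero => rfl
  | .some x y n =>
    have e1 : eqL h hD F (.some x y n) =
        .some (algebraMap k F u ^ 2 * x + algebraMap k F r)
          (algebraMap k F u ^ 3 * y + algebraMap k F u ^ 2 * algebraMap k F s * x + algebraMap k F t)
          (nonsing ((h.map (algebraMap k F)).delta_ne (disc_bc hD F))
            ((h.map (algebraMap k F)).eqn.2 n.1)) := rfl
    rw [e1]
    show (Affine.Point.some (φ _) (φ _) _ : (W.baseChange L).toAffine.Point) =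
      Affine.Point.some (algebraMap k L u ^ 2 * φ x + algebraMap k L r)
          (algebraMap k L u ^ 3 * φ y + algebraMap k L u ^ 2 * algebraMap k L s * φ x +
            algebraMap k L t) _
    rw [Affine.Point.some.injEq]
    simp only [map_add, map_mul, map_pow, AlgHom.commutes]
    exact ⟨trivial, trivial⟩

lemma eqL_symm_act {F L : Type} [Field F] [Field L] [Algebra k F] [Algebra k L] (φ : F →ₐ[k] L)
    (P : Pt W F) : act W' φ ((eqL h hD F).symm P) = (eqL h hD L).symm (act W φ P) := by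
  apply (eqL h hD L).injective
  rw [← eqL_act, AddEquiv.apply_symm_apply, AddEquiv.apply_symm_apply]

end

section

variable {k : Type} [Field k] [NumberField k] {W W' : WeierstrassCurve k} {u r s t : k}
  (h : VR W W' u r s t) (hD : W'.Δ ≠ 0)

include h hD in
/-- the 2-torsion of the Tate-Shafarevich group under a change of variables -/
theorem sha_vr (hsha : ∀ s : Pool.Agent.TH841.NF.D.Sha W', 2 • s = 0 → s = 0) :
    ∀ s : Pool.Agent.TH841.NF.D.Sha W, 2 • s = 0 → s = 0 := by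
  intro q hq
  obtain ⟨⟨f, hf⟩, rfl⟩ := QuotientAddGroup.mk_surjective q
  let Q : Pool.Agent.TH841.NF.D.shaCoc W →+ Pool.Agent.TH841.NF.D.Sha W :=
    QuotientAddGroup.mk' ((cob W).addSubgroupOf (Pool.Agent.TH841.NF.D.shaCoc W))
  let Q' : Pool.Agent.TH841.NF.D.shaCoc W' →+ Pool.Agent.TH841.NF.D.Sha W' :=
    QuotientAddGroup.mk' ((cob W').addSubgroupOf (Pool.Agent.TH841.NF.D.shaCoc W'))
  have hq1 : Q (2 • ⟨f, hf⟩) = 0 := by
    rw [map_nsmul]
    exact hq
  have hq2 : (2 • (⟨f, hf⟩ : Pool.Agent.TH841.NF.D.shaCoc W)) ∈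
      (cob W).addSubgroupOf (Pool.Agent.TH841.NF.D.shaCoc W) :=
    (QuotientAddGroup.eq_zero_iff _).1 hq1
  have hq3 : ((2 • (⟨f, hf⟩ : Pool.Agent.TH841.NF.D.shaCoc W) :
      Pool.Agent.TH841.NF.D.shaCoc W) : Coch W) ∈ cob W := AddSubgroup.mem_addSubgroupOf.1 hq2
  rw [AddSubgroup.coe_nsmul] at hq3
  obtain ⟨P, hP⟩ : IsCob W (2 • f) := hq3
  let f' : Coch W' := fun σ => (eqL h hD (AlgebraicClosure k)).symm (f σ)
  have hf' : Pool.Agent.TH841.NF.D.IsShaCoc W' f' := by
    refine ⟨⟨?_, fun σ τ => ?_⟩, fun v ι => ?_, fun v ι => ?_⟩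
    · exact hf.1.1.comp _
    · show (eqL h hD (AlgebraicClosure k)).symm (f (σ * τ)) = _
      rw [hf.1.2, map_add, ← eqL_symm_act]
    · obtain ⟨R, hR⟩ := hf.2.1 v ι
      refine ⟨(eqL h hD _).symm R, fun τ σ hτσ => ?_⟩
      show act W' ι ((eqL h hD (AlgebraicClosure k)).symm (f σ)) = _
      rw [eqL_symm_act, hR τ σ hτσ, map_sub, ← eqL_symm_act]
    · obtain ⟨R, hR⟩ := hf.2.2 v ι
      refine ⟨(eqL h hD _).symm R, fun τ σ hτσ => ?_⟩
      show act W' ι ((eqL h hD (AlgebraicClosure k)).symm (f σ)) = _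
      rw [eqL_symm_act, hR τ σ hτσ, map_sub, ← eqL_symm_act]
  have h2 : (2 • (⟨f', hf'⟩ : Pool.Agent.TH841.NF.D.shaCoc W')) ∈
      (cob W').addSubgroupOf (Pool.Agent.TH841.NF.D.shaCoc W') := by
    refine (⟨(eqL h hD _).symm P, fun σ => ?_⟩ : IsCob W' (2 • f'))
    show 2 • (eqL h hD (AlgebraicClosure k)).symm (f σ) = _
    have e1 : 2 • f σ = act W σ.toAlgHom P - P := hP σ
    rw [← map_nsmul, e1, map_sub, ← eqL_symm_act]
  have h3 : Q' (2 • ⟨f', hf'⟩) = 0 := (QuotientAddGroup.eq_zero_iff _).2 h2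
  rw [map_nsmul] at h3
  have h4 := hsha _ h3
  have h5 : (⟨f', hf'⟩ : Pool.Agent.TH841.NF.D.shaCoc W') ∈
      (cob W').addSubgroupOf (Pool.Agent.TH841.NF.D.shaCoc W') :=
    (QuotientAddGroup.eq_zero_iff _).1 h4
  obtain ⟨R, hR⟩ : IsCob W' f' := h5
  have h6 : (⟨f, hf⟩ : Pool.Agent.TH841.NF.D.shaCoc W) ∈
      (cob W).addSubgroupOf (Pool.Agent.TH841.NF.D.shaCoc W) := by
    refine (⟨eqL h hD _ R, fun σ => ?_⟩ : IsCob W f)
    have e1 : (eqL h hD (AlgebraicClosure k)).symm (f σ) = act W' σ.toAlgHom R - R := hR σ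
    have e2 := congrArg (eqL h hD (AlgebraicClosure k)) e1
    rw [AddEquiv.apply_symm_apply, map_sub, ← eqL_act] at e2
    exact e2
  exact (QuotientAddGroup.eq_zero_iff _).2 h6

end

end Pool.Agent.R425.D
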