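import Pool.Agent.R425.D.Fin

/-!
# The theorems on two-power descent
-/

set_option autoImplicit false
set_option linter.all false

open IsDedekindDomain NumberField WeierstrassCurve MvPolynomial

namespace Pool.Agent.R425.D

open Pool.Agent.TH954
open Pool.Agent.Y702.G (base pts)

open scoped Classical

section

/-- the map on points of a homomorphism of fields, as a map of sets -/
lemma transport' {L₁ L₂ : Type} [Field L₁] [Field L₂] (g : L₁ →+* L₂) (W₁ : WeierstrassCurve L₁)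
    (W₂ : WeierstrassCurve L₂) (h : W₁.map g = W₂) :
    ∃ φ : W₁.toAffine.Point → W₂.toAffine.Point, ∀ P j, crd (φ P) j = g (crd P j) := by
  obtain ⟨φ, hφ⟩ := transport g W₁ W₂ h
  exact ⟨fun P => φ P, hφ⟩

end

section

variable {n : ℕ} {W : Fin n → WeierstrassCurve ℤ}

/-- **Uniform level.** -/
theorem thmU (hW : ∀ i, (W i).a₁ = 0 ∧ (W i).a₂ = 0 ∧ (W i).a₃ = 0) (hΔ : ∀ i, (W i).Δ ≠ 0)
    (hT : ∀ i, Triv (W i)) (S : Set (MvPolynomial (Fin n × Fin 3) ℚ)) (hS : ∀ f ∈ S, ∃ d, MultiHom d f)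
    (hno : OddFree W S) :
    ∃ k : ℕ, ∀ (K : Type) [Field K] [NumberField K], TwoExt W K →
      SelSet (fun i => base (W i) K) (eqs K S) (2 ^ k) = ∅ := by
  obtain ⟨k, hk⟩ := uniform W hW hΔ S hS hno
  refine ⟨k, fun K _ _ hK => ?_⟩
  obtain ⟨v, hv⟩ := exists_two K
  obtain ⟨h1, h2⟩ := hK.two hΔ v hv
  exact hk K v h1 h2 (fun i => (hK.sel hΔ hT i).1) (fun i => (hK.sel hΔ hT i).2.1)
    (fun i => (hK.sel hΔ hT i).2.2)

/-- If the points of odd order are rational then varieties without rational points have no points of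
odd order. -/
theorem oddFree_of (hR : ∀ i, OddRat (W i)) (S : Set (MvPolynomial (Fin n × Fin 3) ℚ))
    (hX : ∀ y : (i : Fin n) → (base (W i) ℚ).toAffine.Point,
      ¬ ∀ f ∈ S, eval (fun p => crd (y p.1) p.2) f = 0) : OddFree W S := by
  intro P hP
  by_contra hcon
  push Not at hcon
  choose m hm1 hm2 using hcon
  choose y hy using fun i => hR i (P i) (m i) (hm1 i) (hm2 i)
  refine hX y fun f hf => ?_
  have h1 := hP (map (algebraMap ℚ ℚ_[2]) f) ⟨f, hf, rfl⟩
  have e : (fun p : Fin n × Fin 3 => crd (P p.1) p.2) =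
      fun p => algebraMap ℚ ℚ_[2] (crd (y p.1) p.2) := by
    funext p
    exact hy p.1 p.2
  rw [e, eval_map] at h1
  have h2 : eval₂ (algebraMap ℚ ℚ_[2]) (fun p => algebraMap ℚ ℚ_[2] (crd (y p.1) p.2)) f =
      algebraMap ℚ ℚ_[2] (eval (fun p => crd (y p.1) p.2) f) :=
    (eval₂_comp_left (algebraMap ℚ ℚ_[2]) (RingHom.id ℚ) _ f).symm
  rw [h2, map_eq_zero] at h1
  exact h1

variable {K : Type} [Field K] [NumberField K]

/-- **Components at the places above two.** -/
theorem thmV1 (hW : ∀ i, (W i).a₁ = 0 ∧ (W i).a₂ = 0 ∧ (W i).a₃ = 0) (hΔ : ∀ i, (W i).Δ ≠ 0)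
    (hT : ∀ i, Triv (W i)) (hR : ∀ i, OddRat (W i)) (hK : TwoExt W K)
    (S : Set (MvPolynomial (Fin n × Fin 3) K)) (v : HeightOneSpectrum (𝓞 K))
    (hv : ((2 : ℕ) : 𝓞 K) ∈ v.asIdeal)
    (P : (i : Fin n) → ((base (W i) K).baseChange (v.adicCompletion K)).toAffine.Point)
    (hP : OnX S (fun i => crd (P i)))
    (h : ∀ k : ℕ, ∃ ξ ∈ SelSet (fun i => base (W i) K) S (2 ^ k),
      CovAt (fun i => base (W i) K) (2 ^ k) ξ (v.adicCompletion K) P) :
    ∃ y : (i : Fin n) → (base (W i) K).toAffine.Point,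
      (∀ f ∈ S, eval (fun p => crd (y p.1) p.2) f = 0) ∧
      ∀ i j, crd (P i) j = algebraMap K (v.adicCompletion K) (crd (y i) j) := by
  have : CharZero (v.adicCompletion K) :=
    charZero_of_injective_algebraMap (algebraMap K (v.adicCompletion K)).injective
  obtain ⟨hv1, hv2⟩ := hK.two hΔ v hv
  obtain ⟨e⟩ := split_iso v hv1 hv2
  let g : v.adicCompletion K →+* ℚ_[2] := e.symm.toRingHom
  have hg : Function.Injective g := e.symm.injective
  have hφ : ∀ i, ∃ φ : ((base (W i) K).baseChange (v.adicCompletion K)).toAffine.Point →+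
      (base (W i) ℚ_[2]).toAffine.Point, ∀ P j, crd (φ P) j = g (crd P j) := by
    intro i
    refine transport g _ _ ?_
    show ((base (W i) K).map (algebraMap K (v.adicCompletion K))).map g = _
    rw [base_map, base_map]
  choose φ hφ using hφ
  have hodd : ∀ i, ∃ m : ℕ, Odd m ∧ m • φ i (P i) = 0 := by
    intro i
    refine odd_of_div (si_base (W i) (hW i).1 (hW i).2.1 (hW i).2.2)
      (disc_base (W i) (hW i).1 (hW i).2.1 (hW i).2.2 (hΔ i)) norm_two' _ fun k => ?_
    obtain ⟨ξ, hξ, hc⟩ := h k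
    obtain ⟨z, hz⟩ := divisible' (fun i => base (W i) K) (fun i => (hK.sel hΔ hT i).1)
      (fun i => (hK.sel hΔ hT i).2.1) (fun i => (hK.sel hΔ hT i).2.2) S k ξ hξ
      (v.adicCompletion K) P hc i
    exact ⟨φ i z, by rw [hz, map_nsmul]⟩
  choose m hm1 hm2 using hodd
  choose y hy using fun i => hR i (φ i (P i)) (m i) (hm1 i) (hm2 i)
  have hψ : ∀ i, ∃ ψ : (base (W i) ℚ).toAffine.Point → (base (W i) K).toAffine.Point,
      ∀ P j, crd (ψ P) j = algebraMap ℚ K (crd P j) := fun i =>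
    transport' (algebraMap ℚ K) _ _ (base_map (W i) _)
  choose ψ hψ using hψ
  have hcrd : ∀ i j, crd (P i) j = algebraMap K (v.adicCompletion K) (crd (ψ i (y i)) j) := by
    intro i j
    apply hg
    rw [← hφ, hy, hψ]
    have e1 : (g.comp ((algebraMap K (v.adicCompletion K)).comp (algebraMap ℚ K))) =
        algebraMap ℚ ℚ_[2] := Subsingleton.elim _ _
    rw [← e1]
    rfl
  refine ⟨fun i => ψ i (y i), fun f hf => ?_, hcrd⟩
  have h1 := hP f hf
  rw [aeval_def] at h1
  have e2 : (fun p : Fin n × Fin 3 => crd (P p.1) p.2) =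
      fun p => algebraMap K (v.adicCompletion K) (crd (ψ p.1 (y p.1)) p.2) := by
    funext p
    exact hcrd p.1 p.2
  rw [e2] at h1
  have h2 : eval₂ (algebraMap K (v.adicCompletion K))
      (fun p => algebraMap K (v.adicCompletion K) (crd (ψ p.1 (y p.1)) p.2)) f =
      algebraMap K (v.adicCompletion K) (eval (fun p => crd (ψ p.1 (y p.1)) p.2) f) :=
    (eval₂_comp_left (algebraMap K (v.adicCompletion K)) (RingHom.id K) _ f).symm
  rw [h2, map_eq_zero] at h1
  exact h1

/-- **The Hasse principle part.** -/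
theorem thmV2 (hW : ∀ i, (W i).a₁ = 0 ∧ (W i).a₂ = 0 ∧ (W i).a₃ = 0) (hΔ : ∀ i, (W i).Δ ≠ 0)
    (hT : ∀ i, Triv (W i)) (hR : ∀ i, OddRat (W i)) (hK : TwoExt W K)
    (S : Set (MvPolynomial (Fin n × Fin 3) K)) (hS : ∀ f ∈ S, ∃ d, MultiHom d f)
    (hX : ∀ y : (i : Fin n) → (base (W i) K).toAffine.Point,
      ¬ ∀ f ∈ S, eval (fun p => crd (y p.1) p.2) f = 0) :
    ∃ k : ℕ, SelSet (fun i => base (W i) K) S (2 ^ k) = ∅ := by
  obtain ⟨v, hv⟩ := exists_two K
  obtain ⟨hv1, hv2⟩ := hK.two hΔ v hv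
  obtain ⟨e⟩ := split_iso v hv1 hv2
  let g : v.adicCompletion K →+* ℚ_[2] := e.symm.toRingHom
  let θ : K →+* ℚ_[2] := g.comp (algebraMap K (v.adicCompletion K))
  have hψ : ∀ i, ∃ ψ : (base (W i) ℚ).toAffine.Point → (base (W i) K).toAffine.Point,
      ∀ P j, crd (ψ P) j = algebraMap ℚ K (crd P j) := fun i =>
    transport' (algebraMap ℚ K) _ _ (base_map (W i) _)
  choose ψ hψ using hψ
  have hθ : ∀ q : ℚ, θ (algebraMap ℚ K q) = algebraMap ℚ ℚ_[2] q := by
    intro q
    have e1 : θ.comp (algebraMap ℚ K) = algebraMap ℚ ℚ_[2] := Subsingleton.elim _ _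
    rw [← e1]
    rfl
  obtain ⟨k, hk⟩ := loc_main norm_two' (fun i => base (W i) ℚ_[2])
    (fun i => si_base (W i) (hW i).1 (hW i).2.1 (hW i).2.2)
    (fun i => disc_base (W i) (hW i).1 (hW i).2.1 (hW i).2.2 (hΔ i))
    {f | ∃ h ∈ S, f = map θ h}
    (by
      rintro f ⟨h, hh, rfl⟩
      obtain ⟨d, hd⟩ := hS h hh
      exact ⟨d, fun m hm => hd m (MvPolynomial.support_map_subset _ _ hm)⟩)
    (by
      intro P hP
      by_contra hcon
      push Not at hcon
      choose m hm1 hm2 using hcon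
      choose y hy using fun i => hR i (P i) (m i) (hm1 i) (hm2 i)
      refine hX (fun i => ψ i (y i)) fun f hf => ?_
      have h1 := hP (map θ f) ⟨f, hf, rfl⟩
      have e2 : (fun p : Fin n × Fin 3 => crd (P p.1) p.2) =
          fun p => θ (crd (ψ p.1 (y p.1)) p.2) := by
        funext p
        rw [hψ, hθ]
        exact hy p.1 p.2
      rw [e2, eval_map] at h1
      have h2 : eval₂ θ (fun p => θ (crd (ψ p.1 (y p.1)) p.2)) f =
          θ (eval (fun p => crd (ψ p.1 (y p.1)) p.2) f) :=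
        (eval₂_comp_left θ (RingHom.id K) _ f).symm
      rw [h2, map_eq_zero] at h1
      exact h1)
  refine ⟨k, ?_⟩
  rw [Set.eq_empty_iff_forall_notMem]
  intro ξ hξ
  obtain ⟨P, hP, hz⟩ := divisible (fun i => base (W i) K) (fun i => (hK.sel hΔ hT i).1)
    (fun i => (hK.sel hΔ hT i).2.1) (fun i => (hK.sel hΔ hT i).2.2) S k ξ hξ v
  choose z hz using hz
  have hφ : ∀ i, ∃ φ : ((base (W i) K).baseChange (v.adicCompletion K)).toAffine.Point →+
      (base (W i) ℚ_[2]).toAffine.Point, ∀ P j, crd (φ P) j = g (crd P j) := by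
    intro i
    refine transport g _ _ ?_
    show ((base (W i) K).map (algebraMap K (v.adicCompletion K))).map g = _
    rw [base_map, base_map]
  choose φ hφ using hφ
  obtain ⟨i, hi⟩ := hk (fun i => φ i (P i)) (by
    rintro f ⟨h, hh, rfl⟩
    have h1 := hP h hh
    rw [aeval_def] at h1
    have h2 := congrArg g h1
    rw [map_zero, MvPolynomial.hom_eval₂] at h2
    rw [eval_map]
    rw [← h2]
    congr 1
    funext p
    exact hφ p.1 (P p.1) p.2)
  apply hi (φ i (z i))
  rw [hz i, map_nsmul]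

end

end Pool.Agent.R425.D
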