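import Pool.Agent.R425.D.TwS

/-!
# Quadratic twists with trivial 2-Selmer groups
-/

set_option autoImplicit false
set_option linter.all false

open IsDedekindDomain NumberField WeierstrassCurve MvPolynomial

namespace Pool.Agent.R425.D

open Pool.Agent.TH954
open Pool.Agent.Y702.G (base pts)
open Pool.Agent.Y700 (VR)

open scoped Classical

/-- the twist `y² = x³ + a D² x + b D³` of `y² = x³ + a x + b` -/
def tws (W : WeierstrassCurve ℤ) (D : ℤ) : WeierstrassCurve ℤ :=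
  ⟨0, 0, 0, W.a₄ * D ^ 2, W.a₆ * D ^ 3⟩

section

variable {W : WeierstrassCurve ℤ} (hW : W.a₁ = 0 ∧ W.a₂ = 0 ∧ W.a₃ = 0)

include hW

lemma tws_vr {L : Type} [Field L] {δ : L} {D : ℤ} (hδ : δ ^ 2 = (D : L)) (h0 : δ ≠ 0) :
    VR (base (tws W D) L) (base W L) δ 0 0 0 where
  u0 := h0
  e1 := by
    show δ * ((W.a₁ : ℤ) : L) = ((0 : ℤ) : L) + 2 * 0
    rw [hW.1]; simp
  e2 := by
    show δ ^ 2 * ((W.a₂ : ℤ) : L) = ((0 : ℤ) : L) - 0 * ((0 : ℤ) : L) + 3 * 0 - 0 ^ 2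
    rw [hW.2.1]; simp
  e3 := by
    show δ ^ 3 * ((W.a₃ : ℤ) : L) = ((0 : ℤ) : L) + 0 * ((0 : ℤ) : L) + 2 * 0
    rw [hW.2.2]; simp
  e4 := by
    show δ ^ 4 * ((W.a₄ : ℤ) : L) = ((W.a₄ * D ^ 2 : ℤ) : L) - 0 * ((0 : ℤ) : L) +
      2 * 0 * ((0 : ℤ) : L) - (0 + 0 * 0) * ((0 : ℤ) : L) + 3 * 0 ^ 2 - 2 * 0 * 0
    push_cast
    rw [← hδ]
    ring
  e6 := by
    show δ ^ 6 * ((W.a₆ : ℤ) : L) = ((W.a₆ * D ^ 3 : ℤ) : L) + 0 * ((W.a₄ * D ^ 2 : ℤ) : L) +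
      0 ^ 2 * ((0 : ℤ) : L) + 0 ^ 3 - 0 * ((0 : ℤ) : L) - 0 ^ 2 - 0 * 0 * ((0 : ℤ) : L)
    push_cast
    rw [← hδ]
    ring

lemma tws_disc (D : ℤ) : (tws W D).Δ = W.Δ * D ^ 6 := by
  simp only [tws, WeierstrassCurve.Δ, WeierstrassCurve.b₂, WeierstrassCurve.b₄, WeierstrassCurve.b₆,
    WeierstrassCurve.b₈, hW.1, hW.2.1, hW.2.2]
  ring

end

/-- trivial 2-Selmer group -/
structure Good {k : Type} [Field k] [NumberField k] (E : WeierstrassCurve k) : Prop where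
  sha : ∀ s : Pool.Agent.TH841.NF.D.Sha E, 2 • s = 0 → s = 0
  fin : Finite E.toAffine.Point
  tor : ∀ P : E.toAffine.Point, 2 • P = 0 → P = 0

/-- a finite group without elements of order two has odd order -/
lemma odd_card {G : Type} [AddCommGroup G] [Finite G] (h : ∀ P : G, 2 • P = 0 → P = 0) :
    ∃ c, Nat.card G = 2 * c + 1 := by
  by_contra hcon
  have heven : ¬ Odd (Nat.card G) := fun ⟨c, hc⟩ => hcon ⟨c, hc⟩
  rw [Nat.not_odd_iff_even] at heven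
  obtain ⟨g, hg⟩ := exists_prime_addOrderOf_dvd_card' (G := G) 2 heven.two_dvd
  have h1 : 2 • g = 0 := by
    rw [← hg]
    exact addOrderOf_nsmul_eq_zero g
  rw [h g h1, addOrderOf_zero] at hg
  norm_num at hg

/-- descent along an embedding of the groups of points -/
lemma inj_good {k L : Type} [Field k] [Field L] (g : k →+* L) (W₁ : WeierstrassCurve k)
    (W₂ : WeierstrassCurve L) (h : W₁.map g = W₂) (hfin : Finite W₂.toAffine.Point)
    (htor : ∀ P : W₂.toAffine.Point, 2 • P = 0 → P = 0) :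
    Finite W₁.toAffine.Point ∧ ∀ P : W₁.toAffine.Point, 2 • P = 0 → P = 0 := by
  obtain ⟨φ, hφ⟩ := transport g W₁ W₂ h
  have hinj : Function.Injective φ := by
    intro P Q hPQ
    refine crd_inj fun j => g.injective ?_
    rw [← hφ, ← hφ, hPQ]
  refine ⟨Finite.of_injective φ hinj, fun P hP => hinj ?_⟩
  rw [map_zero]
  apply htor
  rw [← map_nsmul, hP, map_zero]

lemma equiv_good {G H : Type} [AddCommGroup G] [AddCommGroup H] (e : G ≃+ H) (hfin : Finite G)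
    (htor : ∀ P : G, 2 • P = 0 → P = 0) : Finite H ∧ ∀ P : H, 2 • P = 0 → P = 0 := by
  refine ⟨Finite.of_equiv _ e.toEquiv, fun P hP => ?_⟩
  have h1 := htor (e.symm P) (by rw [← map_nsmul, hP, map_zero])
  rw [← e.apply_symm_apply P, h1, map_zero]

/-- over the quadratic field -/
lemma quad_good {W : WeierstrassCurve ℤ} (hW : W.a₁ = 0 ∧ W.a₂ = 0 ∧ W.a₃ = 0) (hΔ : W.Δ ≠ 0)
    {K : Type} [Field K] [NumberField K] {δ : K} {D : ℤ} (hδ : δ ^ 2 = (D : K)) (hD : D ≠ 0)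
    (h : Good (base W K)) : Good (base (tws W D) K) := by
  have h0 : δ ≠ 0 := by
    rintro rfl
    rw [zero_pow two_ne_zero] at hδ
    exact hD (by exact_mod_cast hδ.symm)
  have hvr := tws_vr hW hδ h0
  have hd : (base W K).Δ ≠ 0 := by
    rw [WeierstrassCurve.map_Δ]
    simpa using hΔ
  obtain ⟨h1, h2⟩ := equiv_good (hvr.equiv hd) h.fin h.tor
  exact ⟨sha_vr hvr hd h.sha, h1, h2⟩

/-- over the rationals -/
theorem tws_good {W : WeierstrassCurve ℤ} (hW : W.a₁ = 0 ∧ W.a₂ = 0 ∧ W.a₃ = 0) (hΔ : W.Δ ≠ 0)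
    (hT : Triv W) {T : Finset ℕ} (hA : Allowed W T) :
    Good (base (tws W (Pool.Agent.Y18.BSD.disc T)) ℚ) := by
  obtain ⟨K, _, _, δ, hδ, hgen, hK⟩ := tw_field hΔ hA
  have hD : Pool.Agent.Y18.BSD.disc T ≠ 0 :=
    Pool.Agent.R901.EC.disc_ne fun q hq => (hA.adm q hq).1
  obtain ⟨h1, h2, h3⟩ := hK.sel (fun _ => hΔ) (fun _ => hT) 0
  have hG := quad_good hW hΔ hδ hD ⟨h1, h2, h3⟩
  obtain ⟨c, hc⟩ := @odd_card _ _ hG.fin hG.tor
  have hSc : Pool.Agent.TH841.NF.Sc (algebraMap ℚ K) 1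
      (base (tws W (Pool.Agent.Y18.BSD.disc T)) ℚ) (base (tws W (Pool.Agent.Y18.BSD.disc T)) K) := by
    refine ⟨one_ne_zero, ?_, ?_, ?_, ?_, ?_⟩ <;>
    · simp only [base, WeierstrassCurve.map, eq_intCast, map_intCast, one_pow, mul_one]
  have hN : ∀ P : (base (tws W (Pool.Agent.Y18.BSD.disc T)) K).toAffine.Point,
      (2 * c + 1) • P = 0 := by
    intro P
    rw [← hc]
    exact card_nsmul_eq_zero'
  refine ⟨sha_of_quad hSc hδ hgen c hN hG.sha, ?_, ?_⟩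
  · exact (inj_good (algebraMap ℚ K) (base (tws W (Pool.Agent.Y18.BSD.disc T)) ℚ)
      (base (tws W (Pool.Agent.Y18.BSD.disc T)) K) (base_map _ _) hG.fin hG.tor).1
  · exact (inj_good (algebraMap ℚ K) (base (tws W (Pool.Agent.Y18.BSD.disc T)) ℚ)
      (base (tws W (Pool.Agent.Y18.BSD.disc T)) K) (base_map _ _) hG.fin hG.tor).2

end Pool.Agent.R425.D
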