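import Pool.Agent.R425.D.Thm
import Pool.Agent.R425.T.Tw

/-!
# Quadratic fields
-/

set_option autoImplicit false
set_option linter.all false

open IsDedekindDomain NumberField WeierstrassCurve

namespace Pool.Agent.R425.D

open Pool.Agent.Y702.G (base pts)

open scoped Classical

/-- The discriminant `∏ (-1) ^ ((q - 1) / 2) q` of the set `T` of primes is allowed for `W`. -/
structure Allowed (W : WeierstrassCurve ℤ) (T : Finset ℕ) : Prop where
  adm : ∀ q ∈ T, q.Prime ∧ ¬ (q : ℤ) ∣ 2 * W.Δ ∧ Odd (pts W (ZMod q) + 1)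
  split : ∀ p : ℕ, p.Prime → (p : ℤ) ∣ 2 * W.Δ → jacobiSym p (∏ q ∈ T, q) = 1
  pos : 0 < W.Δ → 0 < Pool.Agent.Y18.BSD.disc T

/-- elements of a field generated by a square root -/
lemma adj_sqrt {M : Type} [Field M] [NumberField M] {g : M} {D : ℤ} (hg : g ^ 2 = (D : M)) (x : M)
    (hx : x ∈ IntermediateField.adjoin ℚ {g}) : ∃ a b : ℚ, x = (a : M) + (b : M) * g := by
  have hint : IsIntegral ℚ g := Algebra.IsIntegral.isIntegral g
  have h1 : x ∈ Algebra.adjoin ℚ {g} := by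
    rw [← IntermediateField.adjoin_simple_toSubalgebra_of_isAlgebraic hint.isAlgebraic]
    exact hx
  refine Algebra.adjoin_induction (p := fun x _ => ∃ a b : ℚ, x = (a : M) + (b : M) * g)
    ?_ ?_ ?_ ?_ h1
  · intro y hy
    rw [Set.mem_singleton_iff] at hy
    exact ⟨0, 1, by rw [hy]; simp⟩
  · intro r
    exact ⟨r, 0, by simp⟩
  · rintro y z - - ⟨a, b, rfl⟩ ⟨c, d, rfl⟩
    exact ⟨a + c, b + d, by push_cast; ring⟩
  · rintro y z - - ⟨a, b, rfl⟩ ⟨c, d, rfl⟩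
    refine ⟨a * c + b * d * D, a * d + b * c, ?_⟩
    push_cast
    linear_combination (b : M) * (d : M) * hg

/-- The quadratic fields of the allowed discriminants. -/
theorem tw_field {W : WeierstrassCurve ℤ} (hΔ : W.Δ ≠ 0) {T : Finset ℕ} (hT : Allowed W T) :
    ∃ (K : Type) (_ : Field K) (_ : NumberField K) (δ : K),
      δ ^ 2 = ((Pool.Agent.Y18.BSD.disc T : ℤ) : K) ∧ (∀ x : K, ∃ a b : ℚ, x = (a : K) + (b : K) * δ) ∧
      TwoExt (fun _ : Fin 1 => W) K := by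
  have hTp : ∀ q ∈ T, q.Prime ∧ q ≠ 2 := fun q hq =>
    ⟨(hT.adm q hq).1, fun h => (hT.adm q hq).2.1 (by rw [h]; exact Dvd.intro _ rfl)⟩
  haveI : NeZero (Pool.Agent.Y18.BSD.dd T) :=
    ⟨Pool.Agent.Y18.BSD.dd_ne_zero fun q hq => (hTp q hq).1⟩
  let M := CyclotomicField (Pool.Agent.Y18.BSD.dd T) ℚ
  have hcyc : IsCyclotomicExtension {Pool.Agent.Y18.BSD.dd T} ℚ M :=
    CyclotomicField.isCyclotomicExtension (Pool.Agent.Y18.BSD.dd T) ℚ
  obtain ⟨g, hg, -⟩ := Pool.Agent.Y18.NF.gauss_T (Pool.Agent.Y18.BSD.dd T) M hTp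
    (fun q hq => Finset.dvd_prod_of_mem _ hq)
  let K : IntermediateField ℚ M := IntermediateField.adjoin ℚ {g}
  obtain ⟨n, hn⟩ := Pool.Agent.R901.EC.finrank_sqrt g (Pool.Agent.Y18.BSD.disc T) hg
  have hm : ∀ l : ℕ, l.Prime → l ∣ Pool.Agent.Y18.BSD.dd T →
      ¬ (l : ℤ) ∣ 2 * W.Δ ∧ Odd (pts W (ZMod l) + 1) := by
    intro l hl hlm
    have h1 : ∃ q ∈ T, l ∣ q := (Prime.dvd_finset_prod_iff (Nat.prime_iff.1 hl) _).1 hlm
    obtain ⟨q, hq, h2⟩ := h1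
    have h3 : l = q := (Nat.prime_dvd_prime_iff_eq hl (hTp q hq).1).1 h2
    subst h3
    exact (hT.adm l hq).2
  have hadj : ∀ σ : M ≃ₐ[ℚ] M, σ g = g → K ≤ IntermediateField.fixedField (Subgroup.zpowers σ) := by
    intro σ h1
    show IntermediateField.adjoin ℚ {g} ≤ _
    rw [IntermediateField.adjoin_le_iff, Set.singleton_subset_iff]
    show g ∈ IntermediateField.fixedField (Subgroup.zpowers σ)
    rw [IntermediateField.mem_fixedField_iff]
    intro τ hτ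
    obtain ⟨k, rfl⟩ := Subgroup.mem_zpowers_iff.1 hτ
    have h3 : σ • g = g := h1
    have h4 : σ ^ k ∈ MulAction.stabilizer (M ≃ₐ[ℚ] M) g :=
      Subgroup.zpow_mem _ (MulAction.mem_stabilizer_iff.2 h3) k
    exact MulAction.mem_stabilizer_iff.1 h4
  have hfixg : ∀ σ : M ≃ₐ[ℚ] M, σ g = g → ∀ x ∈ K, σ x = x := by
    intro σ h1 x hx
    have h3 := hadj σ h1 hx
    rw [IntermediateField.mem_fixedField_iff] at h3
    exact h3 σ (Subgroup.mem_zpowers σ)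
  have hfix : ∀ (p : ℕ), p.Prime → (p : ℤ) ∣ 2 * W.Δ →
      ∀ (hpm : p.Coprime (Pool.Agent.Y18.BSD.dd T)) (σ : M ≃ₐ[ℚ] M),
      IsCyclotomicExtension.autEquivPow M
        (Polynomial.cyclotomic.irreducible_rat (NeZero.pos (Pool.Agent.Y18.BSD.dd T))) σ =
        ZMod.unitOfCoprime p hpm → ∀ x ∈ K, σ x = x := by
    intro p hp hpd hpm σ hσ
    apply hfixg
    refine Pool.Agent.Y18.NF.root_act (Pool.Agent.Y18.BSD.dd T) M hTp
      (fun q hq => Finset.dvd_prod_of_mem _ hq) hg σ ?_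
    have h2 : IsCyclotomicExtension.Rat.galEquivZMod (Pool.Agent.Y18.BSD.dd T) M σ =
        ZMod.unitOfCoprime p hpm := hσ
    rw [h2]
    unfold Pool.Agent.Y18.BSD.jc
    rw [ZMod.coe_unitOfCoprime, ZMod.val_natCast]
    rw [Int.natCast_mod, ← jacobiSym.mod_left]
    exact hT.split p hp hpd
  have hgal : IsGalois ℚ K := Pool.Agent.Y702.L.gal_F (Pool.Agent.Y18.BSD.dd T) M K
  have hcj : 0 < W.Δ → Pool.Agent.Y702.L.cj (Pool.Agent.Y18.BSD.dd T) M ∈ K.fixingSubgroup := by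
    intro hpos
    rw [IntermediateField.mem_fixingSubgroup_iff]
    apply hfixg
    let φ : M →+* ℂ := (IsAlgClosed.lift : M →ₐ[ℚ] ℂ).toRingHom
    apply φ.injective
    rw [Pool.Agent.Y702.L.cj_spec (Pool.Agent.Y18.BSD.dd T) M φ g]
    have h1 : (φ g) ^ 2 = ((Pool.Agent.Y18.BSD.disc T : ℤ) : ℂ) := by
      rw [← map_pow, hg, map_intCast]
    have h2 : (0 : ℝ) < ((Pool.Agent.Y18.BSD.disc T : ℤ) : ℝ) := by exact_mod_cast hT.pos hpos
    have h3 : (φ g) ^ 2 = ((Real.sqrt ((Pool.Agent.Y18.BSD.disc T : ℤ) : ℝ) : ℝ) : ℂ) ^ 2 := by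
      rw [h1, ← Complex.ofReal_pow, Real.sq_sqrt h2.le]
      push_cast
      rfl
    rcases sq_eq_sq_iff_eq_or_eq_neg.1 h3 with h4 | h4
    · rw [h4, Complex.conj_ofReal]
    · rw [h4, map_neg, Complex.conj_ofReal]
  have hgK : g ∈ K := IntermediateField.mem_adjoin_simple_self ℚ g
  have hpts : ∀ l : ℕ, l.Prime → l ∣ Pool.Agent.Y18.BSD.dd T →
      ¬ (l : ℤ) ∣ 2 * W.Δ := fun l hl hlm => (hm l hl hlm).1
  have hprod : (2 * ∏ _i : Fin 1, W.Δ : ℤ) = 2 * W.Δ := by simp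
  refine ⟨K, inferInstance, inferInstance, ⟨g, hgK⟩, ?_, ?_, hgal, ⟨n, hn⟩, ?_, ?_, ?_⟩
  · apply Subtype.ext
    show g ^ 2 = ((Pool.Agent.Y18.BSD.disc T : K) : M)
    rw [hg]
    simp
  · rintro ⟨x, hx⟩
    obtain ⟨a, b, hab⟩ := adj_sqrt hg x hx
    refine ⟨a, b, Subtype.ext ?_⟩
    show x = (((a : K) + (b : K) * ⟨g, hgK⟩ : K) : M)
    rw [hab]
    simp
  · intro l hl hld
    rw [hprod]
    by_cases hlm : l ∣ Pool.Agent.Y18.BSD.dd T
    · obtain ⟨h1, h2⟩ := hm l hl hlm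
      exact ⟨h1, fun _ => h2⟩
    · exact absurd hld (Pool.Agent.R425.not_disc K hl (fun v hv =>
        Pool.Agent.Y702.Fn.unr (Pool.Agent.Y18.BSD.dd T) M K hl hlm v hv))
  · rw [hprod]
    exact Pool.Agent.R901.EC.split_of W hpts M K hfix
  · intro _ hpos w
    exact Pool.Agent.Y702.L.real_of_mem (hcj hpos) w

/-- the discriminant is a square over the 2-adic numbers -/
lemma TwoExt.sqrt {n : ℕ} {W : Fin n → WeierstrassCurve ℤ} (hΔ : ∀ i, (W i).Δ ≠ 0) {K : Type}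
    [Field K] [NumberField K] (hK : TwoExt W K) (δ : K) (D : ℤ) (hδ : δ ^ 2 = (D : K)) :
    ∃ δ₂ : ℚ_[2], δ₂ ^ 2 = (D : ℚ_[2]) := by
  obtain ⟨v, hv⟩ := exists_two K
  obtain ⟨hv1, hv2⟩ := hK.two hΔ v hv
  obtain ⟨e⟩ := split_iso v hv1 hv2
  refine ⟨e.symm (algebraMap K (v.adicCompletion K) δ), ?_⟩
  rw [← map_pow, ← map_pow, hδ, map_intCast, map_intCast]

end Pool.Agent.R425.D
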