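import Pool.Agent.R425.D.TwE

/-!
# Two-power descent on quadratic twists
-/

set_option autoImplicit false
set_option linter.all false

open IsDedekindDomain NumberField WeierstrassCurve MvPolynomial

namespace Pool.Agent.R425.D

open Pool.Agent.TH954
open Pool.Agent.Y702.G (base pts)
open Pool.Agent.Y700 (VR)

open scoped Classical

section poly

variable {n : ℕ}

/-- the equation of the twist by the `D i` -/
noncomputable def twp (D : Fin n → ℤ) (f : MvPolynomial (Fin n × Fin 3) ℚ) :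
    MvPolynomial (Fin n × Fin 3) ℚ :=
  ∑ m ∈ f.support, monomial m (coeff m f *
    ∏ i, (((D i : ℤ) : ℚ) ^ m (i, 2) * (((D i : ℤ) : ℚ)⁻¹) ^ (m (i, 1) / 2)))

/-- all exponents of the `y`-coordinates are even -/
def EvenY (f : MvPolynomial (Fin n × Fin 3) ℚ) : Prop := ∀ m ∈ f.support, ∀ i, Even (m (i, 1))

variable {L : Type} [Field L] [CharZero L] [Algebra ℚ L]

/-- the scaling of the coordinates -/
noncomputable def scl (δ : L) (D : ℤ) : Fin 3 → L := ![1, δ⁻¹, (D : L)]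

lemma twp_eval (D : Fin n → ℤ) (δ : Fin n → L) (hδ : ∀ i, δ i ^ 2 = ((D i : ℤ) : L))
    (f : MvPolynomial (Fin n × Fin 3) ℚ) (hf : EvenY f) (u : Fin n × Fin 3 → L) :
    aeval u (twp D f) = aeval (fun p => scl (δ p.1) (D p.1) p.2 * u p) f := by
  have h1 : aeval (fun p => scl (δ p.1) (D p.1) p.2 * u p) f =
      ∑ m ∈ f.support, algebraMap ℚ L (coeff m f) *
        ∏ p : Fin n × Fin 3, (scl (δ p.1) (D p.1) p.2 * u p) ^ m p := by
    rw [aeval_def, eval₂_eq']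
  have h2 : aeval u (twp D f) = ∑ m ∈ f.support, algebraMap ℚ L (coeff m f *
      ∏ i, (((D i : ℤ) : ℚ) ^ m (i, 2) * (((D i : ℤ) : ℚ)⁻¹) ^ (m (i, 1) / 2))) *
        ∏ p : Fin n × Fin 3, u p ^ m p := by
    unfold twp
    rw [map_sum]
    refine Finset.sum_congr rfl fun m hm => ?_
    rw [aeval_monomial, Finsupp.prod_fintype]
    intro i
    rw [pow_zero]
  rw [h1, h2]
  refine Finset.sum_congr rfl fun m hm => ?_
  have h3 : ∏ p : Fin n × Fin 3, (scl (δ p.1) (D p.1) p.2 * u p) ^ m p =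
      (∏ p : Fin n × Fin 3, scl (δ p.1) (D p.1) p.2 ^ m p) * ∏ p : Fin n × Fin 3, u p ^ m p := by
    rw [← Finset.prod_mul_distrib]
    exact Finset.prod_congr rfl fun p _ => mul_pow _ _ _
  rw [map_mul, mul_assoc, h3]
  congr 1
  congr 1
  rw [Fintype.prod_prod_type, map_prod]
  refine Finset.prod_congr rfl fun i _ => ?_
  rw [Fin.prod_univ_three]
  show algebraMap ℚ L (((D i : ℤ) : ℚ) ^ m (i, 2) * (((D i : ℤ) : ℚ)⁻¹) ^ (m (i, 1) / 2)) =
    1 ^ m (i, 0) * (δ i)⁻¹ ^ m (i, 1) * ((D i : ℤ) : L) ^ m (i, 2)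
  obtain ⟨c, hc⟩ := (hf m hm i).two_dvd
  have h4 : (δ i)⁻¹ ^ (2 * c) = (((D i : ℤ) : L)⁻¹) ^ c := by
    rw [pow_mul, inv_pow (δ i) 2, hδ]
  rw [map_mul, map_pow, map_pow, map_inv₀, map_intCast, hc, Nat.mul_div_cancel_left c two_pos,
    one_pow, one_mul, h4, mul_comm]

end poly

section pts

variable {L : Type} [Field L] [CharZero L] {W : WeierstrassCurve ℤ}
  (hW : W.a₁ = 0 ∧ W.a₂ = 0 ∧ W.a₃ = 0) {δ : L} {D : ℤ} (hδ : δ ^ 2 = (D : L)) (h0 : δ ≠ 0)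
  (hd : (base W L).Δ ≠ 0)

include hδ in
lemma crd_equiv (Q : (base W L).toAffine.Point) : ∃ c : L, c ≠ 0 ∧
    ∀ j, scl δ D j * crd ((tws_vr hW hδ h0).equiv hd Q) j = c * crd Q j := by
  match Q with
  | .zero =>
    refine ⟨δ⁻¹, inv_ne_zero h0, fun j => ?_⟩
    have e : (tws_vr hW hδ h0).equiv hd (.zero) = 0 := map_zero _
    rw [e]
    fin_cases j <;> simp [crd, scl]
  | .some x y h =>
    refine ⟨δ ^ 2, pow_ne_zero 2 h0, fun j => ?_⟩
    have e0 : crd ((tws_vr hW hδ h0).equiv hd (.some x y h)) 0 = δ ^ 2 * x + 0 := rfl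
    have e1 : crd ((tws_vr hW hδ h0).equiv hd (.some x y h)) 1 = δ ^ 3 * y + δ ^ 2 * 0 * x + 0 := rfl
    have e2 : crd ((tws_vr hW hδ h0).equiv hd (.some x y h)) 2 = 1 := rfl
    fin_cases j
    · show 1 * crd ((tws_vr hW hδ h0).equiv hd (.some x y h)) 0 = δ ^ 2 * x
      rw [e0]
      ring
    · show δ⁻¹ * crd ((tws_vr hW hδ h0).equiv hd (.some x y h)) 1 = δ ^ 2 * y
      rw [e1]
      field_simp
      ring
    · show (D : L) * crd ((tws_vr hW hδ h0).equiv hd (.some x y h)) 2 = δ ^ 2 * 1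
      rw [e2, hδ]

end pts

section main

variable {n : ℕ} {W : Fin n → WeierstrassCurve ℤ}

lemma twist_eq {L : Type} [Field L] [CharZero L] [Algebra ℚ L]
    (hW : ∀ i, (W i).a₁ = 0 ∧ (W i).a₂ = 0 ∧ (W i).a₃ = 0) (D : Fin n → ℤ) (δ : Fin n → L)
    (hδ : ∀ i, δ i ^ 2 = ((D i : ℤ) : L)) (h0 : ∀ i, δ i ≠ 0) (hd : ∀ i, (base (W i) L).Δ ≠ 0)
    {f : MvPolynomial (Fin n × Fin 3) ℚ} (hf : EvenY f) (hm : ∃ d, MultiHom d f)
    (Q : (i : Fin n) → (base (W i) L).toAffine.Point)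
    (h : aeval (fun p : Fin n × Fin 3 =>
      crd ((tws_vr (hW p.1) (hδ p.1) (h0 p.1)).equiv (hd p.1) (Q p.1)) p.2) (twp D f) = 0) :
    eval (fun p => crd (Q p.1) p.2) (map (algebraMap ℚ L) f) = 0 := by
  rw [twp_eval D δ hδ f hf] at h
  choose c hc0 hc using fun i => crd_equiv (hW i) (hδ i) (h0 i) (hd i) (Q i)
  have e : (fun p : Fin n × Fin 3 => scl (δ p.1) (D p.1) p.2 *
      crd ((tws_vr (hW p.1) (hδ p.1) (h0 p.1)).equiv (hd p.1) (Q p.1)) p.2) =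
      fun p => c p.1 * crd (Q p.1) p.2 := by
    funext p
    exact hc p.1 p.2
  rw [e, aeval_def, ← eval_map] at h
  obtain ⟨d, hd'⟩ := hm
  have hm' : MultiHom d (map (algebraMap ℚ L) f) :=
    fun m hm => hd' m (MvPolynomial.support_map_subset _ _ hm)
  rw [hm'.eval_smul c (fun p => crd (Q p.1) p.2)] at h
  exact (mul_eq_zero.1 h).resolve_left (Finset.prod_ne_zero_iff.2 fun i _ => pow_ne_zero _ (hc0 i))

/-- **Uniform level for the quadratic twists.** -/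
theorem thmT (hW : ∀ i, (W i).a₁ = 0 ∧ (W i).a₂ = 0 ∧ (W i).a₃ = 0) (hΔ : ∀ i, (W i).Δ ≠ 0)
    (hT : ∀ i, Triv (W i)) (S : Set (MvPolynomial (Fin n × Fin 3) ℚ))
    (hS : ∀ f ∈ S, EvenY f ∧ ∃ d, MultiHom d f) (hno : OddFree W S) :
    ∃ k : ℕ, ∀ T : Fin n → Finset ℕ, (∀ i, Allowed (W i) (T i)) →
      SelSet (fun i => base (tws (W i) (Pool.Agent.Y18.BSD.disc (T i))) ℚ)
        {g | ∃ f ∈ S, g = twp (fun i => Pool.Agent.Y18.BSD.disc (T i)) f} (2 ^ k) = ∅ := by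
  obtain ⟨k, hk⟩ := loc_main norm_two' (fun i => base (W i) ℚ_[2])
    (fun i => si_base (W i) (hW i).1 (hW i).2.1 (hW i).2.2)
    (fun i => disc_base (W i) (hW i).1 (hW i).2.1 (hW i).2.2 (hΔ i)) (eqs ℚ_[2] S)
    (by
      rintro f ⟨g, hg, rfl⟩
      obtain ⟨-, d, hd⟩ := hS g hg
      exact ⟨d, fun m hm => hd m (MvPolynomial.support_map_subset _ _ hm)⟩) hno
  refine ⟨k, fun T hA => ?_⟩
  rw [Set.eq_empty_iff_forall_notMem]
  intro ξ hξ
  have hG := fun i => tws_good (hW i) (hΔ i) (hT i) (hA i)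
  set D : Fin n → ℤ := fun i => Pool.Agent.Y18.BSD.disc (T i) with hDdef
  have hD0 : ∀ i, D i ≠ 0 := fun i =>
    Pool.Agent.R901.EC.disc_ne fun q hq => ((hA i).adm q hq).1
  -- the square roots over the 2-adic numbers
  have hsq : ∀ i, ∃ δ₂ : ℚ_[2], δ₂ ^ 2 = ((D i : ℤ) : ℚ_[2]) := by
    intro i
    obtain ⟨K, _, _, δ, hδ, -, hK⟩ := tw_field (hΔ i) (hA i)
    exact hK.sqrt (fun _ => hΔ i) δ _ hδ
  choose δ hδ using hsq
  have h0 : ∀ i, δ i ≠ 0 := by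
    intro i h
    have h1 := hδ i
    rw [h, zero_pow two_ne_zero] at h1
    exact hD0 i (by exact_mod_cast h1.symm)
  have hd : ∀ i, (base (W i) ℚ_[2]).Δ ≠ 0 := by
    intro i
    rw [WeierstrassCurve.map_Δ]
    simpa using hΔ i
  -- the place above two
  let e0 := Padic.adicCompletionEquiv (𝓞 ℚ) ⟨2, Nat.prime_two⟩
  set v := (Rat.HeightOneSpectrum.primesEquiv (R := 𝓞 ℚ)).symm ⟨2, Nat.prime_two⟩ with hv
  let g : v.adicCompletion ℚ →+* ℚ_[2] := (e0.toRingEquiv.symm : v.adicCompletion ℚ ≃+* ℚ_[2]).toRingHom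
  obtain ⟨P, hP, hz⟩ := divisible (fun i => base (tws (W i) (D i)) ℚ) (fun i => (hG i).sha)
    (fun i => (hG i).fin) (fun i => (hG i).tor) _ k ξ hξ v
  choose z hz using hz
  have hφ : ∀ i, ∃ φ : ((base (tws (W i) (D i)) ℚ).baseChange (v.adicCompletion ℚ)).toAffine.Point →+
      (base (tws (W i) (D i)) ℚ_[2]).toAffine.Point, ∀ P j, crd (φ P) j = g (crd P j) := by
    intro i
    refine transport g _ _ ?_
    show ((base (tws (W i) (D i)) ℚ).map (algebraMap ℚ (v.adicCompletion ℚ))).map g = _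
    rw [base_map, base_map]
  choose φ hφ using hφ
  let ψ : (i : Fin n) → (base (tws (W i) (D i)) ℚ_[2]).toAffine.Point ≃+
      (base (W i) ℚ_[2]).toAffine.Point := fun i =>
    ((tws_vr (hW i) (hδ i) (h0 i)).equiv (hd i)).symm
  obtain ⟨i, hi⟩ := hk (fun i => ψ i (φ i (P i))) (by
    rintro f ⟨h, hh, rfl⟩
    refine twist_eq hW D δ hδ h0 hd (hS h hh).1 (hS h hh).2 (fun i => ψ i (φ i (P i))) ?_
    have h1 := hP (twp D h) ⟨h, hh, rfl⟩
    have h2 := congrArg g h1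
    rw [map_zero, aeval_def, MvPolynomial.hom_eval₂] at h2
    rw [aeval_def]
    refine Eq.trans ?_ h2
    have e1 : (g.comp (algebraMap ℚ (v.adicCompletion ℚ))) = algebraMap ℚ ℚ_[2] :=
      Subsingleton.elim _ _
    rw [e1]
    congr 1
    funext p
    show crd ((tws_vr (hW p.1) (hδ p.1) (h0 p.1)).equiv (hd p.1)
      (((tws_vr (hW p.1) (hδ p.1) (h0 p.1)).equiv (hd p.1)).symm (φ p.1 (P p.1)))) p.2 = _
    rw [AddEquiv.apply_symm_apply]
    exact hφ p.1 (P p.1) p.2)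
  apply hi (ψ i (φ i (z i)))
  rw [hz i, map_nsmul, map_nsmul]

end main

end Pool.Agent.R425.D
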