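import Pool.Agent.R425.D.TwF
import Pool.Agent.Y682.Inj
import Pool.Agent.Y682.Rst
import Pool.Agent.R413.SJ.ShaQ

/-!
# Tate-Shafarevich groups of quadratic twists
-/

set_option autoImplicit false
set_option linter.all false

attribute [-instance] DivisionRing.toRatAlgebra

open IsDedekindDomain NumberField WeierstrassCurve

namespace Pool.Agent.R425.D

open Pool.Agent.TH841.SH.D (Pt act Gal Coch IsCoc IsCob LocTriv cob)
open Pool.Agent.TH841.NF (Sc Qb tm tm_inj tm_tm tm_id sc_any sc_any' Fx cQ cF cQ_fx tr tr_cob aG)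
open Pool.Agent.Y682 (em rs tr_rs tp tp_act rs_sha rs_add)

open scoped Classical

section

variable {F : Type} [Field F] [NumberField F] {W : WeierstrassCurve F}

/-- points fixed by the Galois group -/
lemma fixed_kill (N : ℕ) (hN : ∀ P : W.toAffine.Point, N • P = 0) (Q : Pt W (AlgebraicClosure F))
    (h : ∀ σ : Gal F, act W σ.toAlgHom Q = Q) : N • Q = 0 := by
  obtain ⟨P, hP⟩ := Pool.Agent.TH954.exists_of_fixed (E := W) (L := F) Q (fun σ => h σ)
  have h1 : N • (P : W.toAffine.Point) = 0 := hN P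
  have h2 : Pool.Agent.TH954.incl W F (N • P) = N • Pool.Agent.TH954.incl W F P :=
    Pool.Agent.TH954.incl_nsmul (E := W) (L := F) N P
  have h3 : Pool.Agent.TH954.incl W F (N • P) = 0 := by
    have h4 : (N • P : (W.baseChange F).toAffine.Point) = 0 := h1
    rw [h4]
    rfl
  rw [← hP]
  exact h2.symm.trans h3

end

section

variable {F : Type} [Field F] [NumberField F] [Algebra ℚ F] {E : WeierstrassCurve ℚ}
  {W : WeierstrassCurve F} (hW : Sc (algebraMap ℚ F) 1 E W) (e : AlgebraicClosure F ≃+* Qb)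

/-- injectivity of the restriction to a quadratic extension -/
theorem cob_of_rs {δ : F} {D : ℤ} (hδ : δ ^ 2 = (D : F))
    (hgen : ∀ x : F, ∃ a b : ℚ, x = (a : F) + (b : F) * δ) (c : ℕ)
    (hN : ∀ P : W.toAffine.Point, (2 * c + 1) • P = 0) {f : Coch E} (hf : IsCoc E f)
    (h : IsCob W (rs hW e f)) : IsCob E f := by
  obtain ⟨P, hP⟩ := h
  set P' : Pt E Qb := tp hW e P with hP'
  have h1 : ∀ g : Gal ℚ, Fx e g → f g = act E g.toAlgHom P' - P' := fun g hg =>
    (tr_rs hW e f hg).symm.trans (tr_cob hW e hP hg)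
  let f' : Gal ℚ → Pt E Qb := fun g => f g - (act E g.toAlgHom P' - P')
  have hact : ∀ (g h : Gal ℚ) (Q : Pt E Qb), act E (g * h).toAlgHom Q =
      act E g.toAlgHom (act E h.toAlgHom Q) := fun g h Q =>
    (Pool.Agent.TH841.NF.act_act E g.toAlgHom h.toAlgHom Q).symm
  have hmul : ∀ g h : Gal ℚ, f' (g * h) = f' g + act E g.toAlgHom (f' h) := by
    intro g h
    show f (g * h) - (act E (g * h).toAlgHom P' - P') = (f g - (act E g.toAlgHom P' - P')) +
      act E g.toAlgHom (f h - (act E h.toAlgHom P' - P'))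
    rw [hf.2, hact, map_sub, map_sub]
    abel
  have h0 : ∀ g, Fx e g → f' g = 0 := fun g hg => sub_eq_zero.2 (h1 g hg)
  -- reduction to f'
  suffices hs : ∃ Q : Pt E Qb, ∀ g, f' g = act E g.toAlgHom Q - Q by
    obtain ⟨Q, hQ⟩ := hs
    refine ⟨P' + Q, fun g => ?_⟩
    have h2 : f g = f' g + (act E g.toAlgHom P' - P') := (sub_add_cancel _ _).symm
    rw [h2, hQ, map_add]
    abel
  by_cases hall : ∀ g, Fx e g
  · refine ⟨0, fun g => ?_⟩
    rw [h0 g (hall g), map_zero, sub_zero]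
  push Not at hall
  obtain ⟨s, hs⟩ := hall
  -- the action on the square root
  have hem : ∀ (g : Gal ℚ) (q : ℚ), g (em e (q : F)) = em e (q : F) := by
    intro g q
    rw [map_ratCast, map_ratCast]
  have hsgn : ∀ g : Gal ℚ, g (em e δ) = em e δ ∨ g (em e δ) = - em e δ := by
    intro g
    rw [← sq_eq_sq_iff_eq_or_eq_neg, ← map_pow, ← map_pow, hδ, map_intCast, map_intCast]
  have hfx : ∀ g : Gal ℚ, Fx e g ↔ g (em e δ) = em e δ := by
    intro g
    constructor
    · intro h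
      exact h δ
    · intro h x
      obtain ⟨a, b, rfl⟩ := hgen x
      show g (em e ((a : F) + (b : F) * δ)) = em e ((a : F) + (b : F) * δ)
      rw [map_add, map_mul, map_add, map_mul, hem, hem, h]
  have hneg : ∀ g : Gal ℚ, ¬ Fx e g → g (em e δ) = - em e δ := fun g hg =>
    (hsgn g).resolve_left (fun h => hg ((hfx g).2 h))
  have hss : ∀ g h : Gal ℚ, ¬ Fx e g → ¬ Fx e h → Fx e (g * h) := by
    intro g h hg hh
    rw [hfx]
    show g (h (em e δ)) = em e δ
    rw [hneg h hh, map_neg, hneg g hg, neg_neg]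
  have hinv : ∀ g : Gal ℚ, ¬ Fx e g → ¬ Fx e g⁻¹ := by
    intro g hg hh
    apply hg
    rw [hfx] at hh ⊢
    have h3 : g (g⁻¹ (em e δ)) = em e δ := by
      show (g * g⁻¹) (em e δ) = em e δ
      rw [mul_inv_cancel]
      rfl
    rw [hh] at h3
    exact h3
  have hmix : ∀ g h : Gal ℚ, Fx e g → ¬ Fx e h → ¬ Fx e (g * h) := by
    intro g h hg hh hgh
    apply hh
    rw [hfx] at hg hgh ⊢
    have h3 : g (h (em e δ)) = em e δ := hgh
    exact g.injective (h3.trans hg.symm)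
  set R : Pt E Qb := f' s with hR
  have hR1 : ∀ g, ¬ Fx e g → f' g = R := by
    intro g hg
    have h3 : f' (s * (s⁻¹ * g)) = f' s + act E s.toAlgHom (f' (s⁻¹ * g)) := hmul _ _
    rw [mul_inv_cancel_left, h0 _ (hss _ _ (hinv s hs) hg), map_zero, add_zero] at h3
    exact h3
  have hR2 : ∀ g : Gal ℚ, Fx e g → act E g.toAlgHom R = R := by
    intro g hg
    have h3 := hmul g s
    rw [hR1 _ (hmix g s hg hs), h0 g hg, zero_add] at h3
    exact h3.symm
  have hR3 : R + act E s.toAlgHom R = 0 := by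
    rw [← h0 _ (hss s s hs hs), hmul]
  have hR4 : ∀ g : Gal ℚ, ¬ Fx e g → act E g.toAlgHom R = -R := by
    intro g hg
    have h3 : act E (s * (s⁻¹ * g)).toAlgHom R = -R := by
      rw [hact, hR2 _ (hss _ _ (hinv s hs) hg)]
      exact (neg_eq_of_add_eq_zero_right hR3).symm
    rwa [mul_inv_cancel_left] at h3
  have hRN : (2 * c + 1) • R = 0 := by
    have S' := sc_any' hW (e.symm : Qb →+* AlgebraicClosure F)
    have S'' : Sc (RingHom.id Qb) 1 (E.baseChange Qb) (E.baseChange Qb) := by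
      refine ⟨one_ne_zero, ?_, ?_, ?_, ?_, ?_⟩ <;> simp
    set R0 : Pt W (AlgebraicClosure F) := tm S' R with hR0
    have hR0R : tp hW e R0 = R := by
      rw [hR0]
      show tm (sc_any hW (e : AlgebraicClosure F →+* Qb)) (tm S' R) = R
      rw [tm_tm S' _ S'' (fun x => e.apply_symm_apply x), tm_id S'' (fun x => rfl) rfl]
      rw [map_one, mul_one]
    have h3 : (2 * c + 1) • R0 = 0 := by
      refine fixed_kill (2 * c + 1) hN R0 fun σ => ?_
      apply tm_inj (sc_any hW (e : AlgebraicClosure F →+* Qb))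
      refine (tp_act hW e σ R0).trans ?_
      rw [hR0R, hR2 _ (cQ_fx e σ)]
    rw [← hR0R, ← map_nsmul, h3, map_zero]
  refine ⟨c • R, fun g => ?_⟩
  by_cases hg : Fx e g
  · rw [h0 g hg, map_nsmul, hR2 g hg, sub_self]
  · rw [hR1 g hg, map_nsmul, hR4 g hg]
    have h3 : (2 * c + 1) • R = c • R + c • R + R := by
      rw [add_nsmul, one_nsmul, two_mul, add_nsmul]
    rw [h3] at hRN
    have h4 : R = -(c • R + c • R) := (neg_eq_of_add_eq_zero_right hRN).symm
    have h5 : c • (-R) - c • R = -(c • R + c • R) := by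
      rw [smul_neg]
      abel
    rw [h5]
    exact h4

include hW in
/-- **The 2-torsion of the Tate-Shafarevich group over the rationals.** -/
theorem sha_of_quad {δ : F} {D : ℤ} (hδ : δ ^ 2 = (D : F))
    (hgen : ∀ x : F, ∃ a b : ℚ, x = (a : F) + (b : F) * δ) (c : ℕ)
    (hN : ∀ P : W.toAffine.Point, (2 * c + 1) • P = 0)
    (hsha : ∀ s : Pool.Agent.TH841.NF.D.Sha W, 2 • s = 0 → s = 0) :
    ∀ s : Pool.Agent.TH841.NF.D.Sha E, 2 • s = 0 → s = 0 := by
  obtain ⟨e⟩ : Nonempty (AlgebraicClosure F ≃+* Qb) := by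
    have h0 : Algebra.IsAlgebraic ℚ F := by
      have h1 := NumberField.isAlgebraic F
      convert h1
      exact Subsingleton.elim _ _
    have i3 : Algebra.IsAlgebraic ℚ (AlgebraicClosure F) := Algebra.IsAlgebraic.trans ℚ F _
    have i4 : IsAlgClosure ℚ (AlgebraicClosure F) := ⟨inferInstance, i3⟩
    exact ⟨(IsAlgClosure.equiv ℚ (AlgebraicClosure F) Qb).toRingEquiv⟩
  intro q hq
  obtain ⟨⟨f, hf⟩, rfl⟩ := QuotientAddGroup.mk_surjective q
  let Q : Pool.Agent.TH841.NF.D.shaCoc E →+ Pool.Agent.TH841.NF.D.Sha E :=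
    QuotientAddGroup.mk' ((cob E).addSubgroupOf (Pool.Agent.TH841.NF.D.shaCoc E))
  let Q' : Pool.Agent.TH841.NF.D.shaCoc W →+ Pool.Agent.TH841.NF.D.Sha W :=
    QuotientAddGroup.mk' ((cob W).addSubgroupOf (Pool.Agent.TH841.NF.D.shaCoc W))
  have hq1 : Q (2 • ⟨f, hf⟩) = 0 := by
    rw [map_nsmul]
    exact hq
  have hq2 : (2 • (⟨f, hf⟩ : Pool.Agent.TH841.NF.D.shaCoc E)) ∈
      (cob E).addSubgroupOf (Pool.Agent.TH841.NF.D.shaCoc E) :=
    (QuotientAddGroup.eq_zero_iff _).1 hq1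
  have hq3 : ((2 • (⟨f, hf⟩ : Pool.Agent.TH841.NF.D.shaCoc E) :
      Pool.Agent.TH841.NF.D.shaCoc E) : Coch E) ∈ cob E := AddSubgroup.mem_addSubgroupOf.1 hq2
  rw [AddSubgroup.coe_nsmul] at hq3
  have hq4 : IsCob E (f + f) := by
    have h1 : IsCob E (2 • f) := hq3
    rwa [two_nsmul] at h1
  have hfS : Pool.Agent.TH841.SH.D.IsShaCoc E f := (Pool.Agent.R413.SJ.ShaQ.sha_iff E f).1 hf
  have hf' : Pool.Agent.TH841.NF.D.IsShaCoc W (rs hW e f) := rs_sha hW e hfS
  have h2 : (2 • (⟨rs hW e f, hf'⟩ : Pool.Agent.TH841.NF.D.shaCoc W)) ∈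
      (cob W).addSubgroupOf (Pool.Agent.TH841.NF.D.shaCoc W) := by
    rw [AddSubgroup.mem_addSubgroupOf, AddSubgroup.coe_nsmul, two_nsmul]
    show IsCob W (rs hW e f + rs hW e f)
    rw [← rs_add]
    exact Pool.Agent.Y682.rs_cob hW e hq4
  have h3 : Q' (2 • ⟨rs hW e f, hf'⟩) = 0 := (QuotientAddGroup.eq_zero_iff _).2 h2
  rw [map_nsmul] at h3
  have h4 := hsha _ h3
  have h5 : (⟨rs hW e f, hf'⟩ : Pool.Agent.TH841.NF.D.shaCoc W) ∈
      (cob W).addSubgroupOf (Pool.Agent.TH841.NF.D.shaCoc W) :=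
    (QuotientAddGroup.eq_zero_iff _).1 h4
  have h6 : IsCob W (rs hW e f) := h5
  have h7 : IsCob E f := cob_of_rs hW e hδ hgen c hN hf.1 h6
  exact (QuotientAddGroup.eq_zero_iff _).2 (show (⟨f, hf⟩ : Pool.Agent.TH841.NF.D.shaCoc E) ∈
      (cob E).addSubgroupOf (Pool.Agent.TH841.NF.D.shaCoc E) from h7)

end

end Pool.Agent.R425.D
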