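import Pool.Agent.R425.D.Odd
import Pool.Agent.R425.D.ShaT
import Pool.Agent.R901.EC.X11

/-!
# The curve X_0(11)
-/

set_option autoImplicit false
set_option linter.all false

open IsDedekindDomain NumberField WeierstrassCurve MvPolynomial

namespace Pool.Agent.R425.D

open Pool.Agent.TH954
open Pool.Agent.Y702.G (base pts)

open scoped Classical

lemma odd_two {G : Type} [AddCommGroup G] {T : G} {m : ℕ} (hm : Odd m) (h : m • T = 0)
    (h2 : 2 • T = 0) : T = 0 := by
  obtain ⟨c, hc⟩ := hm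
  rw [hc, add_nsmul, one_nsmul, mul_comm, mul_nsmul] at h
  have h3 : c • (2 • T) = 0 := by rw [h2, nsmul_zero]
  have h4 : 2 • (c • T) = c • (2 • T) := by
    rw [← mul_nsmul, ← mul_nsmul, mul_comm]
  first
    | (rw [h4, h3, zero_add] at h; exact h)
    | (rw [h3, zero_add] at h; exact h)

/-- the short equation of `X_0(11)` -/
def E11s : WeierstrassCurve ℤ := ⟨0, 0, 0, -13392, -1080432⟩

section norms

lemma nrm (k : ℕ) (c : ℤ) (hc : ¬ (2 : ℤ) ∣ c) : ‖(((2 : ℤ) ^ k * c : ℤ) : ℚ_[2])‖ = (1 / 2) ^ k := by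
  have h1 : ‖((c : ℤ) : ℚ_[2])‖ = 1 := by
    refine le_antisymm (Padic.norm_int_le_one c) ?_
    by_contra hlt
    rw [not_le, Padic.norm_intCast_lt_one_iff] at hlt
    exact hc hlt
  push_cast
  rw [norm_mul, norm_pow, norm_two', h1, mul_one]

lemma half {z : ℚ_[2]} (h : ‖z‖ < 1) : ‖z‖ ≤ 1 / 2 := by
  by_cases hz : z = 0
  · rw [hz, norm_zero]
    norm_num
  · rw [Padic.norm_eq_zpow_neg_valuation hz] at h ⊢
    push_cast at h ⊢
    have h1 : -z.valuation < 0 := by
      by_contra hcon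
      rw [not_lt] at hcon
      have : (1 : ℝ) ≤ 2 ^ (-z.valuation) := one_le_zpow₀ (by norm_num) hcon
      linarith
    have h2 : -z.valuation ≤ -1 := by omega
    calc (2 : ℝ) ^ (-z.valuation) ≤ 2 ^ (-1 : ℤ) := zpow_le_zpow_right₀ (by norm_num) h2
      _ = 1 / 2 := by norm_num

lemma quarter {z : ℚ_[2]} (h : ‖z‖ < 1 / 2) : ‖z‖ ≤ 1 / 4 := by
  have h1 : ‖z / 2‖ < 1 := by
    rw [norm_div, norm_two']
    linarith
  have h2 := half h1
  rw [norm_div, norm_two'] at h2
  linarith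

/-- a square does not have norm `1 / 8` -/
lemma not_eighth {z : ℚ_[2]} (h : ‖z‖ ^ 2 = 1 / 8) : False := by
  by_cases hz : z = 0
  · rw [hz, norm_zero] at h
    norm_num at h
  · rw [Padic.norm_eq_zpow_neg_valuation hz] at h
    push_cast at h
    have e : ((2 : ℝ) ^ (-z.valuation)) ^ 2 = 2 ^ (-z.valuation * 2) := by
      rw [zpow_mul]
      norm_cast
    have e8 : (1 / 8 : ℝ) = 2 ^ (-3 : ℤ) := by norm_num
    rw [e, e8] at h
    have h2 := zpow_right_injective₀ (by norm_num : (0 : ℝ) < 2) (by norm_num) h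
    omega

lemma n3 : ‖(3 : ℚ_[2])‖ = 1 := by
  have := nrm 0 3 (by norm_num)
  norm_num at this
  exact this

lemma n12 : ‖(12 : ℚ_[2])‖ = 1 / 4 := by
  have := nrm 2 3 (by norm_num)
  norm_num at this
  rw [this]

lemma n36 : ‖(36 : ℚ_[2])‖ = 1 / 4 := by
  have := nrm 2 9 (by norm_num)
  norm_num at this
  rw [this]

lemma n216 : ‖(216 : ℚ_[2])‖ = 1 / 8 := by
  have := nrm 3 27 (by norm_num)
  norm_num at this
  rw [this]

lemma na11 : ‖(-13392 : ℚ_[2])‖ = 1 / 16 := by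
  have := nrm 4 837 (by norm_num)
  rw [norm_neg]
  norm_num at this
  rw [this]

lemma nb11 : ‖(-1080432 : ℚ_[2])‖ = 1 / 16 := by
  have := nrm 4 67527 (by norm_num)
  rw [norm_neg]
  norm_num at this
  rw [this]

end norms

section pt

lemma si11 : SI (base E11s ℚ_[2]) := si_base E11s rfl rfl rfl

lemma a4_11 : (base E11s ℚ_[2]).a₄ = -13392 := by
  show ((-13392 : ℤ) : ℚ_[2]) = -13392
  norm_num

lemma a6_11 : (base E11s ℚ_[2]).a₆ = -1080432 := by
  show ((-1080432 : ℤ) : ℚ_[2]) = -1080432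
  norm_num

/-- points of odd order have a small `x`-coordinate -/
lemma odd_small {X Y : ℚ_[2]} {n : (base E11s ℚ_[2]).toAffine.Nonsingular X Y} {m : ℕ} (hm : Odd m)
    (h : m • (Affine.Point.some X Y n) = 0) : ‖X‖ < 1 := by
  by_contra hcon
  rw [not_lt] at hcon
  have hne : (Affine.Point.some X Y n) ≠ 0 := Affine.Point.some_ne_zero n
  rcases hcon.lt_or_eq with h1 | h1
  · apply hne
    exact odd_big si11 norm_two' h1 (big_some.2 le_rfl) hm h
  · -- the case of a unit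
    have heq := si11.toShort.eqn n
    rw [a4_11, a6_11] at heq
    have haX : ‖(-13392 : ℚ_[2]) * X‖ = 1 / 16 := by rw [norm_mul, na11, ← h1, mul_one]
    have hX3 : ‖X ^ 3‖ = 1 := by rw [norm_pow, ← h1, one_pow]
    have hY2 : ‖Y‖ ^ 2 = 1 := by
      rw [← norm_pow, heq, uadd_eq, uadd_eq, hX3]
      · rw [hX3, haX]; norm_num
      · rw [uadd_eq, hX3, nb11]
        · norm_num
        · rw [hX3, haX]; norm_num
    have hY : ‖Y‖ = 1 := by
      have h0 := norm_nonneg Y
      nlinarith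
    have h2T : m • (2 • (Affine.Point.some X Y n)) = 0 := by
      rw [smul_comm, h]
      exact nsmul_zero 2
    generalize hS : 2 • (Affine.Point.some X Y n) = T at h2T
    match T with
    | .zero =>
      exact hne (odd_two hm h hS)
    | .some X' Y' n' =>
      rw [two_nsmul] at hS
      obtain ⟨-, hy0, hX'⟩ := si11.toShort.add_eq hS
      rw [a4_11] at hX'
      have hnum : ‖3 * X ^ 2 + (-13392 : ℚ_[2])‖ = 1 := by
        have e1 : ‖3 * X ^ 2‖ = 1 := by rw [norm_mul, norm_pow, n3, ← h1, one_mul, one_pow]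
        rw [uadd_eq, e1]
        rw [e1, na11]
        norm_num
      have hl : ‖((3 * X ^ 2 + (-13392 : ℚ_[2])) / (2 * Y)) ^ 2‖ = 4 := by
        rw [norm_pow, norm_div, norm_mul, hnum, norm_two', hY]
        norm_num
      have hfin : ‖X'‖ = 4 := by
        rw [hX', usub_eq, hl]
        rw [hl, norm_mul, norm_two', ← h1]
        norm_num
      have h5 : (Affine.Point.some X' Y' n') = 0 :=
        odd_big si11 norm_two' (by norm_num : (1 : ℝ) < 4) (big_some.2 hfin.ge) hm h2T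
      exact Affine.Point.some_ne_zero n' h5

open Pool.Agent.Y702 (E11)
open Pool.Agent.R901.EC (sel11)
open Pool.Agent.Y700 (VR)

lemma vr11 : VR (base E11s ℚ) (base E11 ℚ) 6 (-12) 0 108 where
  u0 := by norm_num
  e1 := by
    show (6 : ℚ) * ((0 : ℤ) : ℚ) = ((0 : ℤ) : ℚ) + 2 * 0
    norm_num
  e2 := by
    show (6 : ℚ) ^ 2 * ((-1 : ℤ) : ℚ) = ((0 : ℤ) : ℚ) - 0 * ((0 : ℤ) : ℚ) + 3 * (-12) - 0 ^ 2
    norm_num
  e3 := by
    show (6 : ℚ) ^ 3 * ((1 : ℤ) : ℚ) = ((0 : ℤ) : ℚ) + (-12) * ((0 : ℤ) : ℚ) + 2 * 108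
    norm_num
  e4 := by
    show (6 : ℚ) ^ 4 * ((-10 : ℤ) : ℚ) = ((-13392 : ℤ) : ℚ) - 0 * ((0 : ℤ) : ℚ) +
      2 * (-12) * ((0 : ℤ) : ℚ) - (108 + (-12) * 0) * ((0 : ℤ) : ℚ) + 3 * (-12) ^ 2 - 2 * 0 * 108
    norm_num
  e6 := by
    show (6 : ℚ) ^ 6 * ((-20 : ℤ) : ℚ) = ((-1080432 : ℤ) : ℚ) + (-12) * ((-13392 : ℤ) : ℚ) +
      (-12) ^ 2 * ((0 : ℤ) : ℚ) + (-12) ^ 3 - 108 * ((0 : ℤ) : ℚ) - 108 ^ 2 -
      (-12) * 108 * ((0 : ℤ) : ℚ)
    norm_num

lemma disc11 : E11s.Δ ≠ 0 := by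
  norm_num [E11s, WeierstrassCurve.Δ, WeierstrassCurve.b₂, WeierstrassCurve.b₄,
    WeierstrassCurve.b₆, WeierstrassCurve.b₈]

lemma disc11' : (base E11 ℚ).Δ ≠ 0 := by
  rw [WeierstrassCurve.map_Δ]
  norm_num [E11, WeierstrassCurve.Δ, WeierstrassCurve.b₂, WeierstrassCurve.b₄,
    WeierstrassCurve.b₆, WeierstrassCurve.b₈]

/-- the 2-Selmer group of the short equation is trivial -/
theorem sel11s : Finite (base E11s ℚ).toAffine.Point ∧
    Odd (Nat.card (base E11s ℚ).toAffine.Point) ∧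
    (∀ s : Pool.Agent.TH841.NF.D.Sha (base E11s ℚ), 2 • s = 0 → s = 0) := by
  obtain ⟨h1, h2, h3⟩ := sel11
  let e := vr11.equiv disc11'
  refine ⟨Finite.of_equiv _ e.toEquiv, ?_, sha_vr vr11 disc11' h1⟩
  rw [← Nat.card_congr e.toEquiv]
  exact h3

/-- the rational points -/
lemma points11 (x0 y0 : ℤ) (h : y0 ^ 2 + y0 = x0 ^ 3 - x0 ^ 2 - 10 * x0 - 20) :
    (base E11s ℚ).toAffine.Nonsingular (36 * (x0 : ℚ) - 12) (216 * (y0 : ℚ) + 108) := by
  refine Pool.Agent.Y700.nonsing ?_ ?_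
  · rw [WeierstrassCurve.map_Δ]
    simpa using disc11
  · rw [Affine.equation_iff]
    show (216 * (y0 : ℚ) + 108) ^ 2 + ((0 : ℤ) : ℚ) * (36 * (x0 : ℚ) - 12) * (216 * (y0 : ℚ) + 108) +
      ((0 : ℤ) : ℚ) * (216 * (y0 : ℚ) + 108) = (36 * (x0 : ℚ) - 12) ^ 3 +
      ((0 : ℤ) : ℚ) * (36 * (x0 : ℚ) - 12) ^ 2 + ((-13392 : ℤ) : ℚ) * (36 * (x0 : ℚ) - 12) +
      ((-1080432 : ℤ) : ℚ)
    have h' : (y0 : ℚ) ^ 2 + y0 = x0 ^ 3 - x0 ^ 2 - 10 * x0 - 20 := by exact_mod_cast h
    push_cast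
    linear_combination 46656 * h'

lemma tors_image {L₁ L₂ : Type} [Field L₁] [Field L₂] (g : L₁ →+* L₂) (W₁ : WeierstrassCurve L₁)
    (W₂ : WeierstrassCurve L₂) (h : W₁.map g = W₂) (hfin : Finite W₁.toAffine.Point) :
    ∃ φ : W₁.toAffine.Point → W₂.toAffine.Point, (∀ P j, crd (φ P) j = g (crd P j)) ∧
      ∀ P, Nat.card W₁.toAffine.Point • φ P = 0 := by
  obtain ⟨φ, hφ⟩ := transport g W₁ W₂ h
  refine ⟨φ, hφ, fun P => ?_⟩
  rw [← map_nsmul, card_nsmul_eq_zero', map_zero]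

lemma res {z : ℚ_[2]} (hz : ‖z‖ ≤ 1) : ‖z‖ ≤ 1 / 2 ∨ ‖z - 1‖ ≤ 1 / 2 := by
  let w : ℤ_[2] := ⟨z, hz⟩
  obtain ⟨k, hk, hmem⟩ := PadicInt.exists_mem_range (p := 2) w
  have h1 : ‖w - (k : ℤ_[2])‖ < 1 := PadicInt.mem_nonunits.1 hmem
  have h2 : ‖z - (k : ℚ_[2])‖ < 1 := by
    rw [PadicInt.norm_def] at h1
    push_cast at h1
    exact h1
  have h3 := half h2
  interval_cases k
  · left
    simpa using h3
  · right
    simpa using h3

/-- **All 2-adic points of odd order on `X_0(11)` are rational.** -/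
theorem oddRat11 : OddRat E11s := by
  intro P m hm h
  match P, h with
  | .zero, h =>
    refine ⟨0, fun j => ?_⟩
    fin_cases j <;> simp [crd]
  | .some X Y n, h =>
    have hX1 := odd_small hm h
    have heq := si11.toShort.eqn n
    rw [a4_11, a6_11] at heq
    have hXh : ‖X‖ ≤ 1 / 2 := half hX1
    have hX4 : ‖X‖ ≤ 1 / 4 := by
      rcases hXh.lt_or_eq with h1 | h1
      · exact quarter h1
      · exfalso
        apply not_eighth (z := Y)
        have haX : ‖(-13392 : ℚ_[2]) * X‖ = 1 / 32 := by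
          rw [norm_mul, na11, h1]
          norm_num
        have hX3 : ‖X ^ 3‖ = 1 / 8 := by
          rw [norm_pow, h1]
          norm_num
        rw [← norm_pow, heq, uadd_eq, uadd_eq, hX3]
        · rw [hX3, haX]; norm_num
        · rw [uadd_eq, hX3, nb11]
          · norm_num
          · rw [hX3, haX]; norm_num
    obtain ⟨x, hx⟩ : ∃ x : ℚ_[2], X = 36 * x - 12 := ⟨(X + 12) / 36, by field_simp; ring⟩
    obtain ⟨y, hy⟩ : ∃ y : ℚ_[2], Y = 216 * y + 108 := ⟨(Y - 108) / 216, by field_simp; ring⟩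
    have hx1 : ‖x‖ ≤ 1 := by
      have e1 : ‖36 * x‖ ≤ 1 / 4 := by
        have e2 : 36 * x = X + 12 := by rw [hx]; ring
        rw [e2]
        exact uadd hX4 n12.le
      rw [norm_mul, n36] at e1
      linarith
    have hxy : y ^ 2 + y = x ^ 3 - x ^ 2 - 10 * x - 20 := by
      have h46 : (46656 : ℚ_[2]) ≠ 0 := by norm_num
      apply mul_left_cancel₀ h46
      rw [hx, hy] at heq
      linear_combination heq
    have hy1 : ‖y‖ ≤ 1 := by
      by_contra hcon
      rw [not_le] at hcon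
      have e1 : ‖y ^ 2 + y‖ = ‖y‖ ^ 2 := by
        rw [uadd_eq, norm_pow]
        rw [norm_pow]
        nlinarith
      have e2 : ‖x ^ 3 - x ^ 2 - 10 * x - 20‖ ≤ 1 := by
        refine usub (usub (usub ?_ ?_) ?_) ?_
        · rw [norm_pow]; exact pow_le_one₀ (norm_nonneg _) hx1
        · rw [norm_pow]; exact pow_le_one₀ (norm_nonneg _) hx1
        · have : ‖(10 : ℚ_[2])‖ ≤ 1 := by exact_mod_cast Padic.norm_int_le_one (p := 2) 10
          exact umul this hx1
        · exact_mod_cast Padic.norm_int_le_one (p := 2) 20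
      rw [← hxy, e1] at e2
      nlinarith
    obtain ⟨x0, y0, h0, hx0, hy0⟩ : ∃ x0 y0 : ℤ, y0 ^ 2 + y0 = x0 ^ 3 - x0 ^ 2 - 10 * x0 - 20 ∧
        ‖x - x0‖ ≤ 1 / 2 ∧ ‖y - y0‖ ≤ 1 / 2 := by
      have hx01 : ∃ (i : ℤ), (i = 0 ∨ i = 1) ∧ ‖x - i‖ ≤ 1 / 2 := by
        rcases res hx1 with h | h
        · exact ⟨0, Or.inl rfl, by simpa using h⟩
        · exact ⟨1, Or.inr rfl, by simpa using h⟩
      have hy01 : ∃ (i : ℤ), (i = 0 ∨ i = 1) ∧ ‖y - i‖ ≤ 1 / 2 := by
        rcases res hy1 with h | h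
        · exact ⟨0, Or.inl rfl, by simpa using h⟩
        · exact ⟨1, Or.inr rfl, by simpa using h⟩
      have hshift : ∀ (z : ℚ_[2]) (i j : ℤ), ‖z - i‖ ≤ 1 / 2 → (2 : ℤ) ∣ j - i → ‖z - j‖ ≤ 1 / 2 := by
        intro z i j hz hij
        have e1 : z - (j : ℚ_[2]) = (z - i) - ((j - i : ℤ) : ℚ_[2]) := by push_cast; ring
        rw [e1]
        exact usub hz (half (Padic.norm_intCast_lt_one_iff.2 hij))
      obtain ⟨i, hi, hxi⟩ := hx01
      obtain ⟨j, hj, hyj⟩ := hy01
      rcases hi with rfl | rfl <;> rcases hj with rfl | rfl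
      · exact ⟨16, 60, by norm_num, hshift x 0 16 hxi (by norm_num), hshift y 0 60 hyj (by norm_num)⟩
      · exact ⟨16, -61, by norm_num, hshift x 0 16 hxi (by norm_num), hshift y 1 (-61) hyj (by norm_num)⟩
      · exact ⟨5, -6, by norm_num, hshift x 1 5 hxi (by norm_num), hshift y 0 (-6) hyj (by norm_num)⟩
      · exact ⟨5, 5, by norm_num, hshift x 1 5 hxi (by norm_num), hshift y 1 5 hyj (by norm_num)⟩
    let y' : (base E11s ℚ).toAffine.Point := .some _ _ (points11 x0 y0 h0)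
    obtain ⟨hfin, hodd, -⟩ := sel11s
    obtain ⟨φ, hφ, hφM⟩ := tors_image (algebraMap ℚ ℚ_[2]) (base E11s ℚ) (base E11s ℚ_[2])
      (base_map E11s _) hfin
    set M : ℕ := Nat.card (base E11s ℚ).toAffine.Point with hM
    have hT : (m * M) • (Affine.Point.some X Y n - φ y') = 0 := by
      rw [nsmul_sub]
      have e1 : (m * M) • (Affine.Point.some X Y n) = 0 := by
        rw [mul_nsmul, h]
        exact nsmul_zero M
      have e2 : (m * M) • φ y' = 0 := by
        rw [mul_comm, mul_nsmul, hφM]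
        exact nsmul_zero m
      rw [e1, e2, sub_zero]
    have hc0 : crd (φ y') 0 = 36 * (x0 : ℚ_[2]) - 12 := by
      rw [hφ]
      show algebraMap ℚ ℚ_[2] (36 * (x0 : ℚ) - 12) = _
      simp
    have hc1 : crd (φ y') 1 = 216 * (y0 : ℚ_[2]) + 108 := by
      rw [hφ]
      show algebraMap ℚ ℚ_[2] (216 * (y0 : ℚ) + 108) = _
      simp
    have hc2 : crd (φ y') 2 = 1 := by
      rw [hφ]
      show algebraMap ℚ ℚ_[2] 1 = 1
      exact map_one _
    have key : Affine.Point.some X Y n = φ y' := by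
      generalize hz : φ y' = z at hT hc0 hc1 hc2
      match z with
      | .zero =>
        exfalso
        simp [crd] at hc2
      | .some X0 Y0 n0 =>
        have e0 : X0 = 36 * (x0 : ℚ_[2]) - 12 := hc0
        have e1 : Y0 = 216 * (y0 : ℚ_[2]) + 108 := hc1
        generalize hS : Affine.Point.some X Y n - Affine.Point.some X0 Y0 n0 = T at hT
        match T with
        | .zero => exact sub_eq_zero.1 hS
        | .some X' Y' n' =>
          exfalso
          have hs := odd_small (hm.mul hodd) hT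
          obtain ⟨l, hl1, -, hl3⟩ := si11.toShort.chord two_ne_zero hS
          have f1 : ‖X - X0‖ ≤ 1 / 8 := by
            have e3 : X - X0 = 36 * (x - x0) := by rw [hx, e0]; ring
            rw [e3, norm_mul, n36]
            linarith
          have f2 : ‖Y + Y0‖ = 1 / 8 := by
            have e3 : Y + Y0 = 216 * (1 + ((y - y0) + ((2 * y0 : ℤ) : ℚ_[2]))) := by
              rw [hy, e1]
              push_cast
              ring
            have e4 : ‖(y - y0) + ((2 * y0 : ℤ) : ℚ_[2])‖ ≤ 1 / 2 :=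
              uadd hy0 (half (Padic.norm_intCast_lt_one_iff.2 ⟨y0, rfl⟩))
            rw [e3, norm_mul, n216, uadd_eq, norm_one, mul_one]
            rw [norm_one]
            linarith
          have f3 : 1 ≤ ‖l‖ := by
            by_contra hcon
            rw [not_le] at hcon
            have f4 := congrArg norm hl1
            rw [norm_mul, f2] at f4
            have : ‖l‖ * ‖X - X0‖ < 1 / 8 := by
              by_cases h9 : ‖X - X0‖ = 0
              · rw [h9]; norm_num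
              · have : 0 < ‖X - X0‖ := lt_of_le_of_ne (norm_nonneg _) (Ne.symm h9)
                nlinarith
            linarith
          have f5 : ‖X0‖ ≤ 1 / 4 := by
            have e3 : X0 = X - (X - X0) := by ring
            rw [e3]
            exact usub hX4 (by linarith)
          have f6 : ‖X'‖ = ‖l ^ 2‖ := by
            rw [hl3, usub_eq, usub_eq]
            · rw [norm_pow]
              nlinarith
            · rw [usub_eq]
              · rw [norm_pow]
                nlinarith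
              · rw [norm_pow]
                nlinarith
          rw [f6, norm_pow] at hs
          nlinarith
    exact ⟨y', fun j => by rw [key, hφ]⟩

end pt

end Pool.Agent.R425.D
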